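import Mathlib

/-!
# FTT.Avg: the choice of the position of the window

PROOF. `I(S,T) = H (S+1) T + H S (T+1) - H S T - H (S+1) (T+1) ≥ 0` for `S < N`, `T < n`. For blocks,
`H (S+i) T + H S (T+j) - H S T - H (S+i) (T+j) = ∑_{S ≤ s < S+i} ∑_{T ≤ t < T+j} I(s,t)`. In particular
`∑_{s<N, t<n} I(s,t) = H N 0 + H 0 n - H 0 0 - H N n ≤ H 0 n ≤ n l`. For `T ≤ n` (block `[0,N) × [T,n)`):
`H N T - H 0 T ≥ H N n - H 0 n ≥ H N 0 - n l ≥ N l - 2 n l`, so `∑_{s<N} (l - (H (s+1) T - H s T)) ≤ 2 n l`, all terms `≥ 0`.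
Sum each of the six terms over `σ = S + g ∈ [g, N)` and `τ = T + g ∈ 𝒯` (there are at least `(N/2)(n/4) = N n / 8` pairs):
`i1`: `∑ I(σ,τ) ≤ n l`; `i2`: `∑_{σ,τ} ∑_{τ-g ≤ t < τ} I(σ,t) ≤ g n l` (every `t` occurs for at most `g` values `τ`);
`i3`: the same; `i4`: `≤ g^2 n l`; `i5`: for every `τ`, `∑_σ ∑_{σ-g ≤ s < σ} (l - ..) ≤ g 2 n l`; `i6`: for every `τ`,
`∑_σ (l - ..) ≤ 2 n l`. So the sum over all pairs of the left side of the claim is at most `#pairs` times `6`: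
e.g. `N n l / (8 l) = N n / 8 ≤ #pairs`, and for `i5`: `|𝒯| N g 2 n l / (4 g n l) = |𝒯| N/2 ≤ |𝒯| (N - g)`. Hence some pair works.
-/

namespace FTT

open Finset

private theorem avg_shift (F : ℕ → ℝ) (n g j : ℕ) (hj : j < g) (hF : ∀ t < n, 0 ≤ F t)
    (A : Finset ℕ) (hA : A ⊆ Ico g n) :
    ∑ a ∈ A, F (a - g + j) ≤ ∑ t ∈ range n, F t := by
  have hinj : Set.InjOn (fun a => a - g + j) (A : Set ℕ) := by
    intro a ha b hb hab
    have h1 := mem_Ico.1 (hA ha)
    have h2 := mem_Ico.1 (hA hb)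
    dsimp only at hab
    omega
  rw [← sum_image (f := F) hinj]
  refine sum_le_sum_of_subset_of_nonneg ?_ ?_
  · intro t ht
    rw [mem_image] at ht
    obtain ⟨a, ha, rfl⟩ := ht
    have h1 := mem_Ico.1 (hA ha)
    rw [mem_range]
    omega
  · intro t ht _
    exact hF t (mem_range.1 ht)

private theorem avg_tel (f : ℕ → ℝ) (a j : ℕ) :
    ∑ t ∈ range j, (f (a + t + 1) - f (a + t)) = f (a + j) - f a := by
  induction j with
  | zero => simp
  | succ k ih => rw [sum_range_succ, ih]; ring_nf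

theorem avg {N n g : ℕ} {l : ℝ} (hl : 0 < l) (H : ℕ → ℕ → ℝ) (hg : 1 ≤ g) (hn : 1 ≤ n)
    (hN : 2 * g ≤ N)
    (hI : ∀ S < N, ∀ T < n, H (S + 1) (T + 1) + H S T ≤ H (S + 1) T + H S (T + 1))
    (hx : ∀ S < N, ∀ T ≤ n, H (S + 1) T - H S T ≤ l)
    (h00 : H 0 0 = 0) (h0n : H 0 n ≤ n * l) (hNn : H N 0 ≤ H N n)
    (hd : N * l - H N 0 ≤ n * l)
    (𝒯 : Finset ℕ) (hT : 𝒯 ⊆ Ico g n) (hc : n ≤ 4 * 𝒯.card) :
    ∃ S T : ℕ, S + g < N ∧ T + g ∈ 𝒯 ∧
      N * (H (S + g + 1) (T + g) + H (S + g) (T + g + 1) - H (S + g) (T + g) -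
        H (S + g + 1) (T + g + 1)) / (8 * l) +
      N * (H (S + g + 1) T + H (S + g) (T + g) - H (S + g) T - H (S + g + 1) (T + g)) /
        (8 * g * l) +
      N * (H (S + g) (T + g) + H S (T + g + 1) - H S (T + g) - H (S + g) (T + g + 1)) /
        (8 * g * l) +
      N * (H (S + g) T + H S (T + g) - H S T - H (S + g) (T + g)) / (8 * g ^ 2 * l) +
      N * (g * l - (H (S + g) T - H S T)) / (4 * g * n * l) +
      N * (l - (H (S + g + 1) T - H (S + g) T)) / (4 * n * l) ≤ 6 := by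
  classical
  have hN0 : (0 : ℝ) ≤ N := Nat.cast_nonneg N
  have hg0 : (0 : ℝ) < g := by exact_mod_cast hg
  have hn0 : (0 : ℝ) < n := by exact_mod_cast hn
  -- the information
  set I : ℕ → ℕ → ℝ := fun S T => H (S + 1) T + H S (T + 1) - H S T - H (S + 1) (T + 1) with hIdef
  have hI0 : ∀ S < N, ∀ T < n, 0 ≤ I S T := by
    intro S hS T hT'
    have := hI S hS T hT'
    simp only [hIdef]; linarith
  set D : ℕ → ℕ → ℝ := fun S T => l - (H (S + 1) T - H S T) with hDdef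
  have hD0 : ∀ S < N, ∀ T ≤ n, 0 ≤ D S T := by
    intro S hS T hT'
    have := hx S hS T hT'
    simp only [hDdef]; linarith
  -- telescoping in the second variable
  have tel2 : ∀ S T j, ∑ t ∈ range j, I S (T + t) =
      H (S + 1) T + H S (T + j) - H S T - H (S + 1) (T + j) := by
    intro S T j
    have h := avg_tel (fun t => H S t - H (S + 1) t) T j
    have h2 : ∑ t ∈ range j, I S (T + t) = ∑ t ∈ range j,
        ((fun t => H S t - H (S + 1) t) (T + t + 1) - (fun t => H S t - H (S + 1) t) (T + t)) := by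
      refine sum_congr rfl fun t _ => ?_
      simp only [hIdef]; ring
    rw [h2, h]; ring
  have tel1 : ∀ S T i, ∑ s ∈ range i, I (S + s) T =
      H (S + i) T + H S (T + 1) - H S T - H (S + i) (T + 1) := by
    intro S T i
    have h := avg_tel (fun s => H s T - H s (T + 1)) S i
    have h2 : ∑ s ∈ range i, I (S + s) T = ∑ s ∈ range i,
        ((fun s => H s T - H s (T + 1)) (S + s + 1) - (fun s => H s T - H s (T + 1)) (S + s)) := by
      refine sum_congr rfl fun t _ => ?_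
      simp only [hIdef]; ring
    rw [h2, h]; ring
  have tel12 : ∀ S T i j, ∑ s ∈ range i, ∑ t ∈ range j, I (S + s) (T + t) =
      H (S + i) T + H S (T + j) - H S T - H (S + i) (T + j) := by
    intro S T i j
    have h : ∀ s ∈ range i, ∑ t ∈ range j, I (S + s) (T + t) =
        (fun s => H s T - H s (T + j)) (S + s + 1) - (fun s => H s T - H s (T + j)) (S + s) := by
      intro s _
      rw [tel2]; ring
    rw [sum_congr rfl h, avg_tel (fun s => H s T - H s (T + j)) S i]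
    ring
  have telD : ∀ S T i, ∑ s ∈ range i, D (S + s) T = i * l - (H (S + i) T - H S T) := by
    intro S T i
    have h := avg_tel (fun s => H s T) S i
    simp only [hDdef]
    rw [sum_sub_distrib, h]
    simp
  -- totals
  have tot : ∑ s ∈ range N, ∑ t ∈ range n, I s t ≤ n * l := by
    have h := tel12 0 0 N n
    simp only [zero_add] at h
    rw [h, h00]
    linarith
  have totD : ∀ T ≤ n, ∑ s ∈ range N, D s T ≤ 2 * n * l := by
    intro T hTn
    have h := telD 0 T N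
    simp only [zero_add] at h
    rw [h]
    have h2 := tel12 0 T N (n - T)
    have h3 : 0 ≤ ∑ s ∈ range N, ∑ t ∈ range (n - T), I (0 + s) (T + t) := by
      refine sum_nonneg fun s hs => sum_nonneg fun t ht => ?_
      rw [mem_range] at hs ht
      exact hI0 _ (by omega) _ (by omega)
    rw [h2] at h3
    have h4 : T + (n - T) = n := by omega
    rw [h4, zero_add] at h3
    linarith
  -- the set of pairs
  have hTne : 𝒯.Nonempty := by
    rw [← card_pos]; omega
  have hPne : (Ico g N ×ˢ 𝒯).Nonempty :=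
    Nonempty.product ⟨g, mem_Ico.2 ⟨le_rfl, by omega⟩⟩ hTne
  set f : ℕ × ℕ → ℝ := fun p =>
      N * I p.1 p.2 / (8 * l) +
      N * (∑ t ∈ range g, I p.1 (p.2 - g + t)) / (8 * g * l) +
      N * (∑ s ∈ range g, I (p.1 - g + s) p.2) / (8 * g * l) +
      N * (∑ s ∈ range g, ∑ t ∈ range g, I (p.1 - g + s) (p.2 - g + t)) / (8 * g ^ 2 * l) +
      N * (∑ s ∈ range g, D (p.1 - g + s) (p.2 - g)) / (4 * g * n * l) +
      N * D p.1 (p.2 - g) / (4 * n * l) with hf
  have hTn : ∀ t ∈ 𝒯, g ≤ t ∧ t < n := fun t ht => mem_Ico.1 (hT ht)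
  -- the six sums
  have hsub1 : ∀ F : ℕ → ℝ, (∀ s < N, 0 ≤ F s) → ∑ s ∈ Ico g N, F s ≤ ∑ s ∈ range N, F s := by
    intro F hF
    refine sum_le_sum_of_subset_of_nonneg ?_ ?_
    · intro s hs; rw [mem_range]; exact (mem_Ico.1 hs).2
    · intro s hs _; exact hF s (mem_range.1 hs)
  have hsub2 : ∀ F : ℕ → ℝ, (∀ s < n, 0 ≤ F s) → ∑ s ∈ 𝒯, F s ≤ ∑ s ∈ range n, F s := by
    intro F hF
    refine sum_le_sum_of_subset_of_nonneg ?_ ?_
    · intro s hs; rw [mem_range]; exact (hTn s hs).2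
    · intro s hs _; exact hF s (mem_range.1 hs)
  have s1 : ∑ p ∈ Ico g N ×ˢ 𝒯, I p.1 p.2 ≤ n * l := by
    rw [sum_product]
    refine le_trans ?_ tot
    refine le_trans (sum_le_sum fun s hs => hsub2 (fun t => I s t) fun t ht =>
      hI0 s (mem_Ico.1 hs).2 t ht) ?_
    exact hsub1 (fun s => ∑ t ∈ range n, I s t) fun s hs => sum_nonneg fun t ht =>
      hI0 s hs t (mem_range.1 ht)
  have s2 : ∑ p ∈ Ico g N ×ˢ 𝒯, ∑ t ∈ range g, I p.1 (p.2 - g + t) ≤ g * (n * l) := by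
    rw [sum_comm]
    have h : ∀ t ∈ range g, ∑ p ∈ Ico g N ×ˢ 𝒯, I p.1 (p.2 - g + t) ≤ n * l := by
      intro t ht
      rw [sum_product]
      refine le_trans ?_ tot
      refine le_trans (sum_le_sum fun s hs => avg_shift (fun x => I s x) n g t (mem_range.1 ht)
        (fun x hx' => hI0 s (mem_Ico.1 hs).2 x hx') 𝒯 hT) ?_
      exact hsub1 (fun s => ∑ t ∈ range n, I s t) fun s hs => sum_nonneg fun t ht =>
        hI0 s hs t (mem_range.1 ht)
    refine le_trans (sum_le_sum h) ?_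
    rw [sum_const, card_range, nsmul_eq_mul]
  have s3 : ∑ p ∈ Ico g N ×ˢ 𝒯, ∑ s ∈ range g, I (p.1 - g + s) p.2 ≤ g * (n * l) := by
    rw [sum_comm]
    have h : ∀ t ∈ range g, ∑ p ∈ Ico g N ×ˢ 𝒯, I (p.1 - g + t) p.2 ≤ n * l := by
      intro t ht
      rw [sum_product_right]
      have tot' : ∑ t ∈ range n, ∑ s ∈ range N, I s t ≤ n * l := by
        rw [sum_comm]; exact tot
      refine le_trans ?_ tot'
      refine le_trans (sum_le_sum fun s hs => avg_shift (fun x => I x s) N g t (mem_range.1 ht)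
        (fun x hx' => hI0 x hx' s (hTn s hs).2) (Ico g N) (Subset.refl _)) ?_
      exact hsub2 (fun s => ∑ x ∈ range N, I x s) fun s hs => sum_nonneg fun t ht =>
        hI0 t (mem_range.1 ht) s hs
    refine le_trans (sum_le_sum h) ?_
    rw [sum_const, card_range, nsmul_eq_mul]
  have s4 : ∑ p ∈ Ico g N ×ˢ 𝒯, ∑ s ∈ range g, ∑ t ∈ range g, I (p.1 - g + s) (p.2 - g + t) ≤
      g * (g * (n * l)) := by
    rw [sum_comm]
    have h : ∀ s ∈ range g, ∑ p ∈ Ico g N ×ˢ 𝒯, ∑ t ∈ range g, I (p.1 - g + s) (p.2 - g + t) ≤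
        g * (n * l) := by
      intro s hs
      rw [sum_comm]
      have h' : ∀ t ∈ range g, ∑ p ∈ Ico g N ×ˢ 𝒯, I (p.1 - g + s) (p.2 - g + t) ≤ n * l := by
        intro t ht
        rw [sum_product]
        refine le_trans ?_ tot
        refine le_trans (sum_le_sum fun a ha => avg_shift (fun x => I (a - g + s) x) n g t
          (mem_range.1 ht) (fun x hx' => hI0 _ (by
            have h1 := mem_Ico.1 ha
            have h2 := mem_range.1 hs
            omega) x hx') 𝒯 hT) ?_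
        exact avg_shift (fun x => ∑ t ∈ range n, I x t) N g s (mem_range.1 hs)
          (fun x hx' => sum_nonneg fun t ht => hI0 x hx' t (mem_range.1 ht)) (Ico g N)
          (Subset.refl _)
      refine le_trans (sum_le_sum h') ?_
      rw [sum_const, card_range, nsmul_eq_mul]
    refine le_trans (sum_le_sum h) ?_
    rw [sum_const, card_range, nsmul_eq_mul]
  have s5 : ∑ p ∈ Ico g N ×ˢ 𝒯, ∑ s ∈ range g, D (p.1 - g + s) (p.2 - g) ≤
      𝒯.card * (g * (2 * n * l)) := by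
    rw [sum_product_right]
    have h : ∀ y ∈ 𝒯, ∑ x ∈ Ico g N, ∑ s ∈ range g, D (x - g + s) (y - g) ≤ g * (2 * n * l) := by
      intro y hy
      rw [sum_comm]
      have h' : ∀ s ∈ range g, ∑ x ∈ Ico g N, D (x - g + s) (y - g) ≤ 2 * n * l := by
        intro s hs
        have hy' := hTn y hy
        refine le_trans (avg_shift (fun x => D x (y - g)) N g s (mem_range.1 hs)
          (fun x hx' => hD0 x hx' _ (by omega)) (Ico g N) (Subset.refl _)) ?_
        exact totD _ (by omega)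
      refine le_trans (sum_le_sum h') ?_
      rw [sum_const, card_range, nsmul_eq_mul]
    refine le_trans (sum_le_sum h) ?_
    rw [sum_const, nsmul_eq_mul]
  have s6 : ∑ p ∈ Ico g N ×ˢ 𝒯, D p.1 (p.2 - g) ≤ 𝒯.card * (2 * n * l) := by
    rw [sum_product_right]
    have h : ∀ y ∈ 𝒯, ∑ x ∈ Ico g N, D x (y - g) ≤ 2 * n * l := by
      intro y hy
      have hy' := hTn y hy
      refine le_trans (hsub1 (fun x => D x (y - g)) fun x hx' => hD0 x hx' _ (by omega)) ?_
      exact totD _ (by omega)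
    refine le_trans (sum_le_sum h) ?_
    rw [sum_const, nsmul_eq_mul]
  have hcard : ((Ico g N ×ˢ 𝒯).card : ℝ) = (N - g) * 𝒯.card := by
    rw [card_product, Nat.card_Ico, Nat.cast_mul, Nat.cast_sub (by omega)]
  have hcR : (n : ℝ) ≤ 4 * 𝒯.card := by exact_mod_cast hc
  have hNR : 2 * (g : ℝ) ≤ N := by exact_mod_cast hN
  have hsum : ∑ p ∈ Ico g N ×ˢ 𝒯, f p ≤ ∑ p ∈ Ico g N ×ˢ 𝒯, (6 : ℝ) := by
    simp only [hf]
    rw [sum_add_distrib, sum_add_distrib, sum_add_distrib, sum_add_distrib, sum_add_distrib]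
    rw [← sum_div, ← sum_div, ← sum_div, ← sum_div, ← sum_div, ← sum_div]
    rw [← mul_sum, ← mul_sum, ← mul_sum, ← mul_sum, ← mul_sum, ← mul_sum]
    have e1 : N * (∑ p ∈ Ico g N ×ˢ 𝒯, I p.1 p.2) / (8 * l) ≤ N * n / 8 := by
      rw [div_le_iff₀ (by positivity)]
      have := mul_le_mul_of_nonneg_left s1 hN0
      linarith
    have e2 : N * (∑ p ∈ Ico g N ×ˢ 𝒯, ∑ t ∈ range g, I p.1 (p.2 - g + t)) / (8 * g * l) ≤
        N * n / 8 := by
      rw [div_le_iff₀ (by positivity)]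
      have := mul_le_mul_of_nonneg_left s2 hN0
      linarith
    have e3 : N * (∑ p ∈ Ico g N ×ˢ 𝒯, ∑ s ∈ range g, I (p.1 - g + s) p.2) / (8 * g * l) ≤
        N * n / 8 := by
      rw [div_le_iff₀ (by positivity)]
      have := mul_le_mul_of_nonneg_left s3 hN0
      linarith
    have e4 : N * (∑ p ∈ Ico g N ×ˢ 𝒯, ∑ s ∈ range g, ∑ t ∈ range g,
        I (p.1 - g + s) (p.2 - g + t)) / (8 * g ^ 2 * l) ≤ N * n / 8 := by
      rw [div_le_iff₀ (by positivity)]
      have := mul_le_mul_of_nonneg_left s4 hN0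
      linarith
    have e5 : N * (∑ p ∈ Ico g N ×ˢ 𝒯, ∑ s ∈ range g, D (p.1 - g + s) (p.2 - g)) /
        (4 * g * n * l) ≤ N * 𝒯.card / 2 := by
      rw [div_le_iff₀ (by positivity)]
      have := mul_le_mul_of_nonneg_left s5 hN0
      linarith
    have e6 : N * (∑ p ∈ Ico g N ×ˢ 𝒯, D p.1 (p.2 - g)) / (4 * n * l) ≤ N * 𝒯.card / 2 := by
      rw [div_le_iff₀ (by positivity)]
      have := mul_le_mul_of_nonneg_left s6 hN0
      linarith
    rw [sum_const, nsmul_eq_mul, hcard]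
    have h7 : (N : ℝ) * n ≤ N * (4 * 𝒯.card) := mul_le_mul_of_nonneg_left hcR hN0
    have h8 : 0 ≤ ((N : ℝ) - 2 * g) * 𝒯.card :=
      mul_nonneg (by linarith) (Nat.cast_nonneg _)
    nlinarith
  obtain ⟨p, hp, hp6⟩ := exists_le_of_sum_le hPne hsum
  rw [mem_product] at hp
  obtain ⟨hp1, hp2⟩ := hp
  have hp1' := mem_Ico.1 hp1
  have hp2' := hTn _ hp2
  refine ⟨p.1 - g, p.2 - g, ?_, ?_, ?_⟩
  · omega
  · rw [Nat.sub_add_cancel hp2'.1]; exact hp2
  · rw [Nat.sub_add_cancel hp1'.1, Nat.sub_add_cancel hp2'.1]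
    simp only [hf] at hp6
    have a2 := tel2 p.1 (p.2 - g) g
    have a3 := tel1 (p.1 - g) p.2 g
    have a4 := tel12 (p.1 - g) (p.2 - g) g g
    have a5 := telD (p.1 - g) (p.2 - g) g
    rw [Nat.sub_add_cancel hp2'.1] at a2
    rw [Nat.sub_add_cancel hp1'.1] at a3
    rw [Nat.sub_add_cancel hp1'.1, Nat.sub_add_cancel hp2'.1] at a4
    rw [Nat.sub_add_cancel hp1'.1] at a5
    rw [a2, a3, a4, a5] at hp6
    exact hp6

end FTT
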