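import Pool.Agent.FTT.MiIneq

/-!
# FTT.GoodM: the good pairs of frames have product measure at least 1/2

PROOF of `good`. Write `P = mP`. `∑_{A,B} ms A B ≤ J1` (`mi_zero` for every `(A,B)`: row sums `mAaB`, column sums `mABb`, total
`mAB`). `∑_{A,B} mAB A B * eA A B / mA A ≤ 7 J2` (`mi_half` for every `A`, array `(a,B) ↦ mAaB A a B`: row sums `mAa A a`, column
sums `mAB A B`, total `mA A`). `∑_{A,B} mAB A B * eB A B / mB B ≤ 7 J3` (for every `B`, array `(A,b) ↦ mABb A B b`: row sums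
`mAB A B`, column sums `mBb B b`, total `mB B`). `∑ mA A * mB B / P ≤ 7 J4 ≤ P/20` over the pairs with
`2 (mAB A B * P) < mA A * mB B` (`mi_half` for the array `mAB`: row sums `mA`, column sums `mB`, total `P`).
Consider only pairs with `mA A > 0`, `mB B > 0` (the others do not contribute to `∑ mA mB = P^2`). Masses (with respect to
`mAB`) of the pairs violating the clauses: `miss`: `mAB < ms/θ1`, total `≤ J1/θ1 ≤ P/40`; `loA`: `mAB ≤ mAB eA/(θ2 mA)`, total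
`≤ 7 J2/θ2 ≤ P/40`; `loB`: the same; `atA`: `≤ P/20` by `h5`; `lgA`: `mA < 4 lA`, total `≤ 4 ∑ lA ≤ P/20`. Together
`≤ (7/40) P`. If `half` holds then `mA mB ≤ 2 mAB P`; so the violating pairs with `half` have `∑ mA mB ≤ (7/20) P^2`, those
without `half` have `∑ mA mB ≤ P^2/20`. So the good pairs have `∑ mA mB ≥ (6/10) P^2`.
-/

namespace FTT

open Finset

open Classical in
theorem good {G D : ℕ} {f : ℕ → ℕ → ℕ → ℕ → ℝ} (hf : ∀ A a B b, 0 ≤ f A a B b)
    {θ1 θ2 a0 a1 : ℝ} (hθ1 : 0 < θ1) (hθ2 : 0 < θ2) (hP : 0 < mP G D f)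
    (h1 : 40 * J1 G D f ≤ θ1 * mP G D f) (h2 : 280 * J2 G D f ≤ θ2 * mP G D f)
    (h3 : 280 * J3 G D f ≤ θ2 * mP G D f) (h4 : 140 * J4 G D f ≤ mP G D f)
    (h5 : 20 * ∑ A ∈ (range G).filter (fun A => a0 * mP G D f < mA G D f A), mA G D f A ≤
      mP G D f)
    (h6 : 80 * ∑ A ∈ range G, lA G D f a1 A ≤ mP G D f) :
    mP G D f ^ 2 ≤ 2 * ∑ z ∈ (range G ×ˢ range G).filter
      (fun z => Good G D f θ1 θ2 a0 a1 z.1 z.2), mA G D f z.1 * mB G D f z.2 := by
  sorry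

end FTT
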