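import Mathlib

/-!
# FTT.Kst: weighted Kovari-Sos-Turan

PROOF of `kst`. For a tuple `w : Fin m → range G` (functions `Fin m → Fin G`) let `π(w) = ∏_i α (w i)` and
`N(w) = {v < G : E (w i) v for all i}`. Then `∑_w π(w) β(N(w)) = ∑_v β v (α(N(v)))^m ≥ (∑_v β v α(N(v)))^m ≥ 2^(-m)`,
`N(v) = {u < G : E u v}` (power mean inequality, `∑ β = 1`; Mathlib: `inner_le_nnorm_mul_nnorm`-free proof by
`Real.pow_arith_mean_le_arith_mean_pow`). Tuples `w` which are not injective and have `N(w) ≠ ∅`: `w i = w j` for some `i < j`,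
and `α (w i) ≤ a0` by `hE`; their total `π` is at most `(m^2/2) a0 ≤ 2^(-m)/2` (for fixed `i < j`:
`∑ ∏ ≤ ∑_u α(u)^2 [α u ≤ a0] ≤ a0`). As `∑ π = 1`, there is an injective `w` with `β(N(w)) ≥ 2^(-m)/2`; since `β v ≤ b0` for all
`v < G`, `|N(w)| b0 ≥ 2^(-m)/2`, so `|N(w)| ≥ m` by `hb0'`. Sort the values of `w`, and take `m` elements of `N(w)`, sorted
(`Finset.orderEmbOfFin`).
-/

namespace FTT

open Finset

private theorem Kst_fin {G : ℕ} {α : ℕ → ℝ} (hα1 : ∑ i ∈ range G, α i = 1) : ∑ u : Fin G, α u = 1 := by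
  rw [Fin.sum_univ_eq_sum_range (fun i => α i)]
  exact hα1

private theorem Kst_sum_prod {G : ℕ} {κ : Type*} [Fintype κ] [DecidableEq κ] (f : Fin G → ℝ) :
    ∑ x : κ → Fin G, ∏ k, f (x k) = (∑ u, f u) ^ (Fintype.card κ) := by
  have h := Finset.prod_univ_sum (fun _ : κ => (Finset.univ : Finset (Fin G))) (fun _ u => f u)
  rw [Fintype.piFinset_univ] at h
  rw [← h]
  simp

open Classical in
private theorem Kst_pair {G m : ℕ} {α : ℕ → ℝ} (hα : ∀ i, 0 ≤ α i) (hα1 : ∑ i ∈ range G, α i = 1)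
    {a0 : ℝ} (ha0 : 0 ≤ a0) (i j : Fin m) (hij : i ≠ j) :
    ∑ w ∈ (univ : Finset (Fin m → Fin G)).filter (fun w => w i = w j ∧ α (w i) ≤ a0),
      ∏ k, α (w k) ≤ a0 := by
  set F := (univ : Finset (Fin m → Fin G)).filter (fun w => w i = w j ∧ α (w i) ≤ a0) with hF
  have h1 : ∀ w ∈ F, ∏ k, α (w k) ≤ a0 * ∏ k : {k // k ≠ i}, α (w k) := by
    intro w hw
    rw [hF, mem_filter] at hw
    rw [Fintype.prod_eq_mul_prod_subtype_ne (fun k => α (w k)) i]
    exact mul_le_mul_of_nonneg_right hw.2.2 (Finset.prod_nonneg (fun k _ => hα _))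
  refine (Finset.sum_le_sum h1).trans ?_
  rw [← Finset.mul_sum]
  have hinj : Set.InjOn (fun (w : Fin m → Fin G) (k : {k // k ≠ i}) => w k) (F : Set (Fin m → Fin G)) := by
    intro w hw w' hw' he
    rw [Finset.mem_coe, hF, mem_filter] at hw hw'
    have h2 : ∀ k, k ≠ i → w k = w' k := fun k hk => congrFun he ⟨k, hk⟩
    funext k
    by_cases hk : k = i
    · rw [hk, hw.2.1, hw'.2.1]
      exact h2 j (Ne.symm hij)
    · exact h2 k hk
  have h3 : ∑ w ∈ F, ∏ k : {k // k ≠ i}, α (w k) =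
      ∑ x ∈ F.image (fun (w : Fin m → Fin G) (k : {k // k ≠ i}) => w k), ∏ k, α (x k) := by
    rw [Finset.sum_image hinj]
  have h4 : ∑ x ∈ F.image (fun (w : Fin m → Fin G) (k : {k // k ≠ i}) => w k), ∏ k, α (x k) ≤
      ∑ x : {k // k ≠ i} → Fin G, ∏ k, α (x k) :=
    Finset.sum_le_sum_of_subset_of_nonneg (Finset.subset_univ _)
      (fun x _ _ => Finset.prod_nonneg (fun k _ => hα _))
  have h5 : ∑ x : {k // k ≠ i} → Fin G, ∏ k, α (x k) = 1 :=
    (Kst_sum_prod (fun u : Fin G => α u)).trans (by rw [Kst_fin hα1, one_pow])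
  rw [h3]
  calc a0 * _ ≤ a0 * 1 := mul_le_mul_of_nonneg_left (h4.trans h5.le) ha0
    _ = a0 := mul_one a0

open Classical in
private theorem Kst_main {G m : ℕ} (α β : ℕ → ℝ) (hα : ∀ i, 0 ≤ α i) (hβ : ∀ i, 0 ≤ β i)
    (hα1 : ∑ i ∈ range G, α i = 1) (hβ1 : ∑ i ∈ range G, β i = 1) (E : ℕ → ℕ → Prop)
    {a0 : ℝ} (hE : ∀ i j, E i j → α i ≤ a0) (ha0' : (m : ℝ) ^ 2 * a0 * 2 ^ m ≤ 1)
    (h : 1 ≤ 2 * ∑ z ∈ (range G ×ˢ range G).filter (fun z => E z.1 z.2), α z.1 * β z.2) :
    ∃ w : Fin m → Fin G, Function.Injective w ∧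
      (1 / 2) ^ m / 2 ≤ ∑ v ∈ univ.filter (fun v : Fin G => ∀ i, E (w i) v), β v := by
  have ha0 : 0 ≤ a0 := by
    by_contra hneg
    push Not at hneg
    have hempty : (range G ×ˢ range G).filter (fun z : ℕ × ℕ => E z.1 z.2) = ∅ := by
      rw [Finset.filter_eq_empty_iff]
      intro z _ hz
      linarith [hE _ _ hz, hα z.1]
    rw [hempty, Finset.sum_empty] at h
    linarith
  set P : (Fin m → Fin G) → ℝ := fun w => ∏ i, α (w i) with hP
  set B : (Fin m → Fin G) → ℝ := fun w =>
    ∑ v ∈ univ.filter (fun v : Fin G => ∀ i, E (w i) v), β v with hB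
  have hP0 : ∀ w, 0 ≤ P w := fun w => Finset.prod_nonneg (fun i _ => hα _)
  have hB0 : ∀ w, 0 ≤ B w := fun w => Finset.sum_nonneg (fun i _ => hβ _)
  have hB1 : ∀ w, B w ≤ 1 := by
    intro w
    rw [← Kst_fin hβ1]
    exact Finset.sum_le_sum_of_subset_of_nonneg (Finset.subset_univ _) (fun v _ _ => hβ _)
  have hP1 : ∑ w, P w = 1 :=
    (Kst_sum_prod (fun u : Fin G => α u)).trans (by rw [Kst_fin hα1, one_pow])
  set A : Fin G → ℝ := fun v => ∑ u : Fin G, if E u v then α u else 0 with hA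
  have hA0 : ∀ v, 0 ≤ A v := fun v => Finset.sum_nonneg (fun u _ => by
    split_ifs
    · exact hα _
    · exact le_rfl)
  -- the double counting
  have hdc : ∑ w, P w * B w = ∑ v : Fin G, β v * A v ^ m := by
    have h1 : ∀ w, P w * B w = ∑ v : Fin G, β v * ∏ i, (if E (w i) v then α (w i) else 0) := by
      intro w
      rw [hB]
      simp only
      rw [Finset.sum_filter, Finset.mul_sum]
      refine Finset.sum_congr rfl (fun v _ => ?_)
      rw [Finset.prod_ite_zero]
      by_cases hv : ∀ i, E (w i) v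
      · rw [if_pos hv, if_pos (fun i _ => hv i), mul_comm]
      · rw [if_neg hv, if_neg (fun h' => hv (fun i => h' i (mem_univ i))), mul_zero, mul_zero]
    rw [Finset.sum_congr rfl (fun w _ => h1 w), Finset.sum_comm]
    refine Finset.sum_congr rfl (fun v _ => ?_)
    rw [← Finset.mul_sum]
    congr 1
    exact (Kst_sum_prod (fun u : Fin G => if E u v then α u else 0)).trans (by rw [Fintype.card_fin])
  have hS : (1 : ℝ) / 2 ≤ ∑ v : Fin G, β v * A v := by
    have h2 : ∑ z ∈ (range G ×ˢ range G).filter (fun z => E z.1 z.2), α z.1 * β z.2 =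
        ∑ v : Fin G, β v * A v := by
      rw [Finset.sum_filter, Finset.sum_product, Finset.sum_comm]
      rw [← Fin.sum_univ_eq_sum_range
        (fun y => ∑ x ∈ range G, if E x y then α x * β y else 0)]
      refine Finset.sum_congr rfl (fun v _ => ?_)
      rw [← Fin.sum_univ_eq_sum_range (fun x => if E x v then α x * β v else 0), hA]
      simp only
      rw [Finset.mul_sum]
      refine Finset.sum_congr rfl (fun u _ => ?_)
      split_ifs
      · ring
      · ring
    rw [h2] at h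
    linarith
  have hlow : (1 / 2 : ℝ) ^ m ≤ ∑ w, P w * B w := by
    rw [hdc]
    refine le_trans ?_ (Real.pow_arith_mean_le_arith_mean_pow univ (fun v : Fin G => β v) A
      (fun v _ => hβ _) (Kst_fin hβ1) (fun v _ => hA0 v) m)
    exact pow_le_pow_left₀ (by norm_num) hS m
  -- tuples which are not injective
  have hbad : ∑ w ∈ univ.filter (fun w : Fin m → Fin G => ¬ Function.Injective w), P w * B w ≤
      (1 / 2 : ℝ) ^ m / 2 := by
    set T := ((univ : Finset (Fin m × Fin m)).filter (fun p => p.1 < p.2)) with hT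
    have h3 : ∀ w ∈ univ.filter (fun w : Fin m → Fin G => ¬ Function.Injective w), P w * B w ≤
        ∑ p ∈ T, if w p.1 = w p.2 ∧ α (w p.1) ≤ a0 then P w else 0 := by
      intro w hw
      rw [mem_filter] at hw
      by_cases hB' : B w = 0
      · rw [hB', mul_zero]
        exact Finset.sum_nonneg (fun p _ => by
          split_ifs
          · exact hP0 w
          · exact le_rfl)
      · have hne : (univ.filter (fun v : Fin G => ∀ i, E (w i) v)).Nonempty := by
          rw [Finset.nonempty_iff_ne_empty]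
          intro he
          apply hB'
          rw [hB]
          simp only
          rw [he, Finset.sum_empty]
        obtain ⟨v, hv⟩ := hne
        rw [mem_filter] at hv
        have hw2 := hw.2
        unfold Function.Injective at hw2
        push Not at hw2
        obtain ⟨i, j, hij, hne⟩ := hw2
        have hex : ∃ p ∈ T, w p.1 = w p.2 := by
          rcases lt_or_gt_of_ne hne with h4 | h4
          · exact ⟨(i, j), by rw [hT, mem_filter]; exact ⟨mem_univ _, h4⟩, hij⟩
          · exact ⟨(j, i), by rw [hT, mem_filter]; exact ⟨mem_univ _, h4⟩, hij.symm⟩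
        obtain ⟨p, hp, hpw⟩ := hex
        have h5 : (if w p.1 = w p.2 ∧ α (w p.1) ≤ a0 then P w else 0) ≤
            ∑ p ∈ T, if w p.1 = w p.2 ∧ α (w p.1) ≤ a0 then P w else 0 :=
          Finset.single_le_sum (f := fun p : Fin m × Fin m =>
            if w p.1 = w p.2 ∧ α (w p.1) ≤ a0 then P w else 0) (fun p _ => by
            split_ifs
            · exact hP0 w
            · exact le_rfl) hp
        rw [if_pos ⟨hpw, hE _ _ (hv.2 p.1)⟩] at h5
        refine le_trans ?_ h5
        calc P w * B w ≤ P w * 1 := mul_le_mul_of_nonneg_left (hB1 w) (hP0 w)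
          _ = P w := mul_one _
    have h6 : ∑ w ∈ univ.filter (fun w : Fin m → Fin G => ¬ Function.Injective w),
        ∑ p ∈ T, (if w p.1 = w p.2 ∧ α (w p.1) ≤ a0 then P w else 0) ≤
        ∑ w : Fin m → Fin G, ∑ p ∈ T, (if w p.1 = w p.2 ∧ α (w p.1) ≤ a0 then P w else 0) :=
      Finset.sum_le_sum_of_subset_of_nonneg (Finset.subset_univ _) (fun w _ _ =>
        Finset.sum_nonneg (fun p _ => by
          split_ifs
          · exact hP0 w
          · exact le_rfl))
    have h7 : ∑ w : Fin m → Fin G, ∑ p ∈ T, (if w p.1 = w p.2 ∧ α (w p.1) ≤ a0 then P w else 0) ≤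
        T.card * a0 := by
      rw [Finset.sum_comm]
      calc ∑ p ∈ T, ∑ w : Fin m → Fin G, (if w p.1 = w p.2 ∧ α (w p.1) ≤ a0 then P w else 0)
          ≤ ∑ p ∈ T, a0 := by
            apply Finset.sum_le_sum
            intro p hp
            rw [hT, mem_filter] at hp
            rw [← Finset.sum_filter]
            exact Kst_pair hα hα1 ha0 p.1 p.2 (ne_of_lt hp.2)
        _ = T.card * a0 := by
            rw [Finset.sum_const, nsmul_eq_mul]
    have hcard : (T.card : ℝ) ≤ (m : ℝ) ^ 2 / 2 := by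
      have h8 : T.card * 2 ≤ m ^ 2 := by
        set T' := ((univ : Finset (Fin m × Fin m)).filter (fun p => p.2 < p.1)) with hT'
        have h9 : T.card = T'.card := by
          apply Finset.card_bij (fun p _ => (p.2, p.1))
          · intro p hp
            rw [hT, mem_filter] at hp
            rw [hT', mem_filter]
            exact ⟨mem_univ _, hp.2⟩
          · intro p _ q _ hpq
            rw [Prod.mk.injEq] at hpq
            exact Prod.ext hpq.2 hpq.1
          · intro q hq
            rw [hT', mem_filter] at hq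
            refine ⟨(q.2, q.1), ?_, rfl⟩
            rw [hT, mem_filter]
            exact ⟨mem_univ _, hq.2⟩
        have h10 : Disjoint T T' := by
          rw [Finset.disjoint_left]
          intro p hp hp'
          rw [hT, mem_filter] at hp
          rw [hT', mem_filter] at hp'
          exact lt_asymm hp.2 hp'.2
        have h11 : (T ∪ T').card ≤ (univ : Finset (Fin m × Fin m)).card :=
          Finset.card_le_card (Finset.subset_univ _)
        rw [Finset.card_union_of_disjoint h10, ← h9, Finset.card_univ, Fintype.card_prod,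
          Fintype.card_fin] at h11
        nlinarith
      have h12 : (T.card : ℝ) * 2 ≤ (m : ℝ) ^ 2 := by exact_mod_cast h8
      linarith
    refine (Finset.sum_le_sum h3).trans (h6.trans (h7.trans ?_))
    have h13 : (m : ℝ) ^ 2 * a0 ≤ (1 / 2) ^ m := by
      have h2m : (0 : ℝ) < 2 ^ m := by positivity
      rw [one_div, inv_pow, ← one_div, le_div_iff₀ h2m]
      exact ha0'
    calc (T.card : ℝ) * a0 ≤ ((m : ℝ) ^ 2 / 2) * a0 := mul_le_mul_of_nonneg_right hcard ha0
      _ = (m : ℝ) ^ 2 * a0 / 2 := by ring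
      _ ≤ (1 / 2) ^ m / 2 := by linarith
  have hgood : (1 / 2 : ℝ) ^ m / 2 ≤ ∑ w ∈ univ.filter (fun w : Fin m → Fin G => Function.Injective w),
      P w * B w := by
    have h14 := Finset.sum_filter_add_sum_filter_not (univ : Finset (Fin m → Fin G))
      (fun w => Function.Injective w) (fun w => P w * B w)
    linarith
  by_contra hcon
  push Not at hcon
  have hc0 : (0 : ℝ) < (1 / 2) ^ m / 2 := by positivity
  have h15 : ∀ w ∈ univ.filter (fun w : Fin m → Fin G => Function.Injective w),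
      0 ≤ P w * ((1 / 2) ^ m / 2 - B w) := by
    intro w hw
    rw [mem_filter] at hw
    exact mul_nonneg (hP0 w) (by linarith [hcon w hw.2])
  have h16 : ∑ w ∈ univ.filter (fun w : Fin m → Fin G => Function.Injective w), P w ≤ 1 := by
    rw [← hP1]
    exact Finset.sum_le_sum_of_subset_of_nonneg (Finset.subset_univ _) (fun w _ _ => hP0 w)
  have h17 : ∑ w ∈ univ.filter (fun w : Fin m → Fin G => Function.Injective w),
      P w * ((1 / 2) ^ m / 2 - B w) ≤ 0 := by
    have e : ∑ w ∈ univ.filter (fun w : Fin m → Fin G => Function.Injective w),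
        P w * ((1 / 2) ^ m / 2 - B w) =
        (∑ w ∈ univ.filter (fun w : Fin m → Fin G => Function.Injective w), P w) * ((1 / 2) ^ m / 2) -
        ∑ w ∈ univ.filter (fun w : Fin m → Fin G => Function.Injective w), P w * B w := by
      rw [Finset.sum_mul, ← Finset.sum_sub_distrib]
      refine Finset.sum_congr rfl (fun w _ => by ring)
    rw [e]
    nlinarith
  have h18 := (Finset.sum_eq_zero_iff_of_nonneg h15).1 (le_antisymm h17 (Finset.sum_nonneg h15))
  have h19 : ∑ w ∈ univ.filter (fun w : Fin m → Fin G => Function.Injective w), P w * B w = 0 := by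
    apply Finset.sum_eq_zero
    intro w hw
    have h20 := h18 w hw
    rcases mul_eq_zero.1 h20 with h21 | h21
    · rw [h21, zero_mul]
    · exfalso
      rw [mem_filter] at hw
      linarith [hcon w hw.2]
  linarith

open Classical in
theorem kst {G m : ℕ} (hm : 1 ≤ m) (α β : ℕ → ℝ) (hα : ∀ i, 0 ≤ α i) (hβ : ∀ i, 0 ≤ β i)
    (hα1 : ∑ i ∈ range G, α i = 1) (hβ1 : ∑ i ∈ range G, β i = 1) (E : ℕ → ℕ → Prop)
    {a0 b0 : ℝ} (hE : ∀ i j, E i j → α i ≤ a0) (hb : ∀ j < G, β j ≤ b0)
    (ha0' : (m : ℝ) ^ 2 * a0 * 2 ^ m ≤ 1) (hb0' : 2 * (m : ℝ) * b0 * 2 ^ m ≤ 1)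
    (h : 1 ≤ 2 * ∑ z ∈ (range G ×ˢ range G).filter (fun z => E z.1 z.2), α z.1 * β z.2) :
    ∃ u v : Fin m → ℕ, StrictMono u ∧ StrictMono v ∧ (∀ i, u i < G) ∧ (∀ i, v i < G) ∧
      ∀ i j, E (u i) (v j) := by
  obtain ⟨w, hw, hwB⟩ := Kst_main α β hα hβ hα1 hβ1 E hE ha0' h
  set N := univ.filter (fun v : Fin G => ∀ i, E (w i) v) with hN
  have h1 : ∑ v ∈ N, β v ≤ N.card * b0 := by
    calc ∑ v ∈ N, β v ≤ ∑ _v ∈ N, b0 := Finset.sum_le_sum (fun v _ => hb v v.2)
      _ = N.card * b0 := by rw [Finset.sum_const, nsmul_eq_mul]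
  have h2m : (0 : ℝ) < 2 ^ m := by positivity
  have hc : (m : ℝ) * b0 ≤ (1 / 2) ^ m / 2 := by
    rw [one_div, inv_pow, ← one_div, div_div, le_div_iff₀ (by positivity)]
    linarith
  have hc0 : (0 : ℝ) < (1 / 2) ^ m / 2 := by positivity
  have hb0 : 0 < b0 := by
    by_contra hneg
    push Not at hneg
    have : (N.card : ℝ) * b0 ≤ 0 := mul_nonpos_of_nonneg_of_nonpos (Nat.cast_nonneg _) hneg
    linarith
  have hcard : m ≤ N.card := by
    have h3 : (m : ℝ) * b0 ≤ N.card * b0 := by linarith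
    have h4 := le_of_mul_le_mul_right h3 hb0
    exact_mod_cast h4
  obtain ⟨V, hVN, hVc⟩ := Finset.exists_subset_card_eq hcard
  set U' : Finset ℕ := univ.image (fun i => (w i : ℕ)) with hU'
  set V' : Finset ℕ := V.image (fun v : Fin G => (v : ℕ)) with hV'
  have hU'c : U'.card = m := by
    rw [hU', Finset.card_image_of_injective _ (fun i j hij => hw (Fin.ext hij)), Finset.card_univ,
      Fintype.card_fin]
  have hV'c : V'.card = m := by
    rw [hV', Finset.card_image_of_injective _ (fun i j hij => Fin.ext hij), hVc]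
  have hu : ∀ i, ∃ k, U'.orderEmbOfFin hU'c i = (w k : ℕ) := by
    intro i
    have h5 := Finset.orderEmbOfFin_mem U' hU'c i
    obtain ⟨k, -, hk⟩ := Finset.mem_image.1 h5
    exact ⟨k, hk.symm⟩
  have hv : ∀ j, ∃ v ∈ N, V'.orderEmbOfFin hV'c j = (v : ℕ) := by
    intro j
    have h5 := Finset.orderEmbOfFin_mem V' hV'c j
    obtain ⟨v, hvV, hv⟩ := Finset.mem_image.1 h5
    exact ⟨v, hVN hvV, hv.symm⟩
  refine ⟨fun i => U'.orderEmbOfFin hU'c i, fun j => V'.orderEmbOfFin hV'c j,
    (U'.orderEmbOfFin hU'c).strictMono, (V'.orderEmbOfFin hV'c).strictMono, ?_, ?_, ?_⟩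
  · intro i
    obtain ⟨k, hk⟩ := hu i
    simp only
    rw [hk]
    exact (w k).2
  · intro j
    obtain ⟨v, -, hk⟩ := hv j
    simp only
    rw [hk]
    exact v.2
  · intro i j
    obtain ⟨k, hk⟩ := hu i
    obtain ⟨v, hvN, hk'⟩ := hv j
    simp only
    rw [hk, hk']
    rw [hN, mem_filter] at hvN
    exact hvN.2 k

end FTT
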