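import Mathlib

/-!
# FTT.Lev: many good levels

PROOF of `lev`. Let `𝒯` be the set in the statement. The levels outside `𝒯`: (a) `i < g`: the sum of their `c i` is at most
`g L ≤ n L / 100`; (b) `10 c i < L`: sum at most `n L / 10`; (c) `g ≤ τ < n` with `10 (c (τ-g) + ... + c (τ-1)) < g L`:
for `1 ≤ l ≤ n/g` consider the `τ` of type (c) in `[l g, (l+1) g)`; let `τ*` be the last one; all others lie in
`[τ* - g, τ*)`, so their `c`-sum is less than `g L / 10`, and `c τ* ≤ L`. In total at most
`(n/g) (g L / 10 + L) ≤ n L (1/10 + 1/100)`. So the sum of `c` over `𝒯` is at least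
`n L (48/100 - 1/100 - 10/100 - 11/100) = 26/100 n L`, and it is at most `L |𝒯|`.
-/

namespace FTT

open Finset

private theorem lev_block {n g L : ℕ} (c : ℕ → ℕ) (hc : ∀ i, c i ≤ L) (hg : 0 < g) (l : ℕ) :
    10 * ∑ i ∈ (range n).filter (fun i => i / g = l ∧ (g ≤ i ∧ 10 * ∑ j ∈ Ico (i - g) i, c j < g * L)),
      c i ≤ (g + 10) * L := by
  classical
  set S := (range n).filter
    (fun i => i / g = l ∧ (g ≤ i ∧ 10 * ∑ j ∈ Ico (i - g) i, c j < g * L)) with hS
  rcases S.eq_empty_or_nonempty with h | h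
  · rw [h]
    simp
  · obtain ⟨t, ht, hmax⟩ : ∃ t ∈ S, ∀ i ∈ S, i ≤ t :=
      ⟨S.max' h, S.max'_mem h, fun i hi => S.le_max' i hi⟩
    have ht' := ht
    rw [hS, mem_filter] at ht'
    obtain ⟨-, htl, htg, htw⟩ := ht'
    have hsub : S.erase t ⊆ Ico (t - g) t := by
      intro i hi
      rw [mem_erase] at hi
      obtain ⟨hne, hi⟩ := hi
      have h1 := hmax i hi
      rw [hS, mem_filter] at hi
      obtain ⟨-, hil, -, -⟩ := hi
      rw [mem_Ico]
      have h2 : t < (l + 1) * g := by
        rw [← htl]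
        exact Nat.lt_mul_of_div_lt (Nat.lt_succ_self _) hg
      have h3 : l * g ≤ i := by
        rw [← hil]
        exact Nat.div_mul_le_self i g
      have h4 : (l + 1) * g = l * g + g := by ring
      omega
    have h5 : ∑ i ∈ S, c i = c t + ∑ i ∈ S.erase t, c i := (add_sum_erase S c ht).symm
    have h6 : ∑ i ∈ S.erase t, c i ≤ ∑ j ∈ Ico (t - g) t, c j :=
      sum_le_sum_of_subset hsub
    have h7 := hc t
    have h8 : (g + 10) * L = g * L + 10 * L := by ring
    omega

theorem lev {n g L : ℕ} (c : ℕ → ℕ) (hc : ∀ i, c i ≤ L) (hg : 100 ≤ g) (hn : 100 * g ≤ n)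
    (hL : 1 ≤ L) (hs : 48 * (n * L) ≤ 100 * ∑ i ∈ range n, c i) :
    n ≤ 4 * ((Ico g n).filter fun τ =>
      L ≤ 10 * c τ ∧ g * L ≤ 10 * ∑ i ∈ Ico (τ - g) τ, c i).card := by
  classical
  set T := (Ico g n).filter fun τ =>
      L ≤ 10 * c τ ∧ g * L ≤ 10 * ∑ i ∈ Ico (τ - g) τ, c i with hT
  set A := (range n).filter fun i => i < g with hA
  set B := (range n).filter fun i => 10 * c i < L with hB
  set C := (range n).filter fun i => g ≤ i ∧ 10 * ∑ j ∈ Ico (i - g) i, c j < g * L with hC
  have hcover : range n ⊆ T ∪ (A ∪ (B ∪ C)) := by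
    intro i hi
    have hin := mem_range.1 hi
    simp only [mem_union, hT, hA, hB, hC, mem_filter, mem_Ico, mem_range]
    by_cases h1 : i < g
    · exact Or.inr (Or.inl ⟨hin, h1⟩)
    · by_cases h2 : 10 * c i < L
      · exact Or.inr (Or.inr (Or.inl ⟨hin, h2⟩))
      · by_cases h3 : 10 * ∑ j ∈ Ico (i - g) i, c j < g * L
        · exact Or.inr (Or.inr (Or.inr ⟨hin, by omega, h3⟩))
        · exact Or.inl ⟨⟨by omega, hin⟩, by omega, by omega⟩
  have hsum : ∑ i ∈ range n, c i ≤ ∑ i ∈ T, c i + (∑ i ∈ A, c i + (∑ i ∈ B, c i + ∑ i ∈ C, c i)) := by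
    refine (sum_le_sum_of_subset hcover).trans ?_
    have h1 : ∀ X Y : Finset ℕ, ∑ i ∈ X ∪ Y, c i ≤ ∑ i ∈ X, c i + ∑ i ∈ Y, c i := by
      intro X Y
      rw [← sum_union_inter]
      exact Nat.le_add_right _ _
    refine (h1 _ _).trans (Nat.add_le_add_left ((h1 _ _).trans (Nat.add_le_add_left (h1 _ _) _)) _)
  -- the set `T`
  have hTs : ∑ i ∈ T, c i ≤ T.card * L := by
    have := sum_le_card_nsmul T c L (fun i _ => hc i)
    simpa using this
  -- the set `A`
  have hAs : ∑ i ∈ A, c i ≤ g * L := by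
    have h1 := sum_le_card_nsmul A c L (fun i _ => hc i)
    have h2 : A.card ≤ g := by
      have h3 : A ⊆ range g := by
        intro i hi
        rw [hA, mem_filter] at hi
        exact mem_range.2 hi.2
      have h4 := card_le_card h3
      rwa [card_range] at h4
    calc ∑ i ∈ A, c i ≤ A.card * L := by simpa using h1
      _ ≤ g * L := Nat.mul_le_mul_right _ h2
  -- the set `B`
  have hBs : 10 * ∑ i ∈ B, c i ≤ n * L := by
    rw [mul_sum]
    have h1 := sum_le_card_nsmul B (fun i => 10 * c i) L (fun i hi => by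
      rw [hB, mem_filter] at hi
      exact hi.2.le)
    have h2 : B.card ≤ n := by
      have h4 := card_le_card (filter_subset (fun i => 10 * c i < L) (range n))
      rwa [card_range] at h4
    calc ∑ i ∈ B, 10 * c i ≤ B.card * L := by simpa using h1
      _ ≤ n * L := Nat.mul_le_mul_right _ h2
  -- the set `C`
  have hCs : 10 * ∑ i ∈ C, c i ≤ (n / g) * ((g + 10) * L) := by
    have hmap : ∀ i ∈ C, i / g ∈ Icc 1 (n / g) := by
      intro i hi
      rw [hC, mem_filter] at hi
      have hin := mem_range.1 hi.1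
      rw [mem_Icc]
      exact ⟨(Nat.one_le_div_iff (by omega)).2 hi.2.1, Nat.div_le_div_right hin.le⟩
    rw [← sum_fiberwise_of_maps_to hmap, mul_sum]
    have h1 := sum_le_card_nsmul (Icc 1 (n / g))
      (fun l => 10 * ∑ i ∈ C.filter (fun i => i / g = l), c i) ((g + 10) * L) (fun l _ => by
        have h2 := lev_block (n := n) (g := g) (L := L) c hc (by omega) l
        have h3 : C.filter (fun i => i / g = l) = (range n).filter
            (fun i => i / g = l ∧ (g ≤ i ∧ 10 * ∑ j ∈ Ico (i - g) i, c j < g * L)) := by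
          ext i
          simp only [hC, mem_filter]
          tauto
        rw [h3]
        exact h2)
    simpa using h1
  have h1 : (n / g) * g ≤ n := Nat.div_mul_le_self n g
  have h2 : 100 * (n / g) ≤ n := by
    calc 100 * (n / g) = (n / g) * 100 := by ring
      _ ≤ (n / g) * g := Nat.mul_le_mul_left _ hg
      _ ≤ n := h1
  have h3 : 10 * ((n / g) * ((g + 10) * L)) ≤ 11 * (n * L) := by
    have h4 : 10 * ((n / g) * ((g + 10) * L)) = 10 * (((n / g) * g) * L) + (100 * (n / g)) * L := by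
      ring
    rw [h4]
    have h5 : ((n / g) * g) * L ≤ n * L := Nat.mul_le_mul_right _ h1
    have h6 : (100 * (n / g)) * L ≤ n * L := Nat.mul_le_mul_right _ h2
    omega
  have h7 : 100 * (g * L) ≤ n * L := by
    calc 100 * (g * L) = (100 * g) * L := by ring
      _ ≤ n * L := Nat.mul_le_mul_right _ hn
  have h8 : 26 * (n * L) ≤ 100 * (T.card * L) := by omega
  have h9 : (26 * n) * L ≤ (100 * T.card) * L := by
    calc (26 * n) * L = 26 * (n * L) := by ring
      _ ≤ 100 * (T.card * L) := h8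
      _ = (100 * T.card) * L := by ring
  have h10 : 26 * n ≤ 100 * T.card := Nat.le_of_mul_le_mul_right h9 (by omega)
  omega

end FTT
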