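import Pool.Agent.FHT.Ros

/-!
# FTT.Place: placing the groups at random quantiles

PROOF. If `k = 0` or `m = 0` trivial (`k ≤ m q`). (1) Quantiles: for `ρ ≥ 0` on `range D` with sum `1` and `K ≥ 1` there is a
monotone `Q : ℕ → ℕ` with `Q u < D` for `u < K` and `#{u < K : Q u = a} ≤ K ρ a + 1`: `Q u` = the least `a` with
`u < K (ρ 0 + ... + ρ a)` (it exists, `a ≤ D - 1`); `Q u = a` means `K (ρ 0 + .. + ρ (a-1)) ≤ u < K (ρ 0 + .. + ρ a)`.
(2) Let `M = q M'` with `M'` large (`M' ≥ 2`, `16 q^2 ... ` see below), `K = 2 M`, `Q_g` for `α g`, `Q'_h` for `β h`. For a row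
`i : Fin k` of the group `g = i / q` and position `s = i % q < q`, and a shift `t < M`, put the row at `Q_g (t + s M')`
(`t + s M' < 2 M`). Within a group the positions are strictly increasing since `2 M α + 1 ≤ M/(2 q) + 1 ≤ M'` is at least the
size of each fibre of `Q_g` (`α ≤ 1/(4q)`, `M' ≥ 2`). Columns in the same way with shifts `t'_h`.
(3) The event of the point `i` (with `g = i/q`, `h = σ i / q`) is the set of the `(t,t') ∈ [M]^2` with
`(Q_g (t + s M'), Q'_h (t' + s' M')) ∈ Z g h`; its size is at most the number of the pairs `(w,w') ∈ [K]^2` with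
`(Q_g w, Q'_h w') ∈ Z g h`, so `≤ ∑_{(a,b) ∈ Z} (K α a + 1)(K β b + 1) ≤ K^2 κ + 2 K D + D^2` with `κ ≤ 1/(32 q)`, so
`≤ M^2/(8 q) + 4 M D + D^2 ≤ M^2/(4 q)` for `M` large. (Sums: `∑_{Z} α a ≤ D ∑_a α a = D`.)
(4) `E g h` = union of the events of the points with `i / q = g`, `σ i / q = h`. Each group of rows has at most `q` points, so
`4 ∑_h |E g h| ≤ 4 q M^2/(4 q) = M^2`, the same for groups of columns. `FHT.ros` with `Ω = Fin M` gives the shifts.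
-/

namespace FTT

open Finset

open Classical in
private theorem Place_quant {D N : ℕ} (ρ : ℕ → ℝ) (h : ∀ i, 0 ≤ ρ i)
    (hs : ∑ i ∈ range D, ρ i = 1) : ∃ F : ℕ → ℕ, (∀ j < N, F j < D) ∧
      (∀ j < N, (N : ℝ) * ∑ i ∈ range (F j), ρ i ≤ j) ∧
      (∀ j < N, (j : ℝ) < (N : ℝ) * ∑ i ∈ range (F j + 1), ρ i) ∧
      ∀ j j', j ≤ j' → j' < N → F j ≤ F j' := by
  have hD : 1 ≤ D := by
    rcases Nat.eq_zero_or_pos D with h0 | h0
    · subst h0; simp at hs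
    · exact h0
  have hex : ∀ j < N, ∃ i, (j : ℝ) < (N : ℝ) * ∑ i' ∈ range (i + 1), ρ i' := by
    intro j hj
    refine ⟨D - 1, ?_⟩
    rw [Nat.sub_add_cancel hD, hs, mul_one]
    exact_mod_cast hj
  refine ⟨fun j => if h : ∃ i, (j : ℝ) < (N : ℝ) * ∑ i' ∈ range (i + 1), ρ i' then
    Nat.find h else 0, ?_, ?_, ?_, ?_⟩
  · intro j hj
    simp only [dif_pos (hex j hj)]
    have : Nat.find (hex j hj) ≤ D - 1 := by
      apply Nat.find_min'
      rw [Nat.sub_add_cancel hD, hs, mul_one]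
      exact_mod_cast hj
    omega
  · intro j hj
    simp only [dif_pos (hex j hj)]
    rcases Nat.eq_zero_or_pos (Nat.find (hex j hj)) with h0 | h0
    · rw [h0]; simp
    · have h1 := Nat.find_min (hex j hj) (m := Nat.find (hex j hj) - 1) (by omega)
      rw [Nat.sub_add_cancel h0] at h1
      exact not_lt.1 h1
  · intro j hj
    simp only [dif_pos (hex j hj)]
    exact Nat.find_spec (hex j hj)
  · intro j j' hjj hj'
    have hj : j < N := lt_of_le_of_lt hjj hj'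
    simp only [dif_pos (hex j hj), dif_pos (hex j' hj')]
    apply Nat.find_min'
    refine lt_of_le_of_lt ?_ (Nat.find_spec (hex j' hj'))
    exact_mod_cast hjj

private theorem Place_fib {N : ℕ} (ρ : ℕ → ℝ) (h : ∀ i, 0 ≤ ρ i) (F : ℕ → ℕ)
    (h1 : ∀ j < N, (N : ℝ) * ∑ i ∈ range (F j), ρ i ≤ j)
    (h2 : ∀ j < N, (j : ℝ) < (N : ℝ) * ∑ i ∈ range (F j + 1), ρ i) (i : ℕ) :
    (((range N).filter fun j => F j = i).card : ℝ) ≤ N * ρ i + 1 := by
  set x : ℝ := (N : ℝ) * ∑ i' ∈ range i, ρ i' with hx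
  have hx0 : 0 ≤ x := mul_nonneg (Nat.cast_nonneg _) (sum_nonneg fun i _ => h i)
  have hN0 : 0 ≤ (N : ℝ) * ρ i := mul_nonneg (Nat.cast_nonneg _) (h i)
  have hxy : (N : ℝ) * ∑ i' ∈ range (i + 1), ρ i' = x + N * ρ i := by
    rw [sum_range_succ, mul_add]
  have hsub : ((range N).filter fun j => F j = i) ⊆ Finset.Ico ⌈x⌉₊ ⌈x + N * ρ i⌉₊ := by
    intro j hj
    rw [mem_filter, mem_range] at hj
    have h3 := h1 j hj.1
    have h4 := h2 j hj.1
    rw [hj.2] at h3 h4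
    rw [hxy] at h4
    rw [Finset.mem_Ico]
    exact ⟨Nat.ceil_le.2 h3, Nat.lt_ceil.2 h4⟩
  have h5 := card_le_card hsub
  rw [Nat.card_Ico] at h5
  have h6 : (⌈x + N * ρ i⌉₊ : ℝ) < x + N * ρ i + 1 := Nat.ceil_lt_add_one (by linarith)
  have h7 : x ≤ (⌈x⌉₊ : ℝ) := Nat.le_ceil x
  have h8 : ⌈x⌉₊ ≤ ⌈x + N * ρ i⌉₊ := Nat.ceil_le_ceil (by linarith)
  have h9 : (((range N).filter fun j => F j = i).card : ℝ) ≤
      ((⌈x + N * ρ i⌉₊ - ⌈x⌉₊ : ℕ) : ℝ) := by exact_mod_cast h5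
  rw [Nat.cast_sub h8] at h9
  linarith

private theorem Place_card {N D : ℕ} (ρ₁ ρ₂ : ℕ → ℝ) (h1 : ∀ i, 0 ≤ ρ₁ i) (h2 : ∀ i, 0 ≤ ρ₂ i)
    (hs1 : ∑ i ∈ range D, ρ₁ i = 1) (hs2 : ∑ i ∈ range D, ρ₂ i = 1)
    (F G : ℕ → ℕ)
    (hF : ∀ i, (((range N).filter fun j => F j = i).card : ℝ) ≤ N * ρ₁ i + 1)
    (hG : ∀ i, (((range N).filter fun j => G j = i).card : ℝ) ≤ N * ρ₂ i + 1)
    (bad : Finset (ℕ × ℕ)) (hbad : bad ⊆ range D ×ˢ range D) :
    ((((range N) ×ˢ (range N)).filter fun z => (F z.1, G z.2) ∈ bad).card : ℝ) ≤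
      (N : ℝ) ^ 2 * ∑ z ∈ bad, ρ₁ z.1 * ρ₂ z.2 + 2 * N * D + (D : ℝ) ^ 2 := by
  classical
  have e1 : ((range N) ×ˢ (range N)).filter (fun z => (F z.1, G z.2) ∈ bad) =
      bad.biUnion fun y => ((range N).filter fun j => F j = y.1) ×ˢ
        ((range N).filter fun j => G j = y.2) := by
    ext ⟨u, v⟩
    simp only [mem_filter, mem_product, mem_range, mem_biUnion]
    constructor
    · rintro ⟨⟨hu, hv⟩, hb⟩
      exact ⟨_, hb, ⟨hu, rfl⟩, ⟨hv, rfl⟩⟩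
    · rintro ⟨⟨y1, y2⟩, hy, ⟨hu, hu'⟩, ⟨hv, hv'⟩⟩
      refine ⟨⟨hu, hv⟩, ?_⟩
      simp only at hu' hv'
      rw [hu', hv']
      exact hy
  have e2 : ((((range N) ×ˢ (range N)).filter fun z => (F z.1, G z.2) ∈ bad).card : ℝ) ≤
      ∑ y ∈ bad, ((N : ℝ) * ρ₁ y.1 + 1) * (N * ρ₂ y.2 + 1) := by
    rw [e1]
    have h3 : ((bad.biUnion fun y => ((range N).filter fun j => F j = y.1) ×ˢ
        ((range N).filter fun j => G j = y.2)).card : ℝ) ≤
        ∑ y ∈ bad, (((((range N).filter fun j => F j = y.1) ×ˢ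
        ((range N).filter fun j => G j = y.2)).card : ℕ) : ℝ) := by
      exact_mod_cast card_biUnion_le
    refine h3.trans (sum_le_sum fun y _ => ?_)
    rw [card_product]
    push_cast
    have h4 : (0 : ℝ) ≤ N * ρ₁ y.1 + 1 := by
      have := mul_nonneg (Nat.cast_nonneg (α := ℝ) N) (h1 y.1)
      linarith
    exact mul_le_mul (hF _) (hG _) (Nat.cast_nonneg _) h4
  refine e2.trans ?_
  have h5 : ∑ y ∈ bad, ρ₁ y.1 ≤ (D : ℝ) := by
    calc ∑ y ∈ bad, ρ₁ y.1 ≤ ∑ y ∈ range D ×ˢ range D, ρ₁ y.1 :=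
          sum_le_sum_of_subset_of_nonneg hbad fun _ _ _ => h1 _
      _ = (D : ℝ) := by
          rw [sum_product_right]
          simp [hs1]
  have h6 : ∑ y ∈ bad, ρ₂ y.2 ≤ (D : ℝ) := by
    calc ∑ y ∈ bad, ρ₂ y.2 ≤ ∑ y ∈ range D ×ˢ range D, ρ₂ y.2 :=
          sum_le_sum_of_subset_of_nonneg hbad fun _ _ _ => h2 _
      _ = (D : ℝ) := by
          rw [sum_product]
          simp [hs2]
  have h7 : (bad.card : ℝ) ≤ (D : ℝ) ^ 2 := by
    have := card_le_card hbad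
    rw [card_product, card_range] at this
    have h8 : (bad.card : ℝ) ≤ ((D * D : ℕ) : ℝ) := by exact_mod_cast this
    push_cast at h8
    nlinarith
  have h9 : ∑ y ∈ bad, ((N : ℝ) * ρ₁ y.1 + 1) * (N * ρ₂ y.2 + 1) =
      (N : ℝ) ^ 2 * ∑ z ∈ bad, ρ₁ z.1 * ρ₂ z.2 + N * ∑ y ∈ bad, ρ₁ y.1 +
        N * ∑ y ∈ bad, ρ₂ y.2 + bad.card := by
    have h10 : ∀ y : ℕ × ℕ, ((N : ℝ) * ρ₁ y.1 + 1) * (N * ρ₂ y.2 + 1) =
        (N : ℝ) ^ 2 * (ρ₁ y.1 * ρ₂ y.2) + N * ρ₁ y.1 + N * ρ₂ y.2 + 1 := by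
      intro y
      ring
    simp_rw [h10, sum_add_distrib, mul_sum]
    simp
  rw [h9]
  have hN : (0 : ℝ) ≤ N := Nat.cast_nonneg _
  nlinarith [mul_le_mul_of_nonneg_left h5 hN, mul_le_mul_of_nonneg_left h6 hN]

private theorem Place_inj {N M K : ℕ} (hN : N = K * M) (hM : 1 ≤ M) (ρ : ℕ → ℝ)
    (ha : ∀ i, 2 * (K : ℝ) * ρ i ≤ 1) (F : ℕ → ℕ)
    (h1 : ∀ j < N, (N : ℝ) * ∑ i ∈ range (F j), ρ i ≤ j)
    (h2 : ∀ j < N, (j : ℝ) < (N : ℝ) * ∑ i ∈ range (F j + 1), ρ i)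
    (hmono : ∀ j j', j ≤ j' → j' < N → F j ≤ F j') {u v : ℕ} (huv : u + M ≤ v) (hv : v < N) :
    F u < F v := by
  refine lt_of_le_of_ne (hmono u v (by omega) hv) fun heq => ?_
  have h3 := h1 u (by omega)
  have h4 := h2 v hv
  rw [← heq, sum_range_succ, mul_add] at h4
  have h5 : (u : ℝ) + M ≤ v := by exact_mod_cast huv
  have h6 : (M : ℝ) < N * ρ (F u) := by linarith
  have h7 := ha (F u)
  have hM0 : (1 : ℝ) ≤ M := by exact_mod_cast hM
  rw [hN] at h6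
  push_cast at h6
  nlinarith

private theorem Place_fibq {k q m : ℕ} (hq : 1 ≤ q) (grp : Fin k → Fin m)
    (hgrp : ∀ i, ((grp i : Fin m) : ℕ) = (i : ℕ) / q) (g : Fin m) :
    (univ.filter (fun i : Fin k => grp i = g)).card ≤ q := by
  have h : (univ.filter (fun i : Fin k => grp i = g)).card ≤ (range q).card := by
    refine card_le_card_of_injOn (fun i : Fin k => (i : ℕ) % q) ?_ ?_
    · intro i _
      simp only [coe_range, Set.mem_Iio]
      exact Nat.mod_lt _ hq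
    · intro i hi j hj hij
      have hi' : grp i = g := by simpa using hi
      have hj' : grp j = g := by simpa using hj
      have hij' : (i : ℕ) % q = (j : ℕ) % q := hij
      have e : (i : ℕ) / q = (j : ℕ) / q := by rw [← hgrp, ← hgrp, hi', hj']
      have e1 := Nat.div_add_mod (i : ℕ) q
      have e2 := Nat.div_add_mod (j : ℕ) q
      rw [e, hij'] at e1
      exact Fin.ext (by omega)
  simpa using h

private theorem Place_sh {q M' : ℕ} (hq : 1 ≤ q) (t i : ℕ) (ht : t < q * M') :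
    t + (i % q) * M' < 2 * q * M' := by
  have h1 : i % q < q := Nat.mod_lt _ hq
  have h2 : (i % q + 1) * M' ≤ q * M' := Nat.mul_le_mul_right _ h1
  have h3 : (i % q + 1) * M' = (i % q) * M' + M' := by ring
  have h4 : 2 * q * M' = q * M' + q * M' := by ring
  omega

private theorem Place_ev {q D M' : ℕ} (hq : 1 ≤ q) (hD : 1 ≤ D) (hM' : M' = 8 * (4 * D + D ^ 2))
    (e : ℕ) (κ : ℝ) (hκ : 32 * (q : ℝ) * κ ≤ 1)
    (he : (e : ℝ) ≤ ((2 * q * M' : ℕ) : ℝ) ^ 2 * κ + 2 * ((2 * q * M' : ℕ) : ℝ) * D + (D : ℝ) ^ 2) :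
    4 * q * e ≤ (q * M') ^ 2 := by
  have hD1 : (1 : ℝ) ≤ D := by exact_mod_cast hD
  have hq1 : (1 : ℝ) ≤ q := by exact_mod_cast hq
  obtain ⟨M, hM⟩ : ∃ M : ℝ, M = (q : ℝ) * (M' : ℝ) := ⟨_, rfl⟩
  have hMr : (M' : ℝ) = 8 * (4 * (D : ℝ) + (D : ℝ) ^ 2) := by rw [hM']; push_cast; ring
  have hM'1 : (1 : ℝ) ≤ (M' : ℝ) := by rw [hMr]; nlinarith
  have hM1 : (1 : ℝ) ≤ M := by rw [hM]; nlinarith
  have he2 : (e : ℝ) ≤ 4 * M ^ 2 * κ + 4 * M * D + (D : ℝ) ^ 2 := by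
    refine he.trans (le_of_eq ?_)
    rw [hM]
    push_cast
    ring
  have h4 : 4 * (q : ℝ) * (4 * M ^ 2 * κ) ≤ M ^ 2 / 2 := by
    have := mul_le_mul_of_nonneg_left hκ (show (0 : ℝ) ≤ M ^ 2 / 2 by positivity)
    calc 4 * (q : ℝ) * (4 * M ^ 2 * κ) = M ^ 2 / 2 * (32 * (q : ℝ) * κ) := by ring
      _ ≤ M ^ 2 / 2 := by linarith
  have h5 : 4 * (q : ℝ) * (4 * M * D + (D : ℝ) ^ 2) ≤ M ^ 2 / 2 := by
    have h6 : 4 * M * D + (D : ℝ) ^ 2 ≤ M * (4 * D + (D : ℝ) ^ 2) := by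
      have : (D : ℝ) ^ 2 ≤ M * (D : ℝ) ^ 2 := le_mul_of_one_le_left (by positivity) hM1
      linarith
    calc 4 * (q : ℝ) * (4 * M * D + (D : ℝ) ^ 2) ≤ 4 * (q : ℝ) * (M * (4 * D + (D : ℝ) ^ 2)) :=
          mul_le_mul_of_nonneg_left h6 (by positivity)
      _ = M / 2 * ((q : ℝ) * (8 * (4 * (D : ℝ) + (D : ℝ) ^ 2))) := by ring
      _ = M ^ 2 / 2 := by rw [← hMr, ← hM]; ring
  have h7 : 4 * (q : ℝ) * e ≤ M ^ 2 := by
    calc 4 * (q : ℝ) * e ≤ 4 * (q : ℝ) * (4 * M ^ 2 * κ + 4 * M * D + (D : ℝ) ^ 2) :=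
          mul_le_mul_of_nonneg_left he2 (by positivity)
      _ = 4 * (q : ℝ) * (4 * M ^ 2 * κ) + 4 * (q : ℝ) * (4 * M * D + (D : ℝ) ^ 2) := by ring
      _ ≤ M ^ 2 := by linarith
  rw [hM] at h7
  exact_mod_cast h7

private theorem Place_row {m q M : ℕ} (hq : 1 ≤ q) (x c : Fin m → ℕ)
    (hx : ∀ h, 4 * q * x h ≤ c h * M ^ 2) (hc : ∑ h, c h ≤ q) : 4 * ∑ h, x h ≤ M ^ 2 := by
  have h1 : ∑ h, 4 * q * x h ≤ ∑ h, c h * M ^ 2 := sum_le_sum fun h _ => hx h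
  rw [← mul_sum, ← sum_mul] at h1
  have h2 : (∑ h, c h) * M ^ 2 ≤ q * M ^ 2 := Nat.mul_le_mul_right _ hc
  have h3 : q * (4 * ∑ h, x h) ≤ q * M ^ 2 := by
    calc q * (4 * ∑ h, x h) = 4 * q * ∑ h, x h := by ring
      _ ≤ _ := h1.trans h2
  exact Nat.le_of_mul_le_mul_left h3 hq

theorem place {k q m D : ℕ} (σ : Equiv.Perm (Fin k)) (hq : 1 ≤ q) (hm : k ≤ m * q)
    (α β : ℕ → ℕ → ℝ) (hα0 : ∀ g a, 0 ≤ α g a) (hβ0 : ∀ g a, 0 ≤ β g a)
    (hα1 : ∀ g < m, ∑ a ∈ range D, α g a = 1) (hβ1 : ∀ g < m, ∑ a ∈ range D, β g a = 1)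
    (hαs : ∀ g < m, ∀ a, 4 * (q : ℝ) * α g a ≤ 1) (hβs : ∀ g < m, ∀ a, 4 * (q : ℝ) * β g a ≤ 1)
    (Z : ℕ → ℕ → Finset (ℕ × ℕ)) (hZ : ∀ g < m, ∀ h < m, Z g h ⊆ range D ×ˢ range D)
    (hb : ∀ g < m, ∀ h < m, 32 * (q : ℝ) * ∑ z ∈ Z g h, α g z.1 * β h z.2 ≤ 1) :
    ∃ a b : Fin k → ℕ, (∀ i j : Fin k, i < j → (i : ℕ) / q = (j : ℕ) / q → a i < a j) ∧
      (∀ i j : Fin k, i < j → (i : ℕ) / q = (j : ℕ) / q → b i < b j) ∧
      (∀ i, a i < D) ∧ (∀ i, b i < D) ∧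
      ∀ i : Fin k, (a i, b (σ i)) ∉ Z (i.val / q) ((σ i).val / q) := by
  classical
  rcases Nat.eq_zero_or_pos k with hk | hk
  · subst hk
    exact ⟨fun i => 0, fun i => 0, fun i => i.elim0, fun i => i.elim0, fun i => i.elim0,
      fun i => i.elim0, fun i => i.elim0⟩
  have hm1 : 1 ≤ m := by
    rcases Nat.eq_zero_or_pos m with h0 | h0
    · subst h0; simp at hm; omega
    · exact h0
  have hD : 1 ≤ D := by
    rcases Nat.eq_zero_or_pos D with h0 | h0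
    · subst h0
      have := hα1 0 hm1
      simp at this
    · exact h0
  obtain ⟨M', hM'⟩ : ∃ M', M' = 8 * (4 * D + D ^ 2) := ⟨_, rfl⟩
  have hM1 : 1 ≤ M' := by
    rw [hM']
    have : 0 < 8 * (4 * D + D ^ 2) := by positivity
    exact this
  obtain ⟨N, hN⟩ : ∃ N, N = 2 * q * M' := ⟨_, rfl⟩
  have hF : ∀ g : Fin m, ∃ F : ℕ → ℕ, (∀ j < N, F j < D) ∧
      (∀ j < N, (N : ℝ) * ∑ i ∈ range (F j), α g i ≤ j) ∧
      (∀ j < N, (j : ℝ) < (N : ℝ) * ∑ i ∈ range (F j + 1), α g i) ∧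
      ∀ j j', j ≤ j' → j' < N → F j ≤ F j' :=
    fun g => Place_quant (α g) (hα0 g) (hα1 g g.isLt)
  have hG : ∀ g : Fin m, ∃ F : ℕ → ℕ, (∀ j < N, F j < D) ∧
      (∀ j < N, (N : ℝ) * ∑ i ∈ range (F j), β g i ≤ j) ∧
      (∀ j < N, (j : ℝ) < (N : ℝ) * ∑ i ∈ range (F j + 1), β g i) ∧
      ∀ j j', j ≤ j' → j' < N → F j ≤ F j' :=
    fun g => Place_quant (β g) (hβ0 g) (hβ1 g g.isLt)
  choose F hF1 hF2 hF3 hF4 using hF
  choose G hG1 hG2 hG3 hG4 using hG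
  have hdiv : ∀ i : Fin k, (i : ℕ) / q < m := by
    intro i
    rw [Nat.div_lt_iff_lt_mul hq]
    exact lt_of_lt_of_le i.isLt hm
  obtain ⟨grp, hgrp⟩ : ∃ grp : Fin k → Fin m, ∀ i, ((grp i : Fin m) : ℕ) = (i : ℕ) / q :=
    ⟨fun i => ⟨(i : ℕ) / q, hdiv i⟩, fun i => rfl⟩
  have hbad : ∀ g h : Fin m, 4 * q * (((range N) ×ˢ (range N)).filter
      fun z => (F g z.1, G h z.2) ∈ Z g h).card ≤ (q * M') ^ 2 := by
    intro g h
    have h1 := Place_card (N := N) (α g) (β h) (hα0 g) (hβ0 h) (hα1 g g.isLt) (hβ1 h h.isLt)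
      (F g) (G h) (Place_fib (α g) (hα0 g) (F g) (hF2 g) (hF3 g))
      (Place_fib (β h) (hβ0 h) (G h) (hG2 h) (hG3 h)) (Z g h) (hZ g g.isLt h h.isLt)
    refine Place_ev hq hD hM' _ _ (hb g g.isLt h h.isLt) ?_
    rw [← hN]
    exact h1
  set E : Fin m → Fin m → Finset (Fin (q * M') × Fin (q * M')) := fun g h =>
    (univ.filter (fun i : Fin k => grp i = g ∧ grp (σ i) = h)).biUnion
      (fun i => univ.filter (fun p : Fin (q * M') × Fin (q * M') =>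
        (F g ((p.1 : ℕ) + ((i : ℕ) % q) * M'), G h ((p.2 : ℕ) + ((σ i : ℕ) % q) * M')) ∈
          Z g h)) with hE
  have hEc : ∀ g h, (E g h).card ≤ (univ.filter (fun i : Fin k => grp i = g ∧ grp (σ i) = h)).card *
      (((range N) ×ˢ (range N)).filter fun z => (F g z.1, G h z.2) ∈ Z g h).card := by
    intro g h
    refine card_biUnion_le_card_mul _ _ _ ?_
    intro i _
    refine card_le_card_of_injOn (fun p : Fin (q * M') × Fin (q * M') =>
      ((p.1 : ℕ) + ((i : ℕ) % q) * M', (p.2 : ℕ) + ((σ i : ℕ) % q) * M')) ?_ ?_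
    · intro p hp
      have hp' := (mem_filter.1 (mem_coe.1 hp)).2
      refine mem_coe.2 (mem_filter.2 ⟨mem_product.2 ⟨mem_range.2 ?_, mem_range.2 ?_⟩, hp'⟩)
      · rw [hN]
        exact Place_sh hq _ _ p.1.isLt
      · rw [hN]
        exact Place_sh hq _ _ p.2.isLt
    · intro p _ p' _ hpp
      simp only [Prod.mk.injEq] at hpp
      have e1 : (p.1 : ℕ) = (p'.1 : ℕ) := by omega
      have e2 : (p.2 : ℕ) = (p'.2 : ℕ) := by omega
      exact Prod.ext (Fin.ext e1) (Fin.ext e2)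
  have hEc2 : ∀ g h, 4 * q * (E g h).card ≤
      (univ.filter (fun i : Fin k => grp i = g ∧ grp (σ i) = h)).card * (q * M') ^ 2 := by
    intro g h
    have h1 := hEc g h
    have h2 := hbad g h
    calc 4 * q * (E g h).card ≤ 4 * q *
          ((univ.filter (fun i : Fin k => grp i = g ∧ grp (σ i) = h)).card *
          (((range N) ×ˢ (range N)).filter fun z => (F g z.1, G h z.2) ∈ Z g h).card) :=
          Nat.mul_le_mul_left _ h1
      _ = (univ.filter (fun i : Fin k => grp i = g ∧ grp (σ i) = h)).card * (4 * q *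
          (((range N) ×ˢ (range N)).filter fun z => (F g z.1, G h z.2) ∈ Z g h).card) := by ring
      _ ≤ _ := Nat.mul_le_mul_left _ h2
  have hqM : 0 < q * M' := Nat.mul_pos hq hM1
  haveI : Nonempty (Fin (q * M')) := ⟨⟨0, hqM⟩⟩
  have hrow : ∀ g, 4 * ∑ h, (E g h).card ≤ Fintype.card (Fin (q * M')) ^ 2 := by
    intro g
    rw [Fintype.card_fin]
    refine Place_row hq _ _ (fun h => hEc2 g h) ?_
    have h1 := sum_card_fiberwise_eq_card_filter (univ.filter (fun i : Fin k => grp i = g))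
      (univ : Finset (Fin m)) (fun i => grp (σ i))
    simp only [filter_filter, mem_univ, and_true] at h1
    rw [h1]
    exact Place_fibq hq grp hgrp g
  have hcol : ∀ h, 4 * ∑ g, (E g h).card ≤ Fintype.card (Fin (q * M')) ^ 2 := by
    intro h
    rw [Fintype.card_fin]
    refine Place_row hq _ _ (fun g => hEc2 g h) ?_
    have h1 := sum_card_fiberwise_eq_card_filter (univ.filter (fun i : Fin k => grp (σ i) = h))
      (univ : Finset (Fin m)) (fun i => grp i)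
    simp only [filter_filter, mem_univ, and_true] at h1
    have h2 : ∀ g : Fin m, (univ.filter (fun i : Fin k => grp i = g ∧ grp (σ i) = h)).card =
        (univ.filter (fun i : Fin k => grp (σ i) = h ∧ grp i = g)).card := by
      intro g
      congr 1
      apply filter_congr
      intro z _
      exact And.comm
    simp only [h2]
    rw [h1]
    have h3 : (univ.filter (fun i : Fin k => grp (σ i) = h)).card =
        (univ.filter (fun i : Fin k => grp i = h)).card := by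
      refine card_bij (fun i _ => σ i) ?_ ?_ ?_
      · intro i hi
        rw [mem_filter] at hi ⊢
        exact ⟨mem_univ _, hi.2⟩
      · intro i _ j _ hij
        exact σ.injective hij
      · intro j hj
        rw [mem_filter] at hj
        refine ⟨σ.symm j, ?_, σ.apply_symm_apply j⟩
        rw [mem_filter, σ.apply_symm_apply]
        exact ⟨mem_univ _, hj.2⟩
    rw [h3]
    exact Place_fibq hq grp hgrp h
  obtain ⟨s, t, hst⟩ := FHT.ros E hrow hcol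
  have hN2 : N = (2 * q) * M' := hN
  have hA : ∀ g : Fin m, ∀ a, 2 * ((2 * q : ℕ) : ℝ) * α g a ≤ 1 := by
    intro g a
    refine le_trans (le_of_eq ?_) (hαs g g.isLt a)
    push_cast
    ring
  have hB : ∀ g : Fin m, ∀ a, 2 * ((2 * q : ℕ) : ℝ) * β g a ≤ 1 := by
    intro g a
    refine le_trans (le_of_eq ?_) (hβs g g.isLt a)
    push_cast
    ring
  have hsM : ∀ i j : Fin k, i < j → (i : ℕ) / q = (j : ℕ) / q →
      ((i : ℕ) % q) * M' + M' ≤ ((j : ℕ) % q) * M' := by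
    intro i j hij heq
    have h1 : (i : ℕ) % q < (j : ℕ) % q := by
      have e1 := Nat.div_add_mod (i : ℕ) q
      have e2 := Nat.div_add_mod (j : ℕ) q
      rw [heq] at e1
      have : (i : ℕ) < (j : ℕ) := hij
      omega
    have h2 : ((i : ℕ) % q + 1) * M' ≤ ((j : ℕ) % q) * M' := Nat.mul_le_mul_right _ h1
    have h3 : ((i : ℕ) % q + 1) * M' = ((i : ℕ) % q) * M' + M' := by ring
    omega
  have hsN : ∀ (v : Fin (q * M')) (i : Fin k), (v : ℕ) + ((i : ℕ) % q) * M' < N := by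
    intro v i
    rw [hN]
    exact Place_sh hq _ _ v.isLt
  refine ⟨fun i => F (grp i) ((s (grp i) : ℕ) + ((i : ℕ) % q) * M'),
    fun i => G (grp i) ((t (grp i) : ℕ) + ((i : ℕ) % q) * M'), ?_, ?_,
    fun i => hF1 _ _ (hsN _ _), fun i => hG1 _ _ (hsN _ _), ?_⟩
  · intro i j hij heq
    have hg : grp i = grp j := by
      apply Fin.ext; rw [hgrp, hgrp]; exact heq
    have h1 := hsM i j hij heq
    show F (grp i) ((s (grp i) : ℕ) + ((i : ℕ) % q) * M') <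
      F (grp j) ((s (grp j) : ℕ) + ((j : ℕ) % q) * M')
    rw [hg]
    exact Place_inj (K := 2 * q) hN2 hM1 (α (grp j)) (hA (grp j)) (F (grp j)) (hF2 _) (hF3 _)
      (hF4 _) (by omega) (hsN _ _)
  · intro i j hij heq
    have hg : grp i = grp j := by
      apply Fin.ext; rw [hgrp, hgrp]; exact heq
    have h1 := hsM i j hij heq
    show G (grp i) ((t (grp i) : ℕ) + ((i : ℕ) % q) * M') <
      G (grp j) ((t (grp j) : ℕ) + ((j : ℕ) % q) * M')
    rw [hg]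
    exact Place_inj (K := 2 * q) hN2 hM1 (β (grp j)) (hB (grp j)) (G (grp j)) (hG2 _) (hG3 _)
      (hG4 _) (by omega) (hsN _ _)
  · intro i hi
    refine hst (grp i) (grp (σ i)) ?_
    rw [hE]
    simp only [mem_biUnion, mem_filter, mem_univ, true_and]
    refine ⟨i, ⟨rfl, rfl⟩, ?_⟩
    rw [hgrp, hgrp]
    exact hi

end FTT
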