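import Pool.Agent.FTT.Defs

/-!
# FTT.Vec: the laws of the fine digits, restricted to the good atoms

PROOF of `vec`. For `i : Fin m` let `U_i` be the set of `a < D` with (large atom) `a1 * mA (u i) < mAa (u i) a` or, for some `j`,
`2 (mAaB (u i) a (v j) * mA (u i)) < mAa (u i) a * mAB (u i) (v j)`. The mass `∑_{a ∈ U_i} mAa (u i) a` is at most
`lA + ∑_j eA (u i) (v j) ≤ mA/4 + m θ2 mA ≤ mA/2`; so `N_i = ∑_{a < D, a ∉ U_i} mAa (u i) a ≥ mA (u i) / 2 > 0`
(`∑_a mAa A a = mA A`, exchange of sums). Let `α i a = mAa (u i) a / N_i` for `a < D`, `a ∉ U_i`, and `0` otherwise; then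
`α i a ≤ 2 mAa/mA ≤ 2 a1`. Similarly `V_j = {b < D : 2 (mABb (u i) (v j) b * mB (v j)) < mBb (v j) b * mAB (u i) (v j) for some i}`
has mass `≤ m θ2 mB ≤ mB/2`, `β j b = mBb (v j) b / N'_j` for `b < D` outside `V_j`, `≤ 2 mBb/mB ≤ 2 b1`.
For `a ∉ U_i`, `b ∉ V_j`: `α i a ≤ 2 mAa/mA ≤ 4 mAaB (u i) a (v j) / mAB`, `β j b ≤ 4 mABb (u i) (v j) b / mAB` (`mAB > 0` by the
clause `half`). So the sum in the last claim is at most `16 ms (u i) (v j) / mAB ≤ 16 θ1`.
-/

namespace FTT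

open Finset

/-- union bound for filtered sums -/
theorem vec_union {m : ℕ} (D : ℕ) (x : ℕ → ℝ) (hx : ∀ a, 0 ≤ x a) (P0 : ℕ → Prop) (P : Fin m → ℕ → Prop)
    [DecidablePred P0] [∀ j, DecidablePred (P j)] [DecidablePred fun a => P0 a ∨ ∃ j, P j a] :
    ∑ a ∈ (range D).filter (fun a => P0 a ∨ ∃ j, P j a), x a ≤
      ∑ a ∈ (range D).filter P0, x a + ∑ j, ∑ a ∈ (range D).filter (P j), x a := by
  simp only [Finset.sum_filter]
  rw [Finset.sum_comm, ← Finset.sum_add_distrib]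
  refine Finset.sum_le_sum fun a _ => ?_
  have h0 : 0 ≤ ∑ j : Fin m, (if P j a then x a else 0) :=
    Finset.sum_nonneg fun j _ => by split_ifs; exacts [hx a, le_rfl]
  by_cases hP0 : P0 a
  · rw [if_pos (Or.inl hP0), if_pos hP0]
    linarith
  · rw [if_neg hP0, zero_add]
    by_cases hj : ∃ j, P j a
    · rw [if_pos (Or.inr hj)]
      obtain ⟨j, hj⟩ := hj
      have h1 : (if P j a then x a else 0) ≤ ∑ j : Fin m, (if P j a then x a else 0) :=
        Finset.single_le_sum (f := fun j => if P j a then x a else 0)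
          (fun j _ => by split_ifs; exacts [hx a, le_rfl]) (Finset.mem_univ j)
      rwa [if_pos hj] at h1
    · rw [if_neg (fun h => h.elim hP0 hj)]
      exact h0

/-- one side of `vec` -/
theorem vec_side {m : ℕ} (D : ℕ) (x : ℕ → ℝ) (hx : ∀ a, 0 ≤ x a) (P0 : ℕ → Prop) (P : Fin m → ℕ → Prop)
    [DecidablePred P0] [∀ j, DecidablePred (P j)] {M : ℝ} (hM : 0 < M) (hs : ∑ a ∈ range D, x a = M)
    (h0 : 4 * ∑ a ∈ (range D).filter P0, x a ≤ M)
    (h1 : 4 * ∑ j, ∑ a ∈ (range D).filter (P j), x a ≤ M) :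
    ∃ α : ℕ → ℝ, (∀ a, 0 ≤ α a) ∧ ∑ a ∈ range D, α a = 1 ∧
      ∀ a, α a = 0 ∨ (a < D ∧ ¬ P0 a ∧ (∀ j, ¬ P j a) ∧ α a * M ≤ 2 * x a) := by
  classical
  have hU := vec_union D x hx P0 P
  have hsplit := Finset.sum_filter_add_sum_filter_not (range D) (fun a => P0 a ∨ ∃ j, P j a) x
  set N := ∑ a ∈ (range D).filter (fun a => ¬ (P0 a ∨ ∃ j, P j a)), x a with hN
  have hN2 : M ≤ 2 * N := by linarith
  have hNpos : 0 < N := by linarith
  refine ⟨fun a => if a < D ∧ ¬ (P0 a ∨ ∃ j, P j a) then x a / N else 0, fun a => ?_, ?_, fun a => ?_⟩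
  · dsimp only
    split_ifs
    · exact div_nonneg (hx a) hNpos.le
    · exact le_rfl
  · have e : ∀ a ∈ range D, (if a < D ∧ ¬ (P0 a ∨ ∃ j, P j a) then x a / N else 0) =
        if ¬ (P0 a ∨ ∃ j, P j a) then x a / N else 0 := by
      intro a ha
      have ha' := Finset.mem_range.1 ha
      by_cases h : P0 a ∨ ∃ j, P j a
      · rw [if_neg (fun h' => h'.2 h), if_neg (fun h' => h' h)]
      · rw [if_pos ⟨ha', h⟩, if_pos h]
    rw [Finset.sum_congr rfl e, ← Finset.sum_filter, ← Finset.sum_div, ← hN]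
    exact div_self hNpos.ne'
  · dsimp only
    by_cases h : a < D ∧ ¬ (P0 a ∨ ∃ j, P j a)
    · right
      rw [if_pos h]
      refine ⟨h.1, fun h' => h.2 (Or.inl h'), fun j h' => h.2 (Or.inr ⟨j, h'⟩), ?_⟩
      rw [div_mul_eq_mul_div, div_le_iff₀ hNpos]
      have := hx a
      nlinarith
    · left
      rw [if_neg h]

theorem vec {G D m : ℕ} {f : ℕ → ℕ → ℕ → ℕ → ℝ} (hf : ∀ A a B b, 0 ≤ f A a B b)
    {θ1 θ2 a0 a1 b1 : ℝ} (ha1 : 0 ≤ a1) (hb1 : 0 ≤ b1) (hθ2 : 4 * (m : ℝ) * θ2 ≤ 1)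
    (hb : ∀ B < G, ∀ b < D, mBb G D f B b ≤ b1 * mB G D f B)
    (u v : Fin m → ℕ) (hu : ∀ i, u i < G) (hv : ∀ j, v j < G)
    (hE : ∀ i j, Good G D f θ1 θ2 a0 a1 (u i) (v j)) :
    ∃ α β : Fin m → ℕ → ℝ, (∀ i a, 0 ≤ α i a) ∧ (∀ j b, 0 ≤ β j b) ∧
      (∀ i, ∑ a ∈ range D, α i a = 1) ∧ (∀ j, ∑ b ∈ range D, β j b = 1) ∧
      (∀ i a, α i a ≤ 2 * a1) ∧ (∀ j b, β j b ≤ 2 * b1) ∧
      ∀ i j, ∑ z ∈ (range D ×ˢ range D).filter (fun z => f (u i) z.1 (v j) z.2 = 0),
        α i z.1 * β j z.2 ≤ 16 * θ1 := by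
  classical
  -- nonnegativity
  have nAaB : ∀ A a B, 0 ≤ mAaB D f A a B := fun A a B => Finset.sum_nonneg fun _ _ => hf _ _ _ _
  have nABb : ∀ A B b, 0 ≤ mABb D f A B b := fun A B b => Finset.sum_nonneg fun _ _ => hf _ _ _ _
  have nAB : ∀ A B, 0 ≤ mAB D f A B := fun A B =>
    Finset.sum_nonneg fun _ _ => Finset.sum_nonneg fun _ _ => hf _ _ _ _
  have nAa : ∀ A a, 0 ≤ mAa G D f A a := fun A a => Finset.sum_nonneg fun _ _ => nAaB _ _ _
  have nBb : ∀ B b, 0 ≤ mBb G D f B b := fun B b => Finset.sum_nonneg fun _ _ => nABb _ _ _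
  have nA : ∀ A, 0 ≤ mA G D f A := fun A => Finset.sum_nonneg fun _ _ => nAB _ _
  have nP : 0 ≤ mP G D f := Finset.sum_nonneg fun _ _ => nA _
  have pAB : ∀ i j, 0 < mAB D f (u i) (v j) := by
    intro i j
    have h := hE i j
    have h1 := mul_pos h.posA h.posB
    have h2 := h.half
    rcases (nAB (u i) (v j)).lt_or_eq with h3 | h3
    · exact h3
    · rw [← h3, zero_mul, mul_zero] at h2
      exact absurd h1 (not_lt.2 h2)
  -- sums
  have sA : ∀ A, ∑ a ∈ range D, mAa G D f A a = mA G D f A := by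
    intro A
    unfold mAa mA
    rw [Finset.sum_comm]
    rfl
  have sB : ∀ B, ∑ b ∈ range D, mBb G D f B b = mB G D f B := by
    intro B
    unfold mBb mB
    rw [Finset.sum_comm]
    refine Finset.sum_congr rfl fun A _ => ?_
    unfold mABb mAB
    rw [Finset.sum_comm]
  -- the two sides
  have hα : ∀ i : Fin m, ∃ α : ℕ → ℝ, (∀ a, 0 ≤ α a) ∧ ∑ a ∈ range D, α a = 1 ∧
      ∀ a, α a = 0 ∨ (a < D ∧ ¬ (a1 * mA G D f (u i) < mAa G D f (u i) a) ∧
        (∀ j, ¬ (2 * (mAaB D f (u i) a (v j) * mA G D f (u i)) < mAa G D f (u i) a * mAB D f (u i) (v j))) ∧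
        α a * mA G D f (u i) ≤ 2 * mAa G D f (u i) a) := by
    intro i
    refine vec_side D (fun a => mAa G D f (u i) a) (fun a => nAa _ _)
      (fun a => a1 * mA G D f (u i) < mAa G D f (u i) a)
      (fun j a => 2 * (mAaB D f (u i) a (v j) * mA G D f (u i)) < mAa G D f (u i) a * mAB D f (u i) (v j))
      (hE i i).posA (sA _) (hE i i).lgA ?_
    have h1 : ∑ j : Fin m, eA G D f (u i) (v j) ≤ ∑ _j : Fin m, θ2 * mA G D f (u i) :=
      Finset.sum_le_sum fun j _ => (hE i j).loA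
    rw [Finset.sum_const, Finset.card_univ, Fintype.card_fin, nsmul_eq_mul] at h1
    have h2 := mul_le_mul_of_nonneg_right hθ2 (nA (u i))
    have h3 : 4 * ∑ j : Fin m, eA G D f (u i) (v j) ≤ mA G D f (u i) := by nlinarith
    exact h3
  have hβ : ∀ j : Fin m, ∃ β : ℕ → ℝ, (∀ b, 0 ≤ β b) ∧ ∑ b ∈ range D, β b = 1 ∧
      ∀ b, β b = 0 ∨ (b < D ∧ ¬ False ∧
        (∀ i, ¬ (2 * (mABb D f (u i) (v j) b * mB G D f (v j)) < mBb G D f (v j) b * mAB D f (u i) (v j))) ∧
        β b * mB G D f (v j) ≤ 2 * mBb G D f (v j) b) := by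
    intro j
    refine vec_side D (fun b => mBb G D f (v j) b) (fun b => nBb _ _)
      (fun _ => False)
      (fun i b => 2 * (mABb D f (u i) (v j) b * mB G D f (v j)) < mBb G D f (v j) b * mAB D f (u i) (v j))
      (hE j j).posB (sB _) ?_ ?_
    · rw [Finset.filter_false, Finset.sum_empty, mul_zero]
      exact (hE j j).posB.le
    · have h1 : ∑ i : Fin m, eB G D f (u i) (v j) ≤ ∑ _i : Fin m, θ2 * mB G D f (v j) :=
        Finset.sum_le_sum fun i _ => (hE i j).loB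
      rw [Finset.sum_const, Finset.card_univ, Fintype.card_fin, nsmul_eq_mul] at h1
      have h2 := mul_le_mul_of_nonneg_right hθ2 (hE j j).posB.le
      have h3 : 4 * ∑ i : Fin m, eB G D f (u i) (v j) ≤ mB G D f (v j) := by nlinarith
      exact h3
  choose α α0 α1 α2 using hα
  choose β β0 β1 β2 using hβ
  refine ⟨α, β, α0, β0, α1, β1, fun i a => ?_, fun j b => ?_, fun i j => ?_⟩
  · rcases α2 i a with h | ⟨_, h1, _, h3⟩
    · rw [h]
      positivity
    · have hp := (hE i i).posA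
      have h4 := not_lt.1 h1
      have h5 : α i a * mA G D f (u i) ≤ (2 * a1) * mA G D f (u i) := by linarith
      exact le_of_mul_le_mul_right h5 hp
  · rcases β2 j b with h | ⟨h0, _, _, h3⟩
    · rw [h]
      positivity
    · have hp := (hE j j).posB
      have h4 := hb (v j) (hv j) b h0
      have h5 : β j b * mB G D f (v j) ≤ (2 * b1) * mB G D f (v j) := by linarith
      exact le_of_mul_le_mul_right h5 hp
  · have hAB := pAB i j
    have hmiss := (hE i j).miss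
    have key : ∀ z : ℕ × ℕ, α i z.1 * β j z.2 ≤
        (mAaB D f (u i) z.1 (v j) * mABb D f (u i) (v j) z.2 / mAB D f (u i) (v j)) *
          (16 / mAB D f (u i) (v j)) := by
      rintro ⟨a, b⟩
      dsimp only
      have hR : 0 ≤ (mAaB D f (u i) a (v j) * mABb D f (u i) (v j) b / mAB D f (u i) (v j)) *
          (16 / mAB D f (u i) (v j)) :=
        mul_nonneg (div_nonneg (mul_nonneg (nAaB _ _ _) (nABb _ _ _)) hAB.le) (div_nonneg (by norm_num) hAB.le)
      rcases α2 i a with h | ⟨_, _, h2, h3⟩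
      · rw [h, zero_mul]
        exact hR
      rcases β2 j b with h' | ⟨_, _, h2', h3'⟩
      · rw [h', mul_zero]
        exact hR
      have hpA := (hE i j).posA
      have hpB := (hE i j).posB
      have h4 := not_lt.1 (h2 j)
      have h4' := not_lt.1 (h2' i)
      -- α * mAB ≤ 4 mAaB
      have h5 : α i a * mAB D f (u i) (v j) ≤ 4 * mAaB D f (u i) a (v j) := by
        have h6 : (α i a * mAB D f (u i) (v j)) * mA G D f (u i) ≤
            (4 * mAaB D f (u i) a (v j)) * mA G D f (u i) := by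
          have h7 := mul_le_mul_of_nonneg_right h3 hAB.le
          nlinarith
        exact le_of_mul_le_mul_right h6 hpA
      have h5' : β j b * mAB D f (u i) (v j) ≤ 4 * mABb D f (u i) (v j) b := by
        have h6 : (β j b * mAB D f (u i) (v j)) * mB G D f (v j) ≤
            (4 * mABb D f (u i) (v j) b) * mB G D f (v j) := by
          have h7 := mul_le_mul_of_nonneg_right h3' hAB.le
          nlinarith
        exact le_of_mul_le_mul_right h6 hpB
      have h8 : (α i a * mAB D f (u i) (v j)) * (β j b * mAB D f (u i) (v j)) ≤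
          (4 * mAaB D f (u i) a (v j)) * (4 * mABb D f (u i) (v j) b) :=
        mul_le_mul h5 h5' (mul_nonneg (β0 j b) hAB.le) (mul_nonneg (by norm_num) (nAaB _ _ _))
      rw [div_mul_div_comm, le_div_iff₀ (mul_pos hAB hAB)]
      nlinarith
    calc ∑ z ∈ (range D ×ˢ range D).filter (fun z => f (u i) z.1 (v j) z.2 = 0), α i z.1 * β j z.2
        ≤ ∑ z ∈ (range D ×ˢ range D).filter (fun z => f (u i) z.1 (v j) z.2 = 0),
          (mAaB D f (u i) z.1 (v j) * mABb D f (u i) (v j) z.2 / mAB D f (u i) (v j)) *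
            (16 / mAB D f (u i) (v j)) := Finset.sum_le_sum fun z _ => key z
      _ = ms D f (u i) (v j) * (16 / mAB D f (u i) (v j)) := by
          rw [← Finset.sum_mul]
          rfl
      _ ≤ 16 * θ1 := by
          rw [mul_div_assoc', div_le_iff₀ hAB]
          nlinarith

end FTT
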