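import Pool.Agent.FTT.JSum
import Pool.Agent.FTT.Avg

/-!
# FTT.Window: a good window

PROOF. `avg` with `H = H D p N n`, `l = log D > 0`, gives `S`, `T`. By `sum_J1, ..., sum_J6`, `sum_mP`: the sum over
`u < D^S`, `v < D^T` of `N J1/(8 l) + N J2/(8 g l) + N J3/(8 g l) + N J4/(8 g^2 l) + N J5/(4 g n l) + N J6/(4 n l) - 6 mP` is
`≤ 0`, and all `J`'s are `≥ 0` (`mi_nonneg`, `df_nonneg`; `wnd ≥ 0`), `mP ≥ 0`. There is a pair `(u, v)` with `mP > 0` for which
the summand is `≤ 0`: otherwise all summands are `≥ 0` (if `mP = 0` the summand is a sum of nonnegative terms), and one is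
`> 0` because `∑ mP = 1`. Each of the six nonnegative terms is then `≤ 6 mP`.
-/

namespace FTT

open Finset FHT

private theorem Window_wnd_nonneg {D N n g S T u v : ℕ} {p : ℕ → ℕ → ℝ}
    (hp : ∀ x y, 0 ≤ p x y) (A a B b : ℕ) : 0 ≤ wnd D p N n g S T u v A a B b :=
  mg_nonneg hp _ _ _ _

private theorem Window_div {x y c m : ℝ} (hc : 0 < c) (h : x / c ≤ 6 * m) (hy : 6 * c = y) :
    x ≤ y * m := by
  rw [div_le_iff₀ hc] at h
  rw [← hy]
  linarith

theorem window {D N n g : ℕ} (hD : 2 ≤ D) (hg : 1 ≤ g) (hn : 1 ≤ n) (hN : 2 * g ≤ N)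
    {p : ℕ → ℕ → ℝ} (hp : ∀ x y, 0 ≤ p x y)
    (h1 : ∑ x ∈ range (D ^ N), ∑ y ∈ range (D ^ n), p x y = 1)
    (hx : N * Real.log D - ∑ x ∈ range (D ^ N), Real.negMulLog (∑ y ∈ range (D ^ n), p x y) ≤
      n * Real.log D)
    (𝒯 : Finset ℕ) (hT : 𝒯 ⊆ Ico g n) (hc : n ≤ 4 * 𝒯.card) :
    ∃ S T u v : ℕ, S + g < N ∧ T + g ∈ 𝒯 ∧ u < D ^ S ∧ v < D ^ T ∧
      0 < mP (D ^ g) D (wnd D p N n g S T u v) ∧
      N * J1 (D ^ g) D (wnd D p N n g S T u v) ≤
        48 * Real.log D * mP (D ^ g) D (wnd D p N n g S T u v) ∧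
      N * J2 (D ^ g) D (wnd D p N n g S T u v) ≤
        48 * g * Real.log D * mP (D ^ g) D (wnd D p N n g S T u v) ∧
      N * J3 (D ^ g) D (wnd D p N n g S T u v) ≤
        48 * g * Real.log D * mP (D ^ g) D (wnd D p N n g S T u v) ∧
      N * J4 (D ^ g) D (wnd D p N n g S T u v) ≤
        48 * g ^ 2 * Real.log D * mP (D ^ g) D (wnd D p N n g S T u v) ∧
      N * J5 (D ^ g) D (wnd D p N n g S T u v) ≤
        24 * g * n * Real.log D * mP (D ^ g) D (wnd D p N n g S T u v) ∧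
      N * J6 (D ^ g) D (wnd D p N n g S T u v) ≤
        24 * n * Real.log D * mP (D ^ g) D (wnd D p N n g S T u v) := by
  classical
  have hl : 0 < Real.log D := Real.log_pos (by exact_mod_cast (by omega : 1 < D))
  obtain ⟨S, T, hS, hTT, hav⟩ := avg hl (H D p N n) hg hn hN
    (fun S hS T hT => ent_sub hp hS hT) (fun S hS T hT => ent_x hp hS hT h1)
    (ent_zero h1) (ent_y (by omega) hp h1) (ent_mono hp) (by rw [ent_full]; exact hx) 𝒯 hT hc
  have hT' : T + g < n := (Finset.mem_Ico.1 (hT hTT)).2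
  have hgr : (0 : ℝ) < g := by exact_mod_cast hg
  have hnr : (0 : ℝ) < n := by exact_mod_cast hn
  have hNr : (0 : ℝ) ≤ N := Nat.cast_nonneg N
  set l : ℝ := Real.log D with hldef
  set W : ℕ → ℕ → ℕ → ℕ → ℕ → ℕ → ℝ := fun u v => wnd D p N n g S T u v with hW
  have w0 : ∀ u v A a B b, 0 ≤ W u v A a B b := fun u v A a B b => Window_wnd_nonneg hp A a B b
  have hAaB : ∀ u v A a B, 0 ≤ mAaB D (W u v) A a B := fun u v A a B =>
    Finset.sum_nonneg fun b _ => w0 u v A a B b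
  have hABb : ∀ u v A B b, 0 ≤ mABb D (W u v) A B b := fun u v A B b =>
    Finset.sum_nonneg fun a _ => w0 u v A a B b
  have hAB : ∀ u v A B, 0 ≤ mAB D (W u v) A B := fun u v A B =>
    Finset.sum_nonneg fun a _ => Finset.sum_nonneg fun b _ => w0 u v A a B b
  have hA : ∀ u v A, 0 ≤ mA (D ^ g) D (W u v) A := fun u v A =>
    Finset.sum_nonneg fun B _ => hAB u v A B
  have hAa : ∀ u v A a, 0 ≤ mAa (D ^ g) D (W u v) A a := fun u v A a =>
    Finset.sum_nonneg fun B _ => hAaB u v A a B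
  have hP : ∀ u v, 0 ≤ mP (D ^ g) D (W u v) := fun u v =>
    Finset.sum_nonneg fun A _ => hA u v A
  have j1 : ∀ u v, 0 ≤ J1 (D ^ g) D (W u v) := fun u v =>
    Finset.sum_nonneg fun A _ => Finset.sum_nonneg fun B _ => mi_nonneg fun a b => w0 u v A a B b
  have j2 : ∀ u v, 0 ≤ J2 (D ^ g) D (W u v) := fun u v =>
    Finset.sum_nonneg fun A _ => mi_nonneg fun a B => hAaB u v A a B
  have j3 : ∀ u v, 0 ≤ J3 (D ^ g) D (W u v) := fun u v =>
    Finset.sum_nonneg fun B _ => mi_nonneg fun A b => hABb u v A B b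
  have j4 : ∀ u v, 0 ≤ J4 (D ^ g) D (W u v) := fun u v => mi_nonneg fun A B => hAB u v A B
  have j5 : ∀ u v, 0 ≤ J5 (D ^ g) D (W u v) := fun u v => df_nonneg fun A => hA u v A
  have j6 : ∀ u v, 0 ≤ J6 (D ^ g) D (W u v) := fun u v =>
    Finset.sum_nonneg fun A _ => df_nonneg fun a => hAa u v A a
  -- the six coefficients
  set c1 : ℝ := N / (8 * l) with hc1
  set c2 : ℝ := N / (8 * g * l) with hc2
  set c4 : ℝ := N / (8 * g ^ 2 * l) with hc4
  set c5 : ℝ := N / (4 * g * n * l) with hc5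
  set c6 : ℝ := N / (4 * n * l) with hc6
  have p1 : 0 < 8 * l := by positivity
  have p2 : 0 < 8 * g * l := by positivity
  have p4 : 0 < 8 * (g : ℝ) ^ 2 * l := by positivity
  have p5 : 0 < 4 * g * n * l := by positivity
  have p6 : 0 < 4 * n * l := by positivity
  have q1 : 0 ≤ c1 := div_nonneg hNr p1.le
  have q2 : 0 ≤ c2 := div_nonneg hNr p2.le
  have q4 : 0 ≤ c4 := div_nonneg hNr p4.le
  have q5 : 0 ≤ c5 := div_nonneg hNr p5.le
  have q6 : 0 ≤ c6 := div_nonneg hNr p6.le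
  set F : ℕ → ℕ → ℝ := fun u v =>
    c1 * J1 (D ^ g) D (W u v) + c2 * J2 (D ^ g) D (W u v) + c2 * J3 (D ^ g) D (W u v) +
      c4 * J4 (D ^ g) D (W u v) + c5 * J5 (D ^ g) D (W u v) + c6 * J6 (D ^ g) D (W u v) -
      6 * mP (D ^ g) D (W u v) with hF
  have hsum : ∑ u ∈ range (D ^ S), ∑ v ∈ range (D ^ T), F u v ≤ 0 := by
    have e : ∑ u ∈ range (D ^ S), ∑ v ∈ range (D ^ T), F u v =
        c1 * ∑ u ∈ range (D ^ S), ∑ v ∈ range (D ^ T), J1 (D ^ g) D (W u v) +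
        c2 * ∑ u ∈ range (D ^ S), ∑ v ∈ range (D ^ T), J2 (D ^ g) D (W u v) +
        c2 * ∑ u ∈ range (D ^ S), ∑ v ∈ range (D ^ T), J3 (D ^ g) D (W u v) +
        c4 * ∑ u ∈ range (D ^ S), ∑ v ∈ range (D ^ T), J4 (D ^ g) D (W u v) +
        c5 * ∑ u ∈ range (D ^ S), ∑ v ∈ range (D ^ T), J5 (D ^ g) D (W u v) +
        c6 * ∑ u ∈ range (D ^ S), ∑ v ∈ range (D ^ T), J6 (D ^ g) D (W u v) -
        6 * ∑ u ∈ range (D ^ S), ∑ v ∈ range (D ^ T), mP (D ^ g) D (W u v) := by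
      simp only [hF, Finset.mul_sum, Finset.sum_add_distrib, Finset.sum_sub_distrib]
    rw [e]
    simp only [hW]
    rw [sum_J1 hS hT', sum_J2 hS hT', sum_J3 hS hT', sum_J4 hS hT', sum_J5 hS hT' h1,
      sum_J6 hS hT' h1, sum_mP hS hT' h1]
    have e2 : ∀ c x : ℝ, (N : ℝ) / c * x = N * x / c := fun c x => by ring
    rw [hc1, hc2, hc4, hc5, hc6]
    simp only [e2]
    linarith [hav]
  have hex : ∃ u ∈ range (D ^ S), ∃ v ∈ range (D ^ T), 0 < mP (D ^ g) D (W u v) ∧ F u v ≤ 0 := by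
    by_contra hcon
    push Not at hcon
    have hFn : ∀ u ∈ range (D ^ S), ∀ v ∈ range (D ^ T), 0 ≤ F u v := by
      intro u hu v hv
      rcases (hP u v).lt_or_eq with h | h
      · exact (hcon u hu v hv h).le
      · simp only [hF]
        rw [← h]
        have := mul_nonneg q1 (j1 u v)
        have := mul_nonneg q2 (j2 u v)
        have := mul_nonneg q2 (j3 u v)
        have := mul_nonneg q4 (j4 u v)
        have := mul_nonneg q5 (j5 u v)
        have := mul_nonneg q6 (j6 u v)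
        linarith
    have hm : ∑ u ∈ range (D ^ S), ∑ v ∈ range (D ^ T), mP (D ^ g) D (W u v) = 1 :=
      sum_mP hS hT' h1
    have hne : ∑ u ∈ range (D ^ S), ∑ v ∈ range (D ^ T), mP (D ^ g) D (W u v) ≠ 0 := by
      rw [hm]; exact one_ne_zero
    obtain ⟨u, hu, h2⟩ := Finset.exists_ne_zero_of_sum_ne_zero hne
    obtain ⟨v, hv, h3⟩ := Finset.exists_ne_zero_of_sum_ne_zero h2
    have h4 : 0 < F u v := hcon u hu v hv (lt_of_le_of_ne (hP u v) (Ne.symm h3))
    have h5 : F u v ≤ ∑ v ∈ range (D ^ T), F u v :=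
      Finset.single_le_sum (f := fun v => F u v) (fun v hv => hFn u hu v hv) hv
    have h6 : ∑ v ∈ range (D ^ T), F u v ≤ ∑ u ∈ range (D ^ S), ∑ v ∈ range (D ^ T), F u v :=
      Finset.single_le_sum (f := fun u => ∑ v ∈ range (D ^ T), F u v)
        (fun u hu => Finset.sum_nonneg fun v hv => hFn u hu v hv) hu
    linarith
  obtain ⟨u, hu, v, hv, hpos, hle⟩ := hex
  have r1 := mul_nonneg q1 (j1 u v)
  have r2 := mul_nonneg q2 (j2 u v)
  have r3 := mul_nonneg q2 (j3 u v)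
  have r4 := mul_nonneg q4 (j4 u v)
  have r5 := mul_nonneg q5 (j5 u v)
  have r6 := mul_nonneg q6 (j6 u v)
  simp only [hF] at hle
  refine ⟨S, T, u, v, hS, hTT, Finset.mem_range.1 hu, Finset.mem_range.1 hv, hpos, ?_, ?_, ?_, ?_,
    ?_, ?_⟩
  · refine Window_div p1 ?_ (by ring : 6 * (8 * l) = 48 * l)
    have e : (N : ℝ) * J1 (D ^ g) D (W u v) / (8 * l) = c1 * J1 (D ^ g) D (W u v) := by
      rw [hc1]; ring
    rw [e]; linarith
  · refine Window_div p2 ?_ (by ring : 6 * (8 * (g : ℝ) * l) = 48 * g * l)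
    have e : (N : ℝ) * J2 (D ^ g) D (W u v) / (8 * g * l) = c2 * J2 (D ^ g) D (W u v) := by
      rw [hc2]; ring
    rw [e]; linarith
  · refine Window_div p2 ?_ (by ring : 6 * (8 * (g : ℝ) * l) = 48 * g * l)
    have e : (N : ℝ) * J3 (D ^ g) D (W u v) / (8 * g * l) = c2 * J3 (D ^ g) D (W u v) := by
      rw [hc2]; ring
    rw [e]; linarith
  · refine Window_div p4 ?_ (by ring : 6 * (8 * (g : ℝ) ^ 2 * l) = 48 * g ^ 2 * l)
    have e : (N : ℝ) * J4 (D ^ g) D (W u v) / (8 * g ^ 2 * l) = c4 * J4 (D ^ g) D (W u v) := by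
      rw [hc4]; ring
    rw [e]; linarith
  · refine Window_div p5 ?_ (by ring : 6 * (4 * (g : ℝ) * n * l) = 24 * g * n * l)
    have e : (N : ℝ) * J5 (D ^ g) D (W u v) / (4 * g * n * l) = c5 * J5 (D ^ g) D (W u v) := by
      rw [hc5]; ring
    rw [e]; linarith
  · refine Window_div p6 ?_ (by ring : 6 * (4 * (n : ℝ) * l) = 24 * n * l)
    have e : (N : ℝ) * J6 (D ^ g) D (W u v) / (4 * n * l) = c6 * J6 (D ^ g) D (W u v) := by
      rw [hc6]; ring
    rw [e]; linarith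

end FTT
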