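import Pool.Agent.FTT.Law
import Pool.Agent.FTT.Lev
import Pool.Agent.FTT.GoodM
import Pool.Agent.FTT.Kst
import Pool.Agent.FTT.Vec
import Pool.Agent.FTT.Window
import Pool.Agent.FTT.Place

/-!
# FTT.Core: a matrix with many rows of large weight contains every permutation

PROOF. `D = 2^(2L)`, `N = 2^14 n`, `G = D^g`, `log D = 2 L log 2 ≤ 2 L`.
(1) `law` (with `2L`) gives `c`, `p`; `lev` (with `2L`) gives `𝒯`; `window` gives `S, T, u, v`; `f = wnd .. ≥ 0`, `P = mP > 0`.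
(2) `θ1 = 1/(512 q)`, `θ2 = 1/(4 m)`, `a0 = (1/2)^(g L)`, `a1 = (1/2)^L`. Hypotheses of `good`:
`40 J1 ≤ 40 * 48 * 2L/N * P ≤ θ1 P` as `N ≥ 2^14 * 128 q L`; `280 J2 ≤ 280 * 48 g * 2L/N * P ≤ P/(4m)` as `N ≥ 2^14 * 8 g m L`;
`140 J4 ≤ 140 * 48 g^2 * 2L/N P ≤ P` as `N ≥ 2^14 * 2 g^2 L`. `h5`: `df_atoms` with `r = mA`, `τ = a0`, `τ G = 2^(g L)`:
`(∑ large) * g L log 2 ≤ J5 + P`, `J5 ≤ 24 g n (2 L log 2)/N P = (48/2^14) g L log 2 P`; so `∑ large ≤ (48/2^14 + 1/(g L log 2)) P`.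
`h6`: `df_atoms` for every `A` with `τ = a1`, `τ D = 2^L` (`∑_a mAa A a = mA A`), sum over `A`:
`(∑ lA) L log 2 ≤ J6 + P`, `J6 ≤ 24 n (2 L log 2)/N P`; `48/2^14 + 1/(L log 2) ≤ 1/80`.
(3) `kst` with `α = mA/P`, `β = mB/P`, `E = Good ..`, `b0 = (1/2)^(c T + ... + c (T+g-1))`: `β B ≤ b0` by `law` (last claim, with
`j = g`, `w = v D^g + B`, `w_mB`, `w_mP`); the exponent is `≥ g L/5 ≥ 150 (m + 100)` since `T + g ∈ 𝒯`.
(4) `vec` with `b1 = (1/2)^(c (T+g))` (`law` with `T + g`, `j = 1`; `w_mBb`, `w_mB`), `5 c (T+g) ≥ L`.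
(5) `place` with the vectors of (4) (indices `g < m`, `0` or anything outside), `Z g h = {(a,b) : f (u g) a (v h) b = 0}`:
`4 q * 2 a1 ≤ 1`, `4 q * 2 b1 ≤ 1` by `hLq`, `32 q * 16 θ1 = 1`.
(6) For the point `i` of `σ`: `f (u_(i/q)) (a i) (v_(σ i / q)) (b (σ i)) ≠ 0`, so by `FHT.exists_of_mg_ne` there is `(x_i, y_i) ∈ B`
with `x_i / D^(N-S-g-1) = (u G + u_(i/q)) D + a i` and `y_i / D^(n-T-g-1) = (v G + v_(σ i/q)) D + b (σ i)`. Rows `i ↦ x_i` and
columns `j ↦ y_(σ⁻¹ j)` are strictly increasing because these quotients are.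
-/

namespace FTT

open Finset FHT

private theorem Core_lt {M R R' x x' : ℕ} (hR : R < R') (hx : x < M) : R * M + x < R' * M + x' := by
  have h1 : (R + 1) * M ≤ R' * M := Nat.mul_le_mul_right _ hR
  have h2 : (R + 1) * M = R * M + M := by ring
  omega

private theorem Core_mono {q m D G w : ℕ} (u' : ℕ → ℕ)
    (hu : ∀ i j, i < j → j < m → u' i < u' j) {i j a a' : ℕ} (hij : i < j) (hj : j / q < m)
    (ha : a < D) (ha' : i / q = j / q → a < a') :
    (w * G + u' (i / q)) * D + a < (w * G + u' (j / q)) * D + a' := by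
  rcases (Nat.div_le_div_right (c := q) hij.le).lt_or_eq with h | h
  · exact Core_lt (by have := hu _ _ h hj; omega) ha
  · rw [← h] 
    have := ha' h
    omega

private theorem Core_cont {k q m D N n g S T u v : ℕ} (σ : Equiv.Perm (Fin k)) 
    (hm : k ≤ m * q) {p : ℕ → ℕ → ℝ} {B : Finset (ℕ × ℕ)}
    (hpB : ∀ x y, p x y ≠ 0 → (x, y) ∈ B) (u' v' : ℕ → ℕ)
    (hu : ∀ i j, i < j → j < m → u' i < u' j) (hv : ∀ i j, i < j → j < m → v' i < v' j)
    (a b : Fin k → ℕ) (ha : ∀ i j : Fin k, i < j → (i : ℕ) / q = (j : ℕ) / q → a i < a j)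
    (hb : ∀ i j : Fin k, i < j → (i : ℕ) / q = (j : ℕ) / q → b i < b j)
    (haD : ∀ i, a i < D) (hbD : ∀ i, b i < D)
    (hf : ∀ i : Fin k, wnd D p N n g S T u v (u' (i.val / q)) (a i) (v' ((σ i).val / q))
      (b (σ i)) ≠ 0) : Cont B σ := by
  have h1 : ∀ i : Fin k, ∃ x < D ^ (N - S - g - 1), ∃ y < D ^ (n - T - g - 1),
      p (((u * D ^ g + u' (i.val / q)) * D + a i) * D ^ (N - S - g - 1) + x)
        (((v * D ^ g + v' ((σ i).val / q)) * D + b (σ i)) * D ^ (n - T - g - 1) + y) ≠ 0 :=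
    fun i => exists_of_mg_ne (hf i)
  choose x hx y hy hp using h1
  have hdiv : ∀ i : Fin k, i.val / q < m := by
    intro i
    rcases Nat.eq_zero_or_pos q with h0 | h0
    · subst h0
      have := i.2
      omega
    · rw [Nat.div_lt_iff_lt_mul h0]
      exact lt_of_lt_of_le i.2 hm
  refine ⟨fun i => ((u * D ^ g + u' (i.val / q)) * D + a i) * D ^ (N - S - g - 1) + x i,
    fun j => ((v * D ^ g + v' (j.val / q)) * D + b j) * D ^ (n - T - g - 1) + y (σ.symm j),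
    ?_, ?_, ?_⟩
  · intro i j hij
    exact Core_lt (Core_mono u' hu hij (hdiv j) (haD i) (ha i j hij)) (hx i)
  · intro i j hij
    exact Core_lt (Core_mono v' hv hij (hdiv j) (hbD i) (hb i j hij)) (hy _)
  · intro i
    have := hpB _ _ (hp i)
    simpa using this

private theorem Core_scale {N J K X θ P : ℝ} (hN : 0 < N) (hK : 0 ≤ K) (hP : 0 ≤ P)
    (h : N * J ≤ X * P) (hX : K * X ≤ θ * N) : K * J ≤ θ * P := by
  have h1 : N * (K * J) ≤ N * (θ * P) := by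
    calc N * (K * J) = K * (N * J) := by ring
      _ ≤ K * (X * P) := mul_le_mul_of_nonneg_left h hK
      _ = (K * X) * P := by ring
      _ ≤ (θ * N) * P := mul_le_mul_of_nonneg_right hX hP
      _ = N * (θ * P) := by ring
  exact le_of_mul_le_mul_left h1 hN

private theorem Core_nonneg {D N n g S T u v : ℕ} {p : ℕ → ℕ → ℝ} (hp : ∀ x y, 0 ≤ p x y)
    (A a B b : ℕ) : 0 ≤ wnd D p N n g S T u v A a B b := mg_nonneg hp _ _ _ _

private theorem Core_sumAa {G D : ℕ} (f : ℕ → ℕ → ℕ → ℕ → ℝ) (A : ℕ) :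
    ∑ a ∈ range D, mAa G D f A a = mA G D f A := by
  unfold mAa mA mAB mAaB
  rw [sum_comm]

private theorem Core_sumB {G D : ℕ} (f : ℕ → ℕ → ℕ → ℕ → ℝ) :
    ∑ B ∈ range G, mB G D f B = mP G D f := by
  unfold mB mP mA
  rw [sum_comm]

/-- the two bounds for large atoms -/
private theorem Core_atoms {G D g L n : ℕ} {f : ℕ → ℕ → ℕ → ℕ → ℝ}
    (hf : ∀ A a B b, 0 ≤ f A a B b) (hD : D = 2 ^ (2 * L)) (hG : G = D ^ g) (hg : 100 ≤ g)
    (hL : 750 ≤ L) (hn : 1 ≤ n) (hP : 0 < mP G D f)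
    (h5 : ((2 ^ 14 * n : ℕ) : ℝ) * J5 G D f ≤ 24 * g * n * Real.log D * mP G D f)
    (h6 : ((2 ^ 14 * n : ℕ) : ℝ) * J6 G D f ≤ 24 * n * Real.log D * mP G D f) :
    20 * ∑ A ∈ (range G).filter (fun A => (1 / 2 : ℝ) ^ (g * L) * mP G D f < mA G D f A),
      mA G D f A ≤ mP G D f ∧
    80 * ∑ A ∈ range G, lA G D f ((1 / 2 : ℝ) ^ L) A ≤ mP G D f := by
  have hl2 : 0.6931471803 < Real.log 2 := Real.log_two_gt_d9
  have hL' : (750 : ℝ) ≤ L := by exact_mod_cast hL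
  have hg' : (100 : ℝ) ≤ g := by exact_mod_cast hg
  have hn' : (1 : ℝ) ≤ n := by exact_mod_cast hn
  have hD' : Real.log D = 2 * L * Real.log 2 := by
    rw [hD]; push_cast; rw [Real.log_pow]; push_cast; ring
  have hmA0 : ∀ A, 0 ≤ mA G D f A := fun A => sum_nonneg fun B _ => sum_nonneg fun a _ =>
    sum_nonneg fun b _ => hf _ _ _ _
  have hmAa0 : ∀ A a, 0 ≤ mAa G D f A a := fun A a => sum_nonneg fun B _ =>
    sum_nonneg fun b _ => hf _ _ _ _
  have hJ5 : J5 G D f ≤ (48 / 16384) * (g * L * Real.log 2) * mP G D f := by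
    have h : (n : ℝ) * (16384 * J5 G D f) ≤ n * (48 * (g * L * Real.log 2) * mP G D f) := by
      calc (n : ℝ) * (16384 * J5 G D f) = ((2 ^ 14 * n : ℕ) : ℝ) * J5 G D f := by
            push_cast; ring
        _ ≤ _ := h5
        _ = _ := by rw [hD']; ring
    have := le_of_mul_le_mul_left h (by linarith)
    linarith
  have hJ6 : J6 G D f ≤ (48 / 16384) * (L * Real.log 2) * mP G D f := by
    have h : (n : ℝ) * (16384 * J6 G D f) ≤ n * (48 * (L * Real.log 2) * mP G D f) := by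
      calc (n : ℝ) * (16384 * J6 G D f) = ((2 ^ 14 * n : ℕ) : ℝ) * J6 G D f := by
            push_cast; ring
        _ ≤ _ := h6
        _ = _ := by rw [hD']; ring
    have := le_of_mul_le_mul_left h (by linarith)
    linarith
  constructor
  · have hτs : (1 / 2 : ℝ) ^ (g * L) * (G : ℕ) = 2 ^ (g * L) := by
      rw [hG, hD]; push_cast
      rw [← pow_mul, show 2 * L * g = g * L + g * L by ring, pow_add, ← mul_assoc, ← mul_pow]
      norm_num
    have h := df_atoms (s := G) (r := fun A => mA G D f A) hmA0 (τ := (1 / 2 : ℝ) ^ (g * L))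
      (by positivity) (by rw [hτs]; exact one_le_pow₀ (by norm_num))
    rw [hτs, Real.log_pow] at h
    push_cast at h
    change (∑ i ∈ (range G).filter (fun i => (1 / 2 : ℝ) ^ (g * L) * mP G D f < mA G D f i),
      mA G D f i) * (g * L * Real.log 2) ≤ J5 G D f + mP G D f at h
    set X := ∑ i ∈ (range G).filter (fun i => (1 / 2 : ℝ) ^ (g * L) * mP G D f < mA G D f i),
      mA G D f i
    have hgL : (75000 : ℝ) ≤ g * L := by nlinarith
    have hΛ : (500 : ℝ) ≤ g * L * Real.log 2 := by nlinarith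
    set Λ := (g : ℝ) * L * Real.log 2
    have h7 : Λ * (20 * X) ≤ Λ * mP G D f := by
      nlinarith
    exact le_of_mul_le_mul_left h7 (by linarith)
  · have hτs : (1 / 2 : ℝ) ^ L * (D : ℕ) = 2 ^ L := by
      rw [hD]; push_cast
      rw [show 2 * L = L + L by ring, pow_add, ← mul_assoc, ← mul_pow]
      norm_num
    have h : ∀ A ∈ range G, lA G D f ((1 / 2 : ℝ) ^ L) A * (L * Real.log 2) ≤
        df D (fun a => mAa G D f A a) + mA G D f A := by
      intro A _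
      have h := df_atoms (s := D) (r := fun a => mAa G D f A a) (hmAa0 A)
        (τ := (1 / 2 : ℝ) ^ L) (by positivity) (by rw [hτs]; exact one_le_pow₀ (by norm_num))
      rw [hτs, Real.log_pow, Core_sumAa] at h
      exact h
    have h' := sum_le_sum h
    rw [← sum_mul, sum_add_distrib] at h'
    change _ ≤ J6 G D f + mP G D f at h'
    set X := ∑ A ∈ range G, lA G D f ((1 / 2 : ℝ) ^ L) A
    have hΛ : (519 : ℝ) ≤ L * Real.log 2 := by nlinarith
    set Λ := (L : ℝ) * Real.log 2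
    have h7 : Λ * (80 * X) ≤ Λ * mP G D f := by
      nlinarith
    exact le_of_mul_le_mul_left h7 (by linarith)

open Classical in
/-- the frames and the laws of the fine digits -/
private theorem Core_frames {q m L g n D : ℕ} {f : ℕ → ℕ → ℕ → ℕ → ℝ}
    (hf : ∀ A a B b, 0 ≤ f A a B b) (hq : 1 ≤ q) (hm1 : 1 ≤ m) (hg : g = m + 100)
    (hL : 750 ≤ L) (hLq : 8 * q ≤ 2 ^ (L / 5)) (hD : D = 2 ^ (2 * L))
    (hn1 : 128 * q * L ≤ n) (hn2 : 8 * g * m * L ≤ n) (hn3 : 2 * g ^ 2 * L ≤ n) (hn : 1 ≤ n)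
    (hP : 0 < mP (D ^ g) D f)
    (h1 : ((2 ^ 14 * n : ℕ) : ℝ) * J1 (D ^ g) D f ≤ 48 * Real.log D * mP (D ^ g) D f)
    (h2 : ((2 ^ 14 * n : ℕ) : ℝ) * J2 (D ^ g) D f ≤ 48 * g * Real.log D * mP (D ^ g) D f)
    (h3 : ((2 ^ 14 * n : ℕ) : ℝ) * J3 (D ^ g) D f ≤ 48 * g * Real.log D * mP (D ^ g) D f)
    (h4 : ((2 ^ 14 * n : ℕ) : ℝ) * J4 (D ^ g) D f ≤ 48 * g ^ 2 * Real.log D * mP (D ^ g) D f)
    (h5 : ((2 ^ 14 * n : ℕ) : ℝ) * J5 (D ^ g) D f ≤ 24 * g * n * Real.log D * mP (D ^ g) D f)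
    (h6 : ((2 ^ 14 * n : ℕ) : ℝ) * J6 (D ^ g) D f ≤ 24 * n * Real.log D * mP (D ^ g) D f)
    {e e' : ℕ} (he : g * L ≤ 5 * e) (he' : L ≤ 5 * e')
    (hB : ∀ B < D ^ g, mB (D ^ g) D f B ≤ (1 / 2 : ℝ) ^ e * mP (D ^ g) D f)
    (hb : ∀ B < D ^ g, ∀ b < D, mBb (D ^ g) D f B b ≤ (1 / 2 : ℝ) ^ e' * mB (D ^ g) D f B) :
    ∃ (u v : ℕ → ℕ) (α β : ℕ → ℕ → ℝ), (∀ i j, i < j → j < m → u i < u j) ∧
      (∀ i j, i < j → j < m → v i < v j) ∧ (∀ i a, 0 ≤ α i a) ∧ (∀ j b, 0 ≤ β j b) ∧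
      (∀ i < m, ∑ a ∈ range D, α i a = 1) ∧ (∀ j < m, ∑ b ∈ range D, β j b = 1) ∧
      (∀ i < m, ∀ a, 4 * (q : ℝ) * α i a ≤ 1) ∧ (∀ j < m, ∀ b, 4 * (q : ℝ) * β j b ≤ 1) ∧
      ∀ i < m, ∀ j < m, 32 * (q : ℝ) * ∑ z ∈ (range D ×ˢ range D).filter
        (fun z => f (u i) z.1 (v j) z.2 = 0), α i z.1 * β j z.2 ≤ 1 := by
  have hl2 : 0.6931471803 < Real.log 2 := Real.log_two_gt_d9
  have hl2' : Real.log 2 < 0.6931471808 := Real.log_two_lt_d9
  have hq' : (1 : ℝ) ≤ q := by exact_mod_cast hq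
  have hm' : (1 : ℝ) ≤ m := by exact_mod_cast hm1
  have hL' : (750 : ℝ) ≤ L := by exact_mod_cast hL
  have hn' : (1 : ℝ) ≤ n := by exact_mod_cast hn
  have hg' : (1 : ℝ) ≤ g := by
    have : 1 ≤ g := by omega
    exact_mod_cast this
  have hD' : Real.log D ≤ 2 * L := by
    rw [hD]; push_cast; rw [Real.log_pow]; push_cast
    nlinarith
  have hN : (0 : ℝ) < ((2 ^ 14 * n : ℕ) : ℝ) := by
    have : 0 < 2 ^ 14 * n := by positivity
    exact_mod_cast this
  have hNe : ((2 ^ 14 * n : ℕ) : ℝ) = 16384 * n := by push_cast; norm_num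
  have r1 : (128 : ℝ) * q * L ≤ n := by exact_mod_cast hn1
  have r2 : (8 : ℝ) * g * m * L ≤ n := by exact_mod_cast hn2
  have r3 : (2 : ℝ) * g ^ 2 * L ≤ n := by exact_mod_cast hn3
  set P := mP (D ^ g) D f with hPd
  -- hypotheses of good
  have g1 : 40 * J1 (D ^ g) D f ≤ 1 / (512 * q) * P := by
    refine Core_scale hN (by norm_num) hP.le h1 ?_
    rw [hNe, div_mul_eq_mul_div, one_mul, le_div_iff₀ (by positivity)]
    calc 40 * (48 * Real.log D) * (512 * q) ≤ 40 * (48 * (2 * L)) * (512 * q) := by gcongr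
      _ ≤ 16384 * (128 * q * L) := by nlinarith [mul_nonneg (by linarith : (0:ℝ) ≤ q) (by linarith : (0:ℝ) ≤ L)]
      _ ≤ 16384 * n := by linarith
  have gg : ∀ J : ℝ, ((2 ^ 14 * n : ℕ) : ℝ) * J ≤ 48 * g * Real.log D * P →
      280 * J ≤ 1 / (4 * m) * P := by
    intro J hJ
    refine Core_scale hN (by norm_num) hP.le hJ ?_
    rw [hNe, div_mul_eq_mul_div, one_mul, le_div_iff₀ (by positivity)]
    calc 280 * (48 * g * Real.log D) * (4 * m) ≤ 280 * (48 * g * (2 * L)) * (4 * m) := by gcongr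
      _ = 13440 * (8 * g * m * L) := by ring
      _ ≤ 13440 * n := by linarith
      _ ≤ 16384 * n := by linarith
  have g2 := gg _ h2
  have g3 := gg _ h3
  have g4 : 140 * J4 (D ^ g) D f ≤ P := by
    have := Core_scale (K := 140) (θ := 1) hN (by norm_num) hP.le h4 (by
      rw [hNe, one_mul]
      have h7 : (140 : ℝ) * (48 * (g : ℝ) ^ 2 * Real.log D) ≤
          140 * (48 * (g : ℝ) ^ 2 * (2 * (L : ℝ))) := by gcongr
      have h8 : (140 : ℝ) * (48 * (g : ℝ) ^ 2 * (2 * (L : ℝ))) = 6720 * (2 * (g : ℝ) ^ 2 * L) := by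
        ring
      linarith)
    linarith
  obtain ⟨g5, g6⟩ := Core_atoms hf hD rfl (by omega) hL hn hP h5 h6
  have hgood := good hf (θ1 := 1 / (512 * q)) (θ2 := 1 / (4 * m)) (by positivity)
    (by positivity) hP g1 g2 g3 g4 g5 g6
  -- frames
  have hmA0 : ∀ A, 0 ≤ mA (D ^ g) D f A := fun A => sum_nonneg fun B _ =>
    sum_nonneg fun a _ => sum_nonneg fun b _ => hf _ _ _ _
  have hmB0 : ∀ B, 0 ≤ mB (D ^ g) D f B := fun B => sum_nonneg fun A _ =>
    sum_nonneg fun a _ => sum_nonneg fun b _ => hf _ _ _ _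
  have e1 : 2 * m + 3 * m ≤ e ∧ m + 10 ≤ e := by
    have : (m + 100) * 750 ≤ g * L := by rw [hg]; exact Nat.mul_le_mul_left _ hL
    constructor <;> omega
  have hm2 : (m : ℝ) ≤ 2 ^ m := by
    have := (Nat.lt_two_pow_self (n := m)).le
    exact_mod_cast this
  obtain ⟨u, v, hu, hv, huG, hvG, hE⟩ := kst (G := D ^ g) hm1
    (fun A => mA (D ^ g) D f A / P) (fun B => mB (D ^ g) D f B / P)
    (fun A => div_nonneg (hmA0 A) hP.le) (fun B => div_nonneg (hmB0 B) hP.le)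
    (by rw [← sum_div]; exact div_self hP.ne')
    (by rw [← sum_div, Core_sumB]; exact div_self hP.ne')
    (Good (D ^ g) D f (1 / (512 * q)) (1 / (4 * m)) ((1 / 2 : ℝ) ^ (g * L)) ((1 / 2 : ℝ) ^ L))
    (a0 := (1 / 2 : ℝ) ^ (g * L)) (b0 := (1 / 2 : ℝ) ^ e)
    (fun A B h => by rw [div_le_iff₀ hP]; exact h.atA)
    (fun B hB' => by rw [div_le_iff₀ hP]; exact hB B hB')
    (by
      have h : (m : ℝ) ^ 2 * (1 / 2) ^ (g * L) * 2 ^ m ≤
          (2 ^ m) ^ 2 * (1 / 2) ^ (3 * m) * 2 ^ m := by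
        gcongr ?_ ^ 2 * ?_ * _
        apply pow_le_pow_of_le_one (by norm_num) (by norm_num)
        have : (m + 100) * 750 ≤ g * L := by rw [hg]; exact Nat.mul_le_mul_left _ hL
        omega
      refine h.trans (le_of_eq ?_)
      rw [← pow_mul, one_div, inv_pow, show 3 * m = m * 2 + m by ring, pow_add]
      field_simp)
    (by
      have h : 2 * (m : ℝ) * (1 / 2) ^ e * 2 ^ m ≤
          2 ^ m * 2 ^ m * (1 / 2) ^ (3 * m) * 2 ^ m := by
        have h' : 2 * (m : ℝ) ≤ 2 ^ m * 2 ^ m := by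
          have : (2 : ℝ) ≤ 2 ^ m := by
            calc (2 : ℝ) = 2 ^ 1 := by norm_num
              _ ≤ 2 ^ m := pow_le_pow_right₀ (by norm_num) hm1
          gcongr
        gcongr ?_ * ?_ * _
        apply pow_le_pow_of_le_one (by norm_num) (by norm_num)
        omega
      refine h.trans (le_of_eq ?_)
      rw [one_div, inv_pow, show 3 * m = m + m + m by ring, pow_add, pow_add]
      field_simp)
    (by
      have h : ∀ z : ℕ × ℕ, mA (D ^ g) D f z.1 / P * (mB (D ^ g) D f z.2 / P) =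
          mA (D ^ g) D f z.1 * mB (D ^ g) D f z.2 / P ^ 2 := by
        intro z
        field_simp
      simp only [h]
      rw [← sum_div, mul_div_assoc', le_div_iff₀ (by positivity), one_mul]
      exact hgood)
  -- fine digits
  obtain ⟨α, β, hα0, hβ0, hα1, hβ1, hαs, hβs, hZ⟩ := vec hf (by positivity)
    (b1 := (1 / 2 : ℝ) ^ e') (by positivity) (by
      have : 4 * (m : ℝ) * (1 / (4 * m)) = 1 := by field_simp
      exact this.le) hb u v huG hvG hE
  have hq8 : 4 * (q : ℝ) * (2 * (1 / 2 : ℝ) ^ (L / 5)) ≤ 1 := by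
    have h : (8 : ℝ) * q ≤ 2 ^ (L / 5) := by exact_mod_cast hLq
    rw [one_div, inv_pow]
    have h' : (0 : ℝ) < 2 ^ (L / 5) := by positivity
    rw [show 4 * (q : ℝ) * (2 * ((2 : ℝ) ^ (L / 5))⁻¹) = 8 * q / 2 ^ (L / 5) by
      field_simp; ring]
    rw [div_le_iff₀ h', one_mul]
    exact h
  have hatom : ∀ {x : ℝ} {t : ℕ}, L / 5 ≤ t → x ≤ 2 * (1 / 2 : ℝ) ^ t → 4 * (q : ℝ) * x ≤ 1 := by
    intro x t ht hx
    have h : (1 / 2 : ℝ) ^ t ≤ (1 / 2 : ℝ) ^ (L / 5) :=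
      pow_le_pow_of_le_one (by norm_num) (by norm_num) ht
    calc 4 * (q : ℝ) * x ≤ 4 * q * (2 * (1 / 2 : ℝ) ^ (L / 5)) := by
          gcongr
          linarith
      _ ≤ 1 := hq8
  refine ⟨fun i => if h : i < m then u ⟨i, h⟩ else 0, fun i => if h : i < m then v ⟨i, h⟩ else 0,
    fun i => if h : i < m then α ⟨i, h⟩ else 0, fun i => if h : i < m then β ⟨i, h⟩ else 0,
    ?_, ?_, ?_, ?_, ?_, ?_, ?_, ?_, ?_⟩
  · intro i j hij hj
    simp only [hij.trans hj, hj, dif_pos]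
    exact hu hij
  · intro i j hij hj
    simp only [hij.trans hj, hj, dif_pos]
    exact hv hij
  · intro i a
    by_cases h : i < m
    · simp only [h, dif_pos]; exact hα0 _ _
    · simp only [h, dif_neg, not_false_eq_true]; exact le_rfl
  · intro i a
    by_cases h : i < m
    · simp only [h, dif_pos]; exact hβ0 _ _
    · simp only [h, dif_neg, not_false_eq_true]; exact le_rfl
  · intro i hi
    simp only [hi, dif_pos]; exact hα1 _
  · intro i hi
    simp only [hi, dif_pos]; exact hβ1 _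
  · intro i hi a
    simp only [hi, dif_pos]
    exact hatom (Nat.div_le_self _ _) (hαs _ _)
  · intro i hi a
    simp only [hi, dif_pos]
    exact hatom (by omega) (hβs _ _)
  · intro i hi j hj
    simp only [hi, hj, dif_pos]
    have h := hZ ⟨i, hi⟩ ⟨j, hj⟩
    calc _ ≤ 32 * (q : ℝ) * (16 * (1 / (512 * q))) := by gcongr
      _ = 1 := by field_simp; norm_num

private theorem Core_div {M w x : ℕ} (hx : x < M) : (w * M + x) / M = w := by
  rw [Nat.mul_comm, Nat.mul_add_div (by omega), Nat.div_eq_of_lt hx, Nat.add_zero]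

theorem core {k q m L n g ℓ : ℕ} (σ : Equiv.Perm (Fin k)) (hq : 1 ≤ q) (hm : k ≤ m * q)
    (hm1 : 1 ≤ m) (hg : g = m + 100) (hL : 750 ≤ L) (hLq : 8 * q ≤ 2 ^ (L / 5))
    (hn1 : 128 * q * L ≤ n) (hn2 : 8 * g * m * L ≤ n) (hn3 : 2 * g ^ 2 * L ≤ n)
    (hn4 : 100 * g ≤ n)
    (hℓ : 2 ^ (2 * L * n) ≤ 16 * ℓ ^ 2) (B : Finset (ℕ × ℕ))
    (hB : B ⊆ range ((2 ^ (2 * L)) ^ (2 ^ 14 * n)) ×ˢ range ((2 ^ (2 * L)) ^ n))
    (hrow : ∀ x < (2 ^ (2 * L)) ^ (2 ^ 14 * n), ℓ ≤ (B.filter fun z => z.1 = x).card) :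
    Cont B σ := by
  classical
  have hn : 1 ≤ n := by omega
  obtain ⟨D, hD⟩ : ∃ D, D = 2 ^ (2 * L) := ⟨_, rfl⟩
  rw [← hD] at hB hrow
  obtain ⟨c, p, hcL, hcs, hp0, hp1, hpB, hpx, hpm⟩ := law hD (by omega) hn hℓ B hB hrow
  have hlev := lev c hcL (by omega) hn4 (by omega) hcs
  have hD2 : 2 ≤ D := by
    rw [hD]
    calc 2 = 2 ^ 1 := by norm_num
      _ ≤ 2 ^ (2 * L) := Nat.pow_le_pow_right (by norm_num) (by omega)
  obtain ⟨S, T, u, v, hS, hT, hu, hv, hP, h1, h2, h3, h4, h5, h6⟩ := window hD2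
    (g := g) (by omega) hn (by omega) hp0 hp1 hpx _ (filter_subset _ _) hlev
  rw [mem_filter, mem_Ico] at hT
  obtain ⟨⟨-, hTn⟩, hT1, hT2⟩ := hT
  rw [Nat.add_sub_cancel] at hT2
  have hf := Core_nonneg (D := D) (N := 2 ^ 14 * n) (n := n) (g := g) (S := S) (T := T) (u := u)
    (v := v) hp0
  obtain ⟨u', v', α, β, hu', hv', hα0, hβ0, hα1, hβ1, hαs, hβs, hZ⟩ :=
    Core_frames hf hq hm1 hg hL hLq hD hn1 hn2 hn3 hn hP h1 h2 h3 h4 h5 h6
      (e := ∑ i ∈ Ico T (T + g), c i) (e' := c (T + g)) (by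
        have : g * (2 * L) = 2 * (g * L) := by ring
        omega) (by omega) (by
        intro B' hB'
        rw [w_mB hS hTn, w_mP hS hTn]
        have := hpm (2 ^ 14 * n - S) T g u (v * D ^ g + B') (by omega)
        rwa [Core_div hB'] at this) (by
        intro B' hB' b' hb'
        rw [w_mBb hS hTn, w_mB hS hTn]
        have := hpm (2 ^ 14 * n - S) (T + g) 1 u ((v * D ^ g + B') * D + b') (by omega)
        rw [pow_one, Core_div hb', Nat.Ico_succ_singleton, sum_singleton,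
          ← Nat.sub_sub] at this
        exact this)
  obtain ⟨a, b, ha, hb, haD, hbD, hab⟩ := place σ hq hm α β hα0 hβ0 hα1 hβ1 hαs hβs
    (fun i j => (range D ×ˢ range D).filter
      (fun z => wnd D p (2 ^ 14 * n) n g S T u v (u' i) z.1 (v' j) z.2 = 0))
    (fun _ _ _ _ => filter_subset _ _) hZ
  refine Core_cont (N := 2 ^ 14 * n) (n := n) (g := g) (S := S) (T := T) (u := u) (v := v)
    σ hm hpB u' v' hu' hv' a b ha hb haD hbD ?_
  intro i hi
  apply hab i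
  rw [mem_filter, mem_product, mem_range, mem_range]
  exact ⟨⟨haD _, hbD _⟩, hi⟩

end FTT
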