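import Pool.Agent.FHT.Mg

/-!
# FTT: an upper bound for the Fueredi-Hajnal constants of ALL permutations.  Definitions

Arrays are real valued functions on `ℕ` (or `ℕ × ℕ`, ...), restricted to initial segments.
-/

namespace FTT

open Finset FHT

/-- `F ⊆ range (D^n)` is regular with profile `c`: read the numbers in base `D`, leading digit first; the number of
elements with a given prefix of length `t` is `0` or `2^(c t + ... + c (n-1))`. -/
def Reg (D n : ℕ) (c : ℕ → ℕ) (F : Finset ℕ) : Prop :=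
  ∀ t ≤ n, ∀ v : ℕ, (F.filter fun y => y / D ^ (n - t) = v).card = 0 ∨
    (F.filter fun y => y / D ^ (n - t) = v).card = 2 ^ (∑ i ∈ Ico t n, c i)

/-- mutual information (not normalised, natural logarithm) of an `s × t` array -/
noncomputable def mi (s t : ℕ) (f : ℕ → ℕ → ℝ) : ℝ :=
  ∑ i ∈ range s, Real.negMulLog (∑ j ∈ range t, f i j) +
    ∑ j ∈ range t, Real.negMulLog (∑ i ∈ range s, f i j) -
    Real.negMulLog (∑ i ∈ range s, ∑ j ∈ range t, f i j) -
    ∑ i ∈ range s, ∑ j ∈ range t, Real.negMulLog (f i j)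

/-- entropy deficit (not normalised) of a vector of length `s` -/
noncomputable def df (s : ℕ) (r : ℕ → ℝ) : ℝ :=
  (∑ i ∈ range s, r i) * Real.log s -
    (∑ i ∈ range s, Real.negMulLog (r i) - Real.negMulLog (∑ i ∈ range s, r i))

/-! ## windows: arrays `f A a B b` with `A, B < G` and `a, b < D` -/

section

variable (G D : ℕ) (f : ℕ → ℕ → ℕ → ℕ → ℝ)

/-- mass of `(A, B)` -/
noncomputable def mAB (A B : ℕ) : ℝ := ∑ a ∈ range D, ∑ b ∈ range D, f A a B b

/-- mass of `(A, a, B)` -/
noncomputable def mAaB (A a B : ℕ) : ℝ := ∑ b ∈ range D, f A a B b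

/-- mass of `(A, B, b)` -/
noncomputable def mABb (A B b : ℕ) : ℝ := ∑ a ∈ range D, f A a B b

/-- mass of `A` -/
noncomputable def mA (A : ℕ) : ℝ := ∑ B ∈ range G, mAB D f A B

/-- mass of `B` -/
noncomputable def mB (B : ℕ) : ℝ := ∑ A ∈ range G, mAB D f A B

/-- mass of `(A, a)` -/
noncomputable def mAa (A a : ℕ) : ℝ := ∑ B ∈ range G, mAaB D f A a B

/-- mass of `(B, b)` -/
noncomputable def mBb (B b : ℕ) : ℝ := ∑ A ∈ range G, mABb D f A B b

/-- total mass -/
noncomputable def mP : ℝ := ∑ A ∈ range G, mA G D f A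

/-- `I(a ; b | A, B)` -/
noncomputable def J1 : ℝ := ∑ A ∈ range G, ∑ B ∈ range G, mi D D (fun a b => f A a B b)

/-- `I(a ; B | A)` -/
noncomputable def J2 : ℝ := ∑ A ∈ range G, mi D G (fun a B => mAaB D f A a B)

/-- `I(A ; b | B)` -/
noncomputable def J3 : ℝ := ∑ B ∈ range G, mi G D (fun A b => mABb D f A B b)

/-- `I(A ; B)` -/
noncomputable def J4 : ℝ := mi G G (fun A B => mAB D f A B)

/-- deficit of `A` -/
noncomputable def J5 : ℝ := df G (fun A => mA G D f A)

/-- deficit of `a` given `A` -/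
noncomputable def J6 : ℝ := ∑ A ∈ range G, df D (fun a => mAa G D f A a)

/-- the missing product measure of `(a, b)` given `(A, B)`, times the mass of `(A, B)` -/
noncomputable def ms (A B : ℕ) : ℝ :=
  ∑ z ∈ (range D ×ˢ range D).filter (fun z => f A z.1 B z.2 = 0),
    mAaB D f A z.1 B * mABb D f A B z.2 / mAB D f A B

/-- the mass of the `(A, a)` for which the law given `(A, B)` is less than half of the law given `A` -/
noncomputable def eA (A B : ℕ) : ℝ :=
  ∑ a ∈ (range D).filter (fun a => 2 * (mAaB D f A a B * mA G D f A) < mAa G D f A a * mAB D f A B),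
    mAa G D f A a

/-- the mass of the `(B, b)` for which the law given `(A, B)` is less than half of the law given `B` -/
noncomputable def eB (A B : ℕ) : ℝ :=
  ∑ b ∈ (range D).filter (fun b => 2 * (mABb D f A B b * mB G D f B) < mBb G D f B b * mAB D f A B),
    mBb G D f B b

/-- the mass of the `(A, a)` which are large atoms given `A` -/
noncomputable def lA (a1 : ℝ) (A : ℕ) : ℝ :=
  ∑ a ∈ (range D).filter (fun a => a1 * mA G D f A < mAa G D f A a), mAa G D f A a

/-- good pairs of frames -/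
structure Good (θ1 θ2 a0 a1 : ℝ) (A B : ℕ) : Prop where
  posA : 0 < mA G D f A
  posB : 0 < mB G D f B
  half : mA G D f A * mB G D f B ≤ 2 * (mAB D f A B * mP G D f)
  atA : mA G D f A ≤ a0 * mP G D f
  miss : ms D f A B ≤ θ1 * mAB D f A B
  loA : eA G D f A B ≤ θ2 * mA G D f A
  loB : eB G D f A B ≤ θ2 * mB G D f B
  lgA : 4 * lA G D f a1 A ≤ mA G D f A

end

/-- the window of digits number `S, ..., S+g` of `x` (after the prefix `u`) and `T, ..., T+g` of `y` (after `v`) -/
noncomputable def wnd (D : ℕ) (p : ℕ → ℕ → ℝ) (N n g S T u v A a B b : ℕ) : ℝ :=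
  mg D p (N - S - g - 1) (n - T - g - 1) ((u * D ^ g + A) * D + a) ((v * D ^ g + B) * D + b)

end FTT
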