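import Pool.Agent.FTT.Defs

/-!
# FTT.MiIneq: inequalities for the mutual information and the entropy deficit

Let `P` be the total mass, `r i` the row sums, `s j` the column sums. `negMulLog x = - x log x`.
PROOF of `mi_*`. If `P = 0` everything is `0` (all `f i j = 0` for the indices in range). Let `P > 0`, `q = r i s j / P`.
`mi = ∑_{i,j} (f log f + f log P - f log (r i) - f log (s j)) = ∑_{i,j} f i j log (f i j / q)` (terms with `f i j = 0` vanish;
if `f i j > 0` then `r i, s j > 0`) `= ∑_{i,j} (f log (f/q) - f + q)` since `∑ f = P = ∑ q`. With `φ(t) = t log t - t + 1 ≥ 0`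
each term is `q φ(f/q)` for `q > 0` (and `0` for `q = 0`), `φ(0) = 1`, and `φ(t) ≥ φ(1/2) = (1 - log 2)/2 > 1/7` for
`0 ≤ t ≤ 1/2` (`φ` is decreasing on `[0,1]`; or: `t log t ≥ t log (1/2) + (t - 1/2)`, from `log (1/(2t)) ≤ 1/(2t) - 1`).
`mi_zero`: the terms with `f = 0` are equal to `q`. `mi_half`: the terms with `2 f P < r s` (i.e. `f < q/2`, `q > 0`).
PROOF of `df_*`. If `P = ∑ r i = 0` all is `0`. Otherwise `df = ∑ r i log (s r i / P) = ∑ (P/s) x_i log x_i`, `x_i = s r i / P`,
`∑ x_i = s`. `x log x ≥ x - 1` gives `df ≥ 0`. For the atoms: `x log x ≥ -1` always, and for the large ones (`r i > τ P`)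
`r i log (s r i / P) ≥ r i log (τ s)`; sum.
-/

namespace FTT

open Finset

private theorem MiIneq_term {x P r c : ℝ} (hx : 0 < x) (hP : 0 < P) (hr : 0 < r) (hc : 0 < c) :
    x - r * c / P ≤ x * (Real.log x + Real.log P - Real.log r - Real.log c) := by
  have h1 : Real.log (x * P / (r * c)) = Real.log x + Real.log P - Real.log r - Real.log c := by
    rw [Real.log_div (by positivity) (by positivity), Real.log_mul hx.ne' hP.ne',
      Real.log_mul hr.ne' hc.ne']
    ring
  have h2 := Real.one_sub_inv_le_log_of_pos (show 0 < x * P / (r * c) by positivity)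
  rw [h1] at h2
  have h3 : x - r * c / P = x * (1 - (x * P / (r * c))⁻¹) := by
    field_simp
  rw [h3]
  exact mul_le_mul_of_nonneg_left h2 hx.le

private theorem MiIneq_half {x P r c : ℝ} (hx : 0 < x) (hP : 0 < P) (hr : 0 < r) (hc : 0 < c)
    (h : 2 * (x * P) < r * c) :
    r * c / P / 7 + (x - r * c / P) ≤
      x * (Real.log x + Real.log P - Real.log r - Real.log c) := by
  have h1 : Real.log (x * P / (r * c)) = Real.log x + Real.log P - Real.log r - Real.log c := by
    rw [Real.log_div (by positivity) (by positivity), Real.log_mul hx.ne' hP.ne',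
      Real.log_mul hr.ne' hc.ne']
    ring
  have hq : 0 < r * c / P := by positivity
  have h2 := Real.one_sub_inv_le_log_of_pos (show 0 < 2 * (x * P / (r * c)) by positivity)
  rw [Real.log_mul (by norm_num) (by positivity), h1] at h2
  have h3 : x * (1 - (2 * (x * P / (r * c)))⁻¹) = x - r * c / P / 2 := by
    field_simp
  have h4 := mul_le_mul_of_nonneg_left h2 hx.le
  rw [h3] at h4
  have h5 : x < r * c / P / 2 := by
    rw [div_div, lt_div_iff₀ (by positivity)]
    linarith
  have h6 : Real.log 2 < 0.6931471808 := Real.log_two_lt_d9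
  have h7 : 0 < Real.log 2 := Real.log_pos (by norm_num)
  have h8 : x * Real.log 2 ≤ r * c / P / 2 * 0.6931471808 :=
    mul_le_mul h5.le h6.le h7.le (by positivity)
  have h9 : x * (Real.log 2 + (Real.log x + Real.log P - Real.log r - Real.log c)) =
      x * Real.log 2 + x * (Real.log x + Real.log P - Real.log r - Real.log c) := by ring
  rw [h9] at h4
  linarith

private theorem MiIneq_term2 {D : ℕ} (hD : 1 ≤ D) {r P : ℝ} (hr : 0 ≤ r) (hrP : r ≤ P) :
    r * (Real.log P - Real.log r) ≤ r * Real.log D + P / D - r := by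
  have hD' : (0 : ℝ) < D := by exact_mod_cast hD
  rcases hr.eq_or_lt with h0 | h0
  · have hP : 0 ≤ P := hr.trans hrP
    rw [← h0]
    simp only [zero_mul, zero_add, sub_zero]
    positivity
  · have hP : 0 < P := h0.trans_le hrP
    have h1 : Real.log (P / (D * r)) = Real.log P - Real.log D - Real.log r := by
      rw [Real.log_div hP.ne' (by positivity), Real.log_mul hD'.ne' h0.ne']
      ring
    have h2 := Real.log_le_sub_one_of_pos (show 0 < P / (D * r) by positivity)
    rw [h1] at h2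
    have h3 := mul_le_mul_of_nonneg_left h2 h0.le
    have h4 : r * (P / (D * r) - 1) = P / D - r := by
      field_simp
    rw [h4] at h3
    linarith

private theorem MiIneq_main {s t : ℕ} (f : ℕ → ℕ → ℝ) (hf : ∀ i j, 0 ≤ f i j) {P : ℝ}
    (hP : ∑ i ∈ range s, ∑ j ∈ range t, f i j = P) (Φ : ℕ → ℕ → ℝ)
    (h0 : ∀ i ∈ range s, ∀ j ∈ range t, f i j = 0 →
      Φ i j ≤ (∑ j ∈ range t, f i j) * (∑ i ∈ range s, f i j) / P)
    (h1 : ∀ i ∈ range s, ∀ j ∈ range t, 0 < f i j → 0 < P → 0 < ∑ j ∈ range t, f i j →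
      0 < ∑ i ∈ range s, f i j →
      Φ i j + (f i j - (∑ j ∈ range t, f i j) * (∑ i ∈ range s, f i j) / P) ≤
        f i j * (Real.log (f i j) + Real.log P - Real.log (∑ j ∈ range t, f i j) -
          Real.log (∑ i ∈ range s, f i j))) :
    ∑ i ∈ range s, ∑ j ∈ range t, Φ i j ≤ mi s t f := by
  set r : ℕ → ℝ := fun i => ∑ j ∈ range t, f i j with hr
  set c : ℕ → ℝ := fun j => ∑ i ∈ range s, f i j with hc
  have hr0 : ∀ i, 0 ≤ r i := fun i => sum_nonneg fun j _ => hf i j
  have hc0 : ∀ j, 0 ≤ c j := fun j => sum_nonneg fun i _ => hf i j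
  have hfr : ∀ i, ∀ j ∈ range t, f i j ≤ r i := fun i j hj =>
    single_le_sum (f := fun j => f i j) (fun j _ => hf i j) hj
  have hfc : ∀ i ∈ range s, ∀ j, f i j ≤ c j := fun i hi j =>
    single_le_sum (f := fun i => f i j) (fun i _ => hf i j) hi
  have hrP : ∀ i ∈ range s, r i ≤ P := fun i hi => by
    rw [← hP]
    exact single_le_sum (f := fun i => r i) (fun i _ => hr0 i) hi
  have hsr : ∑ i ∈ range s, r i = P := hP
  have hsc : ∑ j ∈ range t, c j = P := by
    rw [← hP]
    exact sum_comm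
  have e1 : ∑ i ∈ range s, Real.negMulLog (r i) =
      ∑ i ∈ range s, ∑ j ∈ range t, -(f i j * Real.log (r i)) := by
    refine sum_congr rfl fun i _ => ?_
    rw [Real.negMulLog, sum_neg_distrib, ← sum_mul]
    ring
  have e2 : ∑ j ∈ range t, Real.negMulLog (c j) =
      ∑ i ∈ range s, ∑ j ∈ range t, -(f i j * Real.log (c j)) := by
    rw [sum_comm]
    refine sum_congr rfl fun j _ => ?_
    rw [Real.negMulLog, sum_neg_distrib, ← sum_mul]
    ring
  have e3 : Real.negMulLog P = ∑ i ∈ range s, ∑ j ∈ range t, -(f i j * Real.log P) := by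
    have : ∑ i ∈ range s, ∑ j ∈ range t, -(f i j * Real.log P) =
        -((∑ i ∈ range s, ∑ j ∈ range t, f i j) * Real.log P) := by
      rw [sum_mul, ← sum_neg_distrib]
      refine sum_congr rfl fun i _ => ?_
      rw [sum_mul, ← sum_neg_distrib]
    rw [this, hP, Real.negMulLog]
    ring
  have e4 : ∑ i ∈ range s, ∑ j ∈ range t, Real.negMulLog (f i j) =
      ∑ i ∈ range s, ∑ j ∈ range t, -(f i j * Real.log (f i j)) := by
    refine sum_congr rfl fun i _ => sum_congr rfl fun j _ => ?_
    rw [Real.negMulLog]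
    ring
  have e6 : ∑ i ∈ range s, ∑ j ∈ range t, (f i j - r i * c j / P) = 0 := by
    have h1 : ∀ i ∈ range s, ∑ j ∈ range t, (f i j - r i * c j / P) = r i - r i * (P / P) := by
      intro i _
      rw [sum_sub_distrib]
      congr 1
      calc ∑ j ∈ range t, r i * c j / P = ∑ j ∈ range t, r i / P * c j :=
            sum_congr rfl fun j _ => by ring
        _ = r i / P * P := by rw [← mul_sum, hsc]
        _ = r i * (P / P) := by ring
    rw [sum_congr rfl h1, sum_sub_distrib, ← sum_mul, hsr]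
    rcases eq_or_ne P 0 with h2 | h2
    · rw [h2]
      simp
    · rw [div_self h2]
      ring
  have e0 : mi s t f = ∑ i ∈ range s, Real.negMulLog (r i) +
      ∑ j ∈ range t, Real.negMulLog (c j) -
      Real.negMulLog P - ∑ i ∈ range s, ∑ j ∈ range t, Real.negMulLog (f i j) := by
    unfold mi
    rw [hP]
  rw [e0, e1, e2, e3, e4]
  have hmain : ∑ i ∈ range s, ∑ j ∈ range t, (Φ i j + (f i j - r i * c j / P)) ≤
      ∑ i ∈ range s, ∑ j ∈ range t,
      (f i j * (Real.log (f i j) + Real.log P - Real.log (r i) - Real.log (c j))) := by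
    refine sum_le_sum fun i hi => sum_le_sum fun j hj => ?_
    rcases (hf i j).eq_or_lt with h2 | h2
    · have h3 := h0 i hi j hj h2.symm
      rw [← h2, zero_mul]
      have h4 : Φ i j ≤ r i * c j / P := h3
      linarith
    · have h3 : 0 < r i := h2.trans_le (hfr i j hj)
      exact h1 i hi j hj h2 (h3.trans_le (hrP i hi)) h3 (h2.trans_le (hfc i hi j))
  have e7 : ∑ i ∈ range s, ∑ j ∈ range t,
      (f i j * (Real.log (f i j) + Real.log P - Real.log (r i) - Real.log (c j))) =
      ∑ i ∈ range s, ∑ j ∈ range t, -(f i j * Real.log (r i)) +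
      ∑ i ∈ range s, ∑ j ∈ range t, -(f i j * Real.log (c j)) -
      ∑ i ∈ range s, ∑ j ∈ range t, -(f i j * Real.log P) -
      ∑ i ∈ range s, ∑ j ∈ range t, -(f i j * Real.log (f i j)) := by
    rw [← sum_add_distrib, ← sum_sub_distrib, ← sum_sub_distrib]
    refine sum_congr rfl fun i _ => ?_
    rw [← sum_add_distrib, ← sum_sub_distrib, ← sum_sub_distrib]
    refine sum_congr rfl fun j _ => ?_
    ring
  rw [← e7]
  refine le_trans (le_of_eq ?_) hmain
  have e8 : ∑ i ∈ range s, ∑ j ∈ range t, (Φ i j + (f i j - r i * c j / P)) =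
      (∑ i ∈ range s, ∑ j ∈ range t, Φ i j) +
      ∑ i ∈ range s, ∑ j ∈ range t, (f i j - r i * c j / P) := by
    rw [← sum_add_distrib]
    refine sum_congr rfl fun i _ => ?_
    rw [← sum_add_distrib]
  rw [e8, e6, add_zero]

theorem mi_nonneg {s t : ℕ} {f : ℕ → ℕ → ℝ} (hf : ∀ i j, 0 ≤ f i j) : 0 ≤ mi s t f := by
  have h := MiIneq_main (s := s) (t := t) f hf rfl (fun _ _ => 0) (fun i _ j _ _ => by
      have h1 : 0 ≤ ∑ j ∈ range t, f i j := sum_nonneg fun j _ => hf i j
      have h2 : 0 ≤ ∑ i ∈ range s, f i j := sum_nonneg fun i _ => hf i j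
      have h3 : 0 ≤ ∑ i ∈ range s, ∑ j ∈ range t, f i j :=
        sum_nonneg fun i _ => sum_nonneg fun j _ => hf i j
      positivity)
    (fun i _ j _ h1 h2 h3 h4 => by
      rw [zero_add]
      exact MiIneq_term h1 h2 h3 h4)
  simpa using h

theorem mi_zero {s t : ℕ} {f : ℕ → ℕ → ℝ} (hf : ∀ i j, 0 ≤ f i j) :
    ∑ z ∈ (range s ×ˢ range t).filter (fun z => f z.1 z.2 = 0),
      (∑ j ∈ range t, f z.1 j) * (∑ i ∈ range s, f i z.2) /
        (∑ i ∈ range s, ∑ j ∈ range t, f i j) ≤ mi s t f := by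
  have h := MiIneq_main (s := s) (t := t) f hf rfl (fun i j => if f i j = 0 then
      (∑ j ∈ range t, f i j) * (∑ i ∈ range s, f i j) /
        (∑ i ∈ range s, ∑ j ∈ range t, f i j) else 0) (fun i _ j _ h0 => by
      simp only [if_pos h0]
      exact le_rfl)
    (fun i _ j _ h1 h2 h3 h4 => by
      simp only [if_neg h1.ne', zero_add]
      exact MiIneq_term h1 h2 h3 h4)
  refine le_trans (le_of_eq ?_) h
  rw [sum_filter, sum_product]

theorem mi_half {s t : ℕ} {f : ℕ → ℕ → ℝ} (hf : ∀ i j, 0 ≤ f i j) :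
    ∑ z ∈ (range s ×ˢ range t).filter (fun z =>
        2 * (f z.1 z.2 * ∑ i ∈ range s, ∑ j ∈ range t, f i j) <
          (∑ j ∈ range t, f z.1 j) * (∑ i ∈ range s, f i z.2)),
      (∑ j ∈ range t, f z.1 j) * (∑ i ∈ range s, f i z.2) /
        (∑ i ∈ range s, ∑ j ∈ range t, f i j) ≤ 7 * mi s t f := by
  have hP0 : 0 ≤ ∑ i ∈ range s, ∑ j ∈ range t, f i j :=
    sum_nonneg fun i _ => sum_nonneg fun j _ => hf i j
  have h := MiIneq_main (s := s) (t := t) f hf rfl (fun i j => if
      2 * (f i j * ∑ i ∈ range s, ∑ j ∈ range t, f i j) <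
          (∑ j ∈ range t, f i j) * (∑ i ∈ range s, f i j) then
      (∑ j ∈ range t, f i j) * (∑ i ∈ range s, f i j) /
        (∑ i ∈ range s, ∑ j ∈ range t, f i j) / 7 else 0) (fun i _ j _ h0 => by
      have h1 : 0 ≤ ∑ j ∈ range t, f i j := sum_nonneg fun j _ => hf i j
      have h2 : 0 ≤ ∑ i ∈ range s, f i j := sum_nonneg fun i _ => hf i j
      have h3 : 0 ≤ (∑ j ∈ range t, f i j) * (∑ i ∈ range s, f i j) /
        (∑ i ∈ range s, ∑ j ∈ range t, f i j) := by positivity
      show (if _ then _ else _) ≤ _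
      split_ifs
      · exact div_le_self h3 (by norm_num)
      · exact h3)
    (fun i _ j _ h1 h2 h3 h4 => by
      show (if _ then _ else _) + _ ≤ _
      split_ifs with h5
      · exact MiIneq_half h1 h2 h3 h4 h5
      · rw [zero_add]
        exact MiIneq_term h1 h2 h3 h4)
  have h7 := mul_le_mul_of_nonneg_left h (by norm_num : (0 : ℝ) ≤ 7)
  refine le_trans (le_of_eq ?_) h7
  rw [sum_filter, sum_product, mul_sum]
  refine sum_congr rfl fun i _ => ?_
  rw [mul_sum]
  refine sum_congr rfl fun j _ => ?_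
  dsimp only
  split_ifs
  · ring
  · ring

private theorem MiIneq_df {s : ℕ} (r : ℕ → ℝ) {P : ℝ} (hP : ∑ i ∈ range s, r i = P) :
    df s r = ∑ i ∈ range s, (r i * Real.log s - r i * (Real.log P - Real.log (r i))) := by
  unfold df
  have h1 : Real.negMulLog P = ∑ i ∈ range s, -(r i * Real.log P) := by
    rw [sum_neg_distrib, ← sum_mul, hP, Real.negMulLog]
    ring
  rw [hP, h1, ← hP, sum_mul, ← sum_sub_distrib, ← sum_sub_distrib]
  refine sum_congr rfl fun i _ => ?_
  rw [hP, Real.negMulLog]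
  ring

theorem df_nonneg {s : ℕ} {r : ℕ → ℝ} (hr : ∀ i, 0 ≤ r i) : 0 ≤ df s r := by
  rcases Nat.eq_zero_or_pos s with hs | hs
  · subst hs
    simp [df]
  · have hs' : (0 : ℝ) < s := by exact_mod_cast hs
    obtain ⟨P, hP⟩ : ∃ P, ∑ i ∈ range s, r i = P := ⟨_, rfl⟩
    have hrP : ∀ i ∈ range s, r i ≤ P := fun i hi => by
      rw [← hP]
      exact single_le_sum (f := fun i => r i) (fun i _ => hr i) hi
    rw [MiIneq_df r hP]
    have h1 : ∑ i ∈ range s, (r i - P / s) ≤
        ∑ i ∈ range s, (r i * Real.log s - r i * (Real.log P - Real.log (r i))) := by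
      refine sum_le_sum fun i hi => ?_
      have h2 := MiIneq_term2 hs (hr i) (hrP i hi)
      linarith
    refine le_trans (le_of_eq ?_) h1
    rw [sum_sub_distrib, hP, sum_const, card_range, nsmul_eq_mul]
    field_simp
    ring

theorem df_atoms {s : ℕ} {r : ℕ → ℝ} (hr : ∀ i, 0 ≤ r i) {τ : ℝ} (hτ : 0 < τ)
    (hs : 1 ≤ τ * s) :
    (∑ i ∈ (range s).filter (fun i => τ * ∑ j ∈ range s, r j < r i), r i) * Real.log (τ * s) ≤
      df s r + ∑ i ∈ range s, r i := by
  have hs1 : 1 ≤ s := by
    rcases Nat.eq_zero_or_pos s with h | h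
    · subst h
      norm_num at hs
    · exact h
  have hs' : (0 : ℝ) < s := by exact_mod_cast hs1
  obtain ⟨P, hP⟩ : ∃ P, ∑ i ∈ range s, r i = P := ⟨_, rfl⟩
  have hP0 : 0 ≤ P := hP ▸ sum_nonneg fun i _ => hr i
  have hrP : ∀ i ∈ range s, r i ≤ P := fun i hi => by
    rw [← hP]
    exact single_le_sum (f := fun i => r i) (fun i _ => hr i) hi
  rw [MiIneq_df r hP, hP, sum_filter, sum_mul]
  have h1 : ∑ i ∈ range s, (if τ * P < r i then r i else 0) * Real.log (τ * s) ≤
      ∑ i ∈ range s, ((r i * Real.log s - r i * (Real.log P - Real.log (r i))) + P / s) := by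
    refine sum_le_sum fun i hi => ?_
    split_ifs with h2
    · have hri : 0 < r i := lt_of_le_of_lt (by positivity) h2
      have hPp : 0 < P := hri.trans_le (hrP i hi)
      have h3 : Real.log (τ * s) ≤ Real.log (r i * s / P) := by
        refine Real.log_le_log (by positivity) ?_
        rw [le_div_iff₀ hPp]
        nlinarith
      have h4 : Real.log (r i * s / P) = Real.log (r i) + Real.log s - Real.log P := by
        rw [Real.log_div (by positivity) hPp.ne', Real.log_mul hri.ne' hs'.ne']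
      rw [h4] at h3
      have h5 := mul_le_mul_of_nonneg_left h3 hri.le
      have h6 : 0 ≤ P / s := by positivity
      nlinarith
    · rw [zero_mul]
      have h2 := MiIneq_term2 hs1 (hr i) (hrP i hi)
      have h3 := hr i
      linarith
  refine h1.trans (le_of_eq ?_)
  rw [sum_add_distrib, sum_const, card_range, nsmul_eq_mul]
  congr 1
  field_simp

end FTT
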