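import Pool.Agent.FTT.Marg
import Pool.Agent.FTT.MiIneq

/-!
# FTT.Ent: entropies of pairs of prefixes

`H D p N n S T` is the entropy of (first `S` digits of `x`, first `T` digits of `y`).
PROOF of `ent_mi`: the summand is `∑_a nml (mg (N-S-i) (n-T) (u D^i + a) v) + ∑_b nml (mg (N-S) (n-T-j) u (v D^j + b))
- nml (mg (N-S) (n-T) u v) - ∑_{a,b} nml (mg (N-S-i) (n-T-j) ..)` (by `mg_rows`, `mg_cols`); sum over `u < D^S`, `v < D^T`
and use `FHT.sum_digits` (`∑_{z < m q} = ∑_{u < m} ∑_{i < q}` at `u q + i`, `D^(S+i) = D^S D^i`).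
PROOF of `ent_df`: the same, the total mass is `1` (`FHT.mg_total`), `log (D^i) = i log D`.
`ent_sub`: `ent_mi` with `i = j = 1` and `mi_nonneg`. `ent_x`: `ent_df` with `i = 1` and `df_nonneg`.
`ent_y`: `H 0 n ≤ n log D` and `ent_mono`: `H N 0 ≤ H N n`: by the same formulas in the second variable (or: for fixed `x`,
`∑_y nml (p x y) ≥ nml (∑_y p x y)`, since `nml` is subadditive: `∑ -p log p ≥ ∑ -p log (∑ p)`), `H 0 n ≤ log (D^n)`.
-/

namespace FTT

open Finset FHT

/-- entropy of the first `S` digits of `x` and the first `T` digits of `y` -/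
noncomputable def H (D : ℕ) (p : ℕ → ℕ → ℝ) (N n S T : ℕ) : ℝ :=
  ∑ u ∈ range (D ^ S), ∑ v ∈ range (D ^ T), Real.negMulLog (mg D p (N - S) (n - T) u v)

variable {D N n : ℕ} {p : ℕ → ℕ → ℝ}

private theorem H_x {i S T : ℕ} :
    H D p N n (S + i) T = ∑ u ∈ range (D ^ S), ∑ v ∈ range (D ^ T), ∑ a ∈ range (D ^ i),
      Real.negMulLog (mg D p (N - S - i) (n - T) (u * D ^ i + a) v) := by
  unfold H
  rw [pow_add, sum_digits]
  refine Finset.sum_congr rfl fun u _ => ?_
  rw [Finset.sum_comm, Nat.sub_sub]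

private theorem H_y {j S T : ℕ} :
    H D p N n S (T + j) = ∑ u ∈ range (D ^ S), ∑ v ∈ range (D ^ T), ∑ b ∈ range (D ^ j),
      Real.negMulLog (mg D p (N - S) (n - T - j) u (v * D ^ j + b)) := by
  unfold H
  refine Finset.sum_congr rfl fun u _ => ?_
  rw [pow_add, sum_digits, Nat.sub_sub]

private theorem H_xy {i j S T : ℕ} :
    H D p N n (S + i) (T + j) = ∑ u ∈ range (D ^ S), ∑ v ∈ range (D ^ T), ∑ a ∈ range (D ^ i),
      ∑ b ∈ range (D ^ j),
      Real.negMulLog (mg D p (N - S - i) (n - T - j) (u * D ^ i + a) (v * D ^ j + b)) := by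
  rw [H_x, ← Nat.sub_sub n T j]
  refine Finset.sum_congr rfl fun u _ => ?_
  rw [pow_add, sum_digits]
  refine Finset.sum_congr rfl fun v _ => ?_
  rw [Finset.sum_comm]

theorem ent_mi {i j S T : ℕ} (hS : S + i ≤ N) (hT : T + j ≤ n) :
    ∑ u ∈ range (D ^ S), ∑ v ∈ range (D ^ T), mi (D ^ i) (D ^ j)
      (fun a b => mg D p (N - S - i) (n - T - j) (u * D ^ i + a) (v * D ^ j + b)) =
    H D p N n (S + i) T + H D p N n S (T + j) - H D p N n S T - H D p N n (S + i) (T + j) := by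
  have hN : N - S - i + i = N - S := by omega
  have hn : n - T - j + j = n - T := by omega
  have e1 : ∀ u v : ℕ, ∑ b ∈ range (D ^ j), mg D p (N - S - i) (n - T - j) u (v * D ^ j + b) =
      mg D p (N - S - i) (n - T) u v := by
    intro u v
    rw [← mg_cols, hn]
  have e2 : ∀ u v : ℕ, ∑ a ∈ range (D ^ i), mg D p (N - S - i) (n - T - j) (u * D ^ i + a) v =
      mg D p (N - S) (n - T - j) u v := by
    intro u v
    rw [← mg_rows, hN]
  have e3 : ∀ u v : ℕ, ∑ a ∈ range (D ^ i), mg D p (N - S - i) (n - T) (u * D ^ i + a) v =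
      mg D p (N - S) (n - T) u v := by
    intro u v
    rw [← mg_rows, hN]
  rw [H_x, H_y, H_xy]
  unfold H mi
  simp only [e1, e2, e3, Finset.sum_sub_distrib, Finset.sum_add_distrib]

theorem ent_df {i S T : ℕ} (hS : S + i ≤ N) (hT : T ≤ n)
    (h1 : ∑ x ∈ range (D ^ N), ∑ y ∈ range (D ^ n), p x y = 1) :
    ∑ u ∈ range (D ^ S), ∑ v ∈ range (D ^ T), df (D ^ i)
      (fun a => mg D p (N - S - i) (n - T) (u * D ^ i + a) v) =
    i * Real.log D - (H D p N n (S + i) T - H D p N n S T) := by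
  have hN : N - S - i + i = N - S := by omega
  have e3 : ∀ u v : ℕ, ∑ a ∈ range (D ^ i), mg D p (N - S - i) (n - T) (u * D ^ i + a) v =
      mg D p (N - S) (n - T) u v := by
    intro u v
    rw [← mg_rows, hN]
  have ht : ∑ u ∈ range (D ^ S), ∑ v ∈ range (D ^ T), mg D p (N - S) (n - T) u v = 1 := by
    rw [mg_total, Nat.add_sub_cancel' (by omega : S ≤ N), Nat.add_sub_cancel' hT, h1]
  rw [H_x]
  unfold H df
  simp only [e3, Finset.sum_sub_distrib, ← Finset.sum_mul, ht]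
  rw [Nat.cast_pow, Real.log_pow, one_mul]

theorem ent_sub (hp : ∀ x y, 0 ≤ p x y) {S T : ℕ} (hS : S < N) (hT : T < n) :
    H D p N n (S + 1) (T + 1) + H D p N n S T ≤ H D p N n (S + 1) T + H D p N n S (T + 1) := by
  have h := ent_mi (D := D) (p := p) (i := 1) (j := 1) (S := S) (T := T) hS hT
  have h0 : 0 ≤ ∑ u ∈ range (D ^ S), ∑ v ∈ range (D ^ T), mi (D ^ 1) (D ^ 1)
      (fun a b => mg D p (N - S - 1) (n - T - 1) (u * D ^ 1 + a) (v * D ^ 1 + b)) :=
    Finset.sum_nonneg fun u _ => Finset.sum_nonneg fun v _ =>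
      mi_nonneg fun a b => mg_nonneg hp _ _ _ _
  rw [h] at h0
  linarith

theorem ent_x (hp : ∀ x y, 0 ≤ p x y) {S T : ℕ} (hS : S < N) (hT : T ≤ n)
    (h1 : ∑ x ∈ range (D ^ N), ∑ y ∈ range (D ^ n), p x y = 1) :
    H D p N n (S + 1) T - H D p N n S T ≤ Real.log D := by
  have h := ent_df (D := D) (p := p) (i := 1) (S := S) (T := T) hS hT h1
  have h0 : 0 ≤ ∑ u ∈ range (D ^ S), ∑ v ∈ range (D ^ T), df (D ^ 1)
      (fun a => mg D p (N - S - 1) (n - T) (u * D ^ 1 + a) v) :=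
    Finset.sum_nonneg fun u _ => Finset.sum_nonneg fun v _ =>
      df_nonneg fun a => mg_nonneg hp _ _ _ _
  rw [h] at h0
  push_cast at h0
  linarith

theorem ent_zero (h1 : ∑ x ∈ range (D ^ N), ∑ y ∈ range (D ^ n), p x y = 1) :
    H D p N n 0 0 = 0 := by
  unfold H mg
  simp only [pow_zero, Finset.sum_range_one, Nat.sub_zero, zero_mul, zero_add]
  rw [h1, Real.negMulLog_one]

theorem ent_full : H D p N n N 0 =
    ∑ x ∈ range (D ^ N), Real.negMulLog (∑ y ∈ range (D ^ n), p x y) := by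
  unfold H mg
  simp only [pow_zero, Finset.sum_range_one, Nat.sub_zero, Nat.sub_self, zero_mul, zero_add,
    mul_one, add_zero]

theorem ent_y (hD : 1 ≤ D) (hp : ∀ x y, 0 ≤ p x y)
    (h1 : ∑ x ∈ range (D ^ N), ∑ y ∈ range (D ^ n), p x y = 1) :
    H D p N n 0 n ≤ n * Real.log D := by
  have h := df_nonneg (s := D ^ n) (r := fun v => mg D p N 0 0 v) fun v => mg_nonneg hp _ _ _ _
  have ht : ∑ v ∈ range (D ^ n), mg D p N 0 0 v = 1 := by
    have h2 := mg_total D p N 0 0 n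
    rw [pow_zero, Finset.sum_range_one, zero_add, add_zero, h1] at h2
    exact h2
  have hH : H D p N n 0 n = ∑ v ∈ range (D ^ n), Real.negMulLog (mg D p N 0 0 v) := by
    unfold H
    rw [pow_zero, Finset.sum_range_one, Nat.sub_zero, Nat.sub_self]
  unfold df at h
  rw [ht, Real.negMulLog_one, Nat.cast_pow, Real.log_pow, ← hH] at h
  linarith

private theorem nml_sum_le {ι : Type*} (s : Finset ι) (f : ι → ℝ) (hf : ∀ i ∈ s, 0 ≤ f i) :
    Real.negMulLog (∑ i ∈ s, f i) ≤ ∑ i ∈ s, Real.negMulLog (f i) := by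
  unfold Real.negMulLog
  rw [← Finset.sum_neg_distrib, Finset.sum_mul]
  refine Finset.sum_le_sum fun i hi => ?_
  rcases (hf i hi).eq_or_lt with h0 | h0
  · rw [← h0, neg_zero, zero_mul, zero_mul]
  · have h2 : f i ≤ ∑ i ∈ s, f i := Finset.single_le_sum hf hi
    have h3 := Real.log_le_log h0 h2
    nlinarith

theorem ent_mono (hp : ∀ x y, 0 ≤ p x y) : H D p N n N 0 ≤ H D p N n N n := by
  rw [ent_full]
  have h : H D p N n N n = ∑ x ∈ range (D ^ N), ∑ y ∈ range (D ^ n), Real.negMulLog (p x y) := by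
    unfold H
    simp only [Nat.sub_self, mg_zero]
  rw [h]
  exact Finset.sum_le_sum fun x _ => nml_sum_le _ _ fun y _ => hp x y

end FTT
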