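import Pool.Agent.FTT.UB

/-!
# FTT.Final: the upper bound for all permutations

PROOF. For `k ≥ 2` let `m = ⌈k^(1/3)⌉`, `q = (k + m - 1)/m` (so `k ≤ m q`, `q ≤ k/m + 1 ≤ 2 k^(2/3)`), `L = 750 + 5 (Nat.log 2 q + 4)`
(`8 q ≤ 2^(Nat.log 2 q + 4) ≤ 2^(L/5)`), `g = m + 100 ≤ 101 m`, `n = 128 q L + 8 g m L + 2 g^2 L + 100 g`. As `m ≤ 2 k^(1/3)` and
`Nat.log 2 q ≤ 2 log k`, `1 ≤ 2 log k`: `L ≤ C1 log k`, `n ≤ C2 k^(2/3) L`, so `2 L n (2^14 + 1) + 3 ≤ C k^(2/3) (log k)^2`.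
`FHT.ex n σ` is the supremum of the cards of the `A ⊆ range n ×ˢ range n` which do not contain `σ`; use `ub`.
-/

namespace FTT

open Finset FHT

/-- The real estimate of the exponent. -/
private theorem Final_real {c y m q L g : ℝ} (hc : 1 ≤ c) (hy : 0.69 ≤ y) (hm0 : 0 ≤ m)
    (hm : m ≤ 2 * c) (hq0 : 0 ≤ q) (hq : q ≤ 2 * c ^ 2) (hL1 : 1 ≤ L) (hL : L ≤ 1130 * y)
    (hg0 : 0 ≤ g) (hg : g ≤ 202 * c) :
    2 * L * (128 * q * L + 8 * g * m * L + 2 * g ^ 2 * L + 100 * g) * (2 ^ 14 + 1) + 3 ≤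
      (2 * 105296 * 16385 * 1130 ^ 2 + 10) * c ^ 2 * y ^ 2 := by
  have hc2 : c ≤ c ^ 2 := by nlinarith
  have hc21 : 1 ≤ c ^ 2 := by nlinarith
  have hgm : g * m ≤ 202 * c * (2 * c) := mul_le_mul hg hm hm0 (by positivity)
  have hgg : g ^ 2 ≤ (202 * c) ^ 2 := pow_le_pow_left₀ hg0 hg 2
  have hL0 : 0 ≤ L := by linarith
  have e1 : 128 * q * L ≤ 256 * c ^ 2 * L := by
    refine mul_le_mul_of_nonneg_right ?_ hL0
    linarith
  have e2 : 8 * g * m * L ≤ 3232 * c ^ 2 * L := by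
    refine mul_le_mul_of_nonneg_right ?_ hL0
    calc 8 * g * m = 8 * (g * m) := by ring
      _ ≤ 8 * (202 * c * (2 * c)) := by linarith
      _ = 3232 * c ^ 2 := by ring
  have e3 : 2 * g ^ 2 * L ≤ 81608 * c ^ 2 * L := by
    refine mul_le_mul_of_nonneg_right ?_ hL0
    calc 2 * g ^ 2 ≤ 2 * (202 * c) ^ 2 := by linarith
      _ = 81608 * c ^ 2 := by ring
  have e4 : 100 * g ≤ 20200 * c ^ 2 * L := by
    have h1 : c ^ 2 ≤ c ^ 2 * L := le_mul_of_one_le_right (by positivity) hL1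
    linarith
  have hn : 128 * q * L + 8 * g * m * L + 2 * g ^ 2 * L + 100 * g ≤ 105296 * c ^ 2 * L := by
    linarith
  have hLL : L ^ 2 ≤ (1130 * y) ^ 2 := pow_le_pow_left₀ hL0 hL 2
  have hy2 : (0.69 : ℝ) ^ 2 ≤ y ^ 2 := pow_le_pow_left₀ (by norm_num) hy 2
  have h3 : (3 : ℝ) ≤ 10 * (c ^ 2 * y ^ 2) := by
    have h4 : (0.69 : ℝ) ^ 2 ≤ c ^ 2 * y ^ 2 := by
      calc (0.69 : ℝ) ^ 2 = 1 * 0.69 ^ 2 := by ring
        _ ≤ c ^ 2 * y ^ 2 := mul_le_mul hc21 hy2 (by norm_num) (by positivity)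
    norm_num at h4 ⊢
    linarith
  calc 2 * L * (128 * q * L + 8 * g * m * L + 2 * g ^ 2 * L + 100 * g) * (2 ^ 14 + 1) + 3
      ≤ 2 * L * (105296 * c ^ 2 * L) * (2 ^ 14 + 1) + 3 := by
        have h5 := mul_le_mul_of_nonneg_left hn (by linarith : (0 : ℝ) ≤ 2 * L)
        linarith
    _ = 2 * 105296 * 16385 * c ^ 2 * L ^ 2 + 3 := by ring
    _ ≤ 2 * 105296 * 16385 * c ^ 2 * (1130 * y) ^ 2 + 10 * (c ^ 2 * y ^ 2) := by
        have h6 := mul_le_mul_of_nonneg_left hLL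
          (by positivity : (0 : ℝ) ≤ 2 * 105296 * 16385 * c ^ 2)
        linarith
    _ = (2 * 105296 * 16385 * 1130 ^ 2 + 10) * c ^ 2 * y ^ 2 := by ring

theorem final : ∃ C : ℝ, 0 < C ∧ ∀ (k : ℕ), 2 ≤ k → ∀ (σ : Equiv.Perm (Fin k)) (n : ℕ),
    (ex n σ : ℝ) ≤ 2 ^ (C * (k : ℝ) ^ ((2 : ℝ) / 3) * Real.log k ^ 2) * n := by
  refine ⟨2 * 105296 * 16385 * 1130 ^ 2 + 10, by norm_num, ?_⟩
  intro k hk σ N
  have hk1 : (1 : ℝ) ≤ k := by
    have : 1 ≤ k := by omega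
    exact_mod_cast this
  have hk0 : (0 : ℝ) < k := by linarith
  obtain ⟨c, hcdef⟩ : ∃ c : ℝ, c = (k : ℝ) ^ ((1 : ℝ) / 3) := ⟨_, rfl⟩
  have hc1 : 1 ≤ c := by
    rw [hcdef]
    exact Real.one_le_rpow hk1 (by norm_num)
  have hc2 : (k : ℝ) ^ ((2 : ℝ) / 3) = c ^ 2 := by
    rw [hcdef, ← Real.rpow_natCast, ← Real.rpow_mul hk0.le]
    norm_num
  have hc3 : (k : ℝ) = c ^ 3 := by
    rw [hcdef, ← Real.rpow_natCast, ← Real.rpow_mul hk0.le]
    norm_num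
  have hl2 : (0.69 : ℝ) < Real.log 2 := by
    have := Real.log_two_gt_d9
    linarith
  have hy : 0.69 ≤ Real.log k := by
    have h1 : Real.log 2 ≤ Real.log k := by
      apply Real.log_le_log (by norm_num)
      exact_mod_cast hk
    linarith
  obtain ⟨m, hm⟩ : ∃ m : ℕ, m = ⌈c⌉₊ := ⟨_, rfl⟩
  have hm1 : c ≤ m := by
    rw [hm]
    exact Nat.le_ceil _
  have hm2 : (m : ℝ) ≤ 2 * c := by
    have h1 := Nat.ceil_lt_add_one (by linarith : (0 : ℝ) ≤ c)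
    rw [← hm] at h1
    linarith
  have hm3 : 1 ≤ m := by
    have : (1 : ℝ) ≤ m := by linarith
    exact_mod_cast this
  obtain ⟨q, hq⟩ : ∃ q : ℕ, q = (k + m - 1) / m := ⟨_, rfl⟩
  have hq1 : 1 ≤ q := by
    rw [hq, Nat.le_div_iff_mul_le (by omega)]
    omega
  have hq2 : k ≤ m * q := by
    have h1 := Nat.lt_mul_div_succ (k + m - 1) (by omega : 0 < m)
    rw [← hq, Nat.mul_add, Nat.mul_one] at h1
    omega
  have hq3 : m * q ≤ k + m - 1 := by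
    rw [hq]
    exact Nat.mul_div_le _ _
  have hq4 : (q : ℝ) ≤ 2 * c ^ 2 := by
    have h1 : (m : ℝ) * q ≤ k + m := by
      have : m * q ≤ k + m := by omega
      exact_mod_cast this
    have h2 : (m : ℝ) * (q - 1) ≤ c ^ 3 := by
      rw [← hc3]
      linarith
    have h3 : (0 : ℝ) ≤ (q : ℝ) - 1 := by
      have : (1 : ℝ) ≤ q := by exact_mod_cast hq1
      linarith
    have h4 : c * ((q : ℝ) - 1) ≤ c * c ^ 2 := by
      calc c * ((q : ℝ) - 1) ≤ m * (q - 1) := mul_le_mul_of_nonneg_right hm1 h3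
        _ ≤ c ^ 3 := h2
        _ = c * c ^ 2 := by ring
    have h5 : (q : ℝ) - 1 ≤ c ^ 2 := le_of_mul_le_mul_left h4 (by linarith)
    have h6 : 1 ≤ c ^ 2 := by nlinarith
    linarith
  have hq5 : q ≤ k := by
    by_contra h0
    have h1 : k + 1 ≤ q := by omega
    have h2 : m * (k + 1) ≤ m * q := Nat.mul_le_mul_left m h1
    have h3 : m * (k + 1) = m * k + m := by ring
    have h4 : k ≤ m * k := Nat.le_mul_of_pos_left k (by omega)
    omega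
  obtain ⟨w, hw⟩ : ∃ w : ℕ, w = Nat.log 2 q := ⟨_, rfl⟩
  have hw1 : 2 ^ w ≤ q := by
    rw [hw]
    exact Nat.pow_log_le_self 2 (by omega)
  have hw2 : q < 2 ^ (w + 1) := by
    rw [hw]
    exact Nat.lt_pow_succ_log_self (by norm_num) q
  have hw3 : (w : ℝ) ≤ 2 * Real.log k := by
    have h1 : (2 : ℝ) ^ w ≤ k := by
      have : 2 ^ w ≤ k := le_trans hw1 hq5
      exact_mod_cast this
    have h2 := Real.log_le_log (by positivity) h1
    rw [Real.log_pow] at h2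
    have h3 : (w : ℝ) * 0.69 ≤ w * Real.log 2 :=
      mul_le_mul_of_nonneg_left hl2.le (Nat.cast_nonneg w)
    linarith
  obtain ⟨L, hL⟩ : ∃ L : ℕ, L = 750 + 5 * (w + 4) := ⟨_, rfl⟩
  have hL1 : (L : ℝ) ≤ 1130 * Real.log k := by
    rw [hL]
    push_cast
    linarith
  have hL2 : 8 * q ≤ 2 ^ (L / 5) := by
    have h1 : L / 5 = w + 1 + 153 := by omega
    rw [h1, pow_add]
    have h2 : 8 ≤ 2 ^ 153 := by norm_num
    calc 8 * q ≤ 2 ^ 153 * 2 ^ (w + 1) := Nat.mul_le_mul h2 hw2.le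
      _ = 2 ^ (w + 1) * 2 ^ 153 := by ring
  obtain ⟨g, hg⟩ : ∃ g : ℕ, g = m + 100 := ⟨_, rfl⟩
  have hg1 : (g : ℝ) ≤ 202 * c := by
    rw [hg]
    push_cast
    linarith
  obtain ⟨n, hn⟩ : ∃ n : ℕ, n = 128 * q * L + 8 * g * m * L + 2 * g ^ 2 * L + 100 * g := ⟨_, rfl⟩
  have hub : ex N σ ≤ 2 ^ (2 * L * n * (2 ^ 14 + 1) + 3) * N := by
    classical
    unfold ex
    refine Finset.sup_le fun A hA => ?_
    rw [mem_filter, mem_powerset] at hA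
    exact ub (q := q) (m := m) (L := L) (n := n) (g := g) σ hq1 hq2 hm3 hg (by omega) hL2
      (by rw [hn]; omega) (by rw [hn]; omega) (by rw [hn]; omega) (by rw [hn]; omega) N A hA.1 hA.2
  have h2 : (ex N σ : ℝ) ≤ (2 : ℝ) ^ (2 * L * n * (2 ^ 14 + 1) + 3) * N := by exact_mod_cast hub
  refine le_trans h2 (mul_le_mul_of_nonneg_right ?_ (Nat.cast_nonneg N))
  rw [← Real.rpow_natCast, hc2]
  refine Real.rpow_le_rpow_of_exponent_le (by norm_num) ?_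
  have h3 := Final_real (c := c) (y := Real.log k) (m := m) (q := q) (L := L) (g := g) hc1 hy
    (Nat.cast_nonneg m) hm2 (Nat.cast_nonneg q) hq4
    (by
      have : 1 ≤ L := by omega
      exact_mod_cast this) hL1 (Nat.cast_nonneg g) hg1
  refine le_trans (le_of_eq ?_) h3
  rw [hn]
  push_cast
  ring

end FTT
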