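import Pool.Agent.FTT.Ent

/-!
# FTT.JSum: sums of the six functionals over all windows at a given position

PROOF. Rewrite the marginals in `J1, ..., J6` with `w_mAaB`, ... (`J1` uses `wnd` itself), then combine the sums over
`u < D^S`, `A < D^g` to a sum over `u' < D^(S+g)` (`FHT.sum_digits`, `D^(S+g) = D^S D^g`), similarly for `v`, `B`, and apply
`ent_mi` resp. `ent_df`:
`J1`: at `(S+g, T+g)` with `i = j = 1`; `J2`: at `(S+g, T)` with `i = 1`, `j = g`; `J3`: at `(S, T+g)` with `i = g`, `j = 1`;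
`J4`: at `(S, T)` with `i = j = g`; `J5`: at `(S, T)` with `i = g`; `J6`: at `(S+g, T)` with `i = 1` (`D ^ 1 = D`).
-/

namespace FTT

open Finset FHT

variable {D N n g S T : ℕ} {p : ℕ → ℕ → ℝ}

private theorem js_x (F : ℕ → ℕ → ℝ) :
    ∑ u ∈ range (D ^ (S + g)), ∑ v ∈ range (D ^ T), F u v =
      ∑ u ∈ range (D ^ S), ∑ v ∈ range (D ^ T), ∑ A ∈ range (D ^ g), F (u * D ^ g + A) v := by
  rw [pow_add, sum_digits]
  refine Finset.sum_congr rfl fun u _ => ?_
  rw [Finset.sum_comm]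

private theorem js_y (F : ℕ → ℕ → ℝ) :
    ∑ u ∈ range (D ^ S), ∑ v ∈ range (D ^ (T + g)), F u v =
      ∑ u ∈ range (D ^ S), ∑ v ∈ range (D ^ T), ∑ B ∈ range (D ^ g), F u (v * D ^ g + B) := by
  refine Finset.sum_congr rfl fun u _ => ?_
  rw [pow_add, sum_digits]

private theorem js_xy (F : ℕ → ℕ → ℝ) :
    ∑ u ∈ range (D ^ (S + g)), ∑ v ∈ range (D ^ (T + g)), F u v =
      ∑ u ∈ range (D ^ S), ∑ v ∈ range (D ^ T), ∑ A ∈ range (D ^ g), ∑ B ∈ range (D ^ g),
        F (u * D ^ g + A) (v * D ^ g + B) := by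
  rw [js_x]
  refine Finset.sum_congr rfl fun u _ => ?_
  rw [pow_add, sum_digits]
  refine Finset.sum_congr rfl fun v _ => ?_
  rw [Finset.sum_comm]

theorem sum_J1 (hS : S + g < N) (hT : T + g < n) :
    ∑ u ∈ range (D ^ S), ∑ v ∈ range (D ^ T), J1 (D ^ g) D (wnd D p N n g S T u v) =
      H D p N n (S + g + 1) (T + g) + H D p N n (S + g) (T + g + 1) - H D p N n (S + g) (T + g) -
        H D p N n (S + g + 1) (T + g + 1) := by
  have h := ent_mi (D := D) (p := p) (i := 1) (j := 1) (S := S + g) (T := T + g) (N := N) (n := n)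
    (by omega) (by omega)
  rw [← h, js_xy]
  simp only [pow_one, ← Nat.sub_sub]
  rfl

theorem sum_J2 (hS : S + g < N) (hT : T + g < n) :
    ∑ u ∈ range (D ^ S), ∑ v ∈ range (D ^ T), J2 (D ^ g) D (wnd D p N n g S T u v) =
      H D p N n (S + g + 1) T + H D p N n (S + g) (T + g) - H D p N n (S + g) T -
        H D p N n (S + g + 1) (T + g) := by
  have h := ent_mi (D := D) (p := p) (i := 1) (j := g) (S := S + g) (T := T) (N := N) (n := n)
    (by omega) (by omega)
  rw [← h, js_x]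
  unfold J2
  simp only [pow_one, ← Nat.sub_sub, w_mAaB hS hT]

theorem sum_J3 (hS : S + g < N) (hT : T + g < n) :
    ∑ u ∈ range (D ^ S), ∑ v ∈ range (D ^ T), J3 (D ^ g) D (wnd D p N n g S T u v) =
      H D p N n (S + g) (T + g) + H D p N n S (T + g + 1) - H D p N n S (T + g) -
        H D p N n (S + g) (T + g + 1) := by
  have h := ent_mi (D := D) (p := p) (i := g) (j := 1) (S := S) (T := T + g) (N := N) (n := n)
    (by omega) (by omega)
  rw [← h, js_y]
  unfold J3
  simp only [pow_one, ← Nat.sub_sub, w_mABb hS hT]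

theorem sum_J4 (hS : S + g < N) (hT : T + g < n) :
    ∑ u ∈ range (D ^ S), ∑ v ∈ range (D ^ T), J4 (D ^ g) D (wnd D p N n g S T u v) =
      H D p N n (S + g) T + H D p N n S (T + g) - H D p N n S T - H D p N n (S + g) (T + g) := by
  have h := ent_mi (D := D) (p := p) (i := g) (j := g) (S := S) (T := T) (N := N) (n := n)
    (by omega) (by omega)
  rw [← h]
  unfold J4
  simp only [w_mAB hS hT]

theorem sum_J5 (hS : S + g < N) (hT : T + g < n)
    (h1 : ∑ x ∈ range (D ^ N), ∑ y ∈ range (D ^ n), p x y = 1) :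
    ∑ u ∈ range (D ^ S), ∑ v ∈ range (D ^ T), J5 (D ^ g) D (wnd D p N n g S T u v) =
      g * Real.log D - (H D p N n (S + g) T - H D p N n S T) := by
  have h := ent_df (D := D) (p := p) (i := g) (S := S) (T := T) (N := N) (n := n)
    (by omega) (by omega) h1
  rw [← h]
  unfold J5
  simp only [w_mA hS hT]

theorem sum_J6 (hS : S + g < N) (hT : T + g < n)
    (h1 : ∑ x ∈ range (D ^ N), ∑ y ∈ range (D ^ n), p x y = 1) :
    ∑ u ∈ range (D ^ S), ∑ v ∈ range (D ^ T), J6 (D ^ g) D (wnd D p N n g S T u v) =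
      Real.log D - (H D p N n (S + g + 1) T - H D p N n (S + g) T) := by
  have h := ent_df (D := D) (p := p) (i := 1) (S := S + g) (T := T) (N := N) (n := n)
    (by omega) (by omega) h1
  rw [Nat.cast_one, one_mul] at h
  rw [← h, js_x]
  unfold J6
  simp only [pow_one, ← Nat.sub_sub, w_mAa hS hT]

theorem sum_mP (hS : S + g < N) (hT : T + g < n)
    (h1 : ∑ x ∈ range (D ^ N), ∑ y ∈ range (D ^ n), p x y = 1) :
    ∑ u ∈ range (D ^ S), ∑ v ∈ range (D ^ T), mP (D ^ g) D (wnd D p N n g S T u v) = 1 := by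
  simp only [w_mP hS hT]
  rw [mg_total, Nat.add_sub_cancel' (by omega : S ≤ N), Nat.add_sub_cancel' (by omega : T ≤ n), h1]

end FTT
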