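import Pool.Agent.FTT.Rows

/-!
# FTT.Law: the probability measure

PROOF of `law`. Apply `rows` with `W = D^N` (`ℓ ≥ 1` since `2^(L n) ≤ 16 ℓ^2` and `L ≥ 1500`); let `C = ∑_{i<n} c i` and
`p x y = 1 / (|X| 2^C)` if `x ∈ X` and `y ∈ F x`, and `0` otherwise. The total mass is `1`. For `x ∈ X` the mass of the row is
`1/|X|`, so the entropy of `x` is `log |X| ≥ N log D - n log (L+1) ≥ N log D - n log D`.
Bound for `C`: `2^(L n) ≤ 16 ℓ^2 ≤ 16 2^(2C) (2 (L+1))^(2n)`, and `2 (L+1) ≤ 2^(L/100)` for `L ≥ 1500`; so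
`L n ≤ 4 + 2 C + 2 n (L/100)`, `100 C ≥ 49 L n - 200 ≥ 48 L n`.
Last claim: for every `x` the sum over `y < D^(n-T-j)` of `p x (w D^(n-T-j) + y)` is `1/(|X| 2^C)` times the number of
`y' ∈ F x` with `y' / D^(n-(T+j)) = w` (for `x ∈ X`, otherwise both sides are `0`); by `Reg` it is `0` or `2^(c (T+j) + ... )`.
If it is not `0`, then the number of `y' ∈ F x` with `y' / D^(n-T) = w / D^j` is not `0` (`y' / D^(n-T) = (y' / D^(n-T-j)) / D^j`),
so it is `2^(c T + ... )`. Sum over `x`.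
-/

namespace FTT

open Finset FHT

private theorem law_pow {q : ℕ} (hq : 15 ≤ q) : 200 * (q + 1) ≤ 2 ^ q := by
  induction q, hq using Nat.le_induction with
  | base => norm_num
  | succ q hq ih => rw [pow_succ]; omega

private theorem law_num {L : ℕ} (hL : 1500 ≤ L) : 2 * (L + 1) ≤ 2 ^ (L / 100) := by
  have h := law_pow (q := L / 100) (by omega)
  omega

private theorem law_C {L n ℓ C : ℕ} (hL : 1500 ≤ L) (hn : 1 ≤ n)
    (hℓ : 2 ^ (L * n) ≤ 16 * ℓ ^ 2) (h : ℓ ≤ 2 ^ C * (2 * (L + 1)) ^ n) :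
    48 * (n * L) ≤ 100 * C := by
  have h1 : 2 ^ (L * n) ≤ 2 ^ (4 + 2 * C + 2 * (n * (L / 100))) := by
    calc 2 ^ (L * n) ≤ 16 * ℓ ^ 2 := hℓ
      _ ≤ 16 * (2 ^ C * (2 ^ (L / 100)) ^ n) ^ 2 := by
        refine Nat.mul_le_mul_left _ (Nat.pow_le_pow_left (h.trans ?_) 2)
        exact Nat.mul_le_mul_left _ (Nat.pow_le_pow_left (law_num hL) n)
      _ = 2 ^ (4 + 2 * C + 2 * (n * (L / 100))) := by
        rw [← pow_mul, ← pow_add, ← pow_mul, show (16 : ℕ) = 2 ^ 4 by norm_num, ← pow_add]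
        congr 1
        ring
  have h2 := (Nat.pow_le_pow_iff_right (by norm_num : 1 < 2)).1 h1
  have h3 : 100 * (L / 100) ≤ L := Nat.mul_div_le L 100
  have h4 : n * (100 * (L / 100)) ≤ n * L := Nat.mul_le_mul_left _ h3
  have h5 : 1500 ≤ n * L := le_trans hL (Nat.le_mul_of_pos_left L (by omega))
  have h6 : L * n = n * L := Nat.mul_comm _ _
  have h7 : n * (100 * (L / 100)) = 100 * (n * (L / 100)) := by ring
  omega

private theorem law_cnt {D b w : ℕ} (hD : 0 < D) (G : Finset ℕ) (κ : ℝ) :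
    ∑ y ∈ range (D ^ b), (if w * D ^ b + y ∈ G then κ else 0) =
      ((G.filter fun y => y / D ^ b = w).card : ℝ) * κ := by
  classical
  have hP : 0 < D ^ b := Nat.pow_pos hD
  rw [← Finset.sum_filter, Finset.sum_const, nsmul_eq_mul]
  congr 2
  refine Finset.card_bij (fun y _ => w * D ^ b + y) ?_ ?_ ?_
  · intro y hy
    rw [Finset.mem_filter, Finset.mem_range] at hy
    rw [Finset.mem_filter]
    refine ⟨hy.2, ?_⟩
    rw [Nat.add_comm, Nat.add_mul_div_right _ _ hP, Nat.div_eq_of_lt hy.1, Nat.zero_add]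
  · intro y _ z _ h
    exact Nat.add_left_cancel h
  · intro y hy
    rw [Finset.mem_filter] at hy
    refine ⟨y % D ^ b, ?_, ?_⟩
    · rw [Finset.mem_filter, Finset.mem_range]
      refine ⟨Nat.mod_lt _ hP, ?_⟩
      rw [← hy.2, Nat.mul_comm, Nat.div_add_mod]
      exact hy.1
    · rw [← hy.2, Nat.mul_comm, Nat.div_add_mod]

private theorem law_reg {D n T j w : ℕ} {c : ℕ → ℕ} {G : Finset ℕ} (hG : Reg D n c G)
    (hT : T + j ≤ n) :
    ((G.filter fun y => y / D ^ (n - T - j) = w).card : ℝ) ≤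
      (1 / 2 : ℝ) ^ (∑ i ∈ Ico T (T + j), c i) *
        ((G.filter fun y => y / D ^ (n - T) = w / D ^ j).card : ℝ) := by
  have e1 : n - T - j = n - (T + j) := by omega
  rcases hG (T + j) hT w with h | h
  · rw [e1, h, Nat.cast_zero]
    positivity
  · have hne : (G.filter fun y => y / D ^ (n - (T + j)) = w).Nonempty := by
      rw [← Finset.card_pos, h]
      positivity
    obtain ⟨y, hy⟩ := hne
    rw [Finset.mem_filter] at hy
    have hy2 : y / D ^ (n - T) = w / D ^ j := by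
      rw [← hy.2, Nat.div_div_eq_div_mul, ← pow_add]
      congr 2
      omega
    have h2 : (G.filter fun y => y / D ^ (n - T) = w / D ^ j).card =
        2 ^ (∑ i ∈ Ico T n, c i) := by
      rcases hG T (by omega) (w / D ^ j) with h0 | h0
      · exfalso
        rw [Finset.card_eq_zero] at h0
        exact Finset.notMem_empty y (h0 ▸ Finset.mem_filter.2 ⟨hy.1, hy2⟩)
      · exact h0
    rw [e1, h, h2, ← Finset.sum_Ico_consecutive c (Nat.le_add_right T j) hT, pow_add, Nat.cast_mul,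
      Nat.cast_pow, Nat.cast_pow, ← mul_assoc, Nat.cast_ofNat, ← mul_pow]
    norm_num

theorem law {D L n N ℓ : ℕ} (hD : D = 2 ^ L) (hL : 1500 ≤ L) (hn : 1 ≤ n)
    (hℓ : 2 ^ (L * n) ≤ 16 * ℓ ^ 2) (B : Finset (ℕ × ℕ))
    (hB : B ⊆ range (D ^ N) ×ˢ range (D ^ n))
    (hrow : ∀ x < D ^ N, ℓ ≤ (B.filter fun z => z.1 = x).card) :
    ∃ (c : ℕ → ℕ) (p : ℕ → ℕ → ℝ), (∀ i, c i ≤ L) ∧
      48 * (n * L) ≤ 100 * ∑ i ∈ range n, c i ∧ (∀ x y, 0 ≤ p x y) ∧
      ∑ x ∈ range (D ^ N), ∑ y ∈ range (D ^ n), p x y = 1 ∧ (∀ x y, p x y ≠ 0 → (x, y) ∈ B) ∧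
      N * Real.log D - ∑ x ∈ range (D ^ N), Real.negMulLog (∑ y ∈ range (D ^ n), p x y) ≤
        n * Real.log D ∧
      ∀ a T j u w : ℕ, T + j ≤ n → mg D p a (n - T - j) u w ≤
        (1 / 2 : ℝ) ^ (∑ i ∈ Ico T (T + j), c i) * mg D p a (n - T) u (w / D ^ j) := by
  classical
  have hD0 : 0 < D := by rw [hD]; positivity
  have hℓ1 : 1 ≤ ℓ := by
    rcases Nat.eq_zero_or_pos ℓ with h | h
    · rw [h] at hℓ
      have : 0 < 2 ^ (L * n) := by positivity
      omega
    · exact h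
  have hDN : 1 ≤ D ^ N := Nat.one_le_pow _ _ hD0
  obtain ⟨c, X, F, hc, hX, hcard, hl, hF⟩ := rows hD hℓ1 hDN B hB hrow
  have hXpos : 0 < X.card := by
    rcases Nat.eq_zero_or_pos X.card with h | h
    · rw [h, Nat.zero_mul] at hcard
      omega
    · exact h
  set C : ℕ := ∑ i ∈ range n, c i with hCdef
  have hXR : (0 : ℝ) < X.card := by exact_mod_cast hXpos
  have h2C : (0 : ℝ) < 2 ^ C := by positivity
  set κ : ℝ := 1 / (X.card * 2 ^ C) with hκ
  have hκ0 : 0 ≤ κ := by positivity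
  let p : ℕ → ℕ → ℝ := fun x y => if x ∈ X ∧ y ∈ F x then κ else 0
  have hp : ∀ x y, p x y = if x ∈ X ∧ y ∈ F x then κ else 0 := fun _ _ => rfl
  have hpn : ∀ x y, 0 ≤ p x y := fun x y => by
    rw [hp]
    split_ifs
    · exact hκ0
    · exact le_rfl
  -- partial rows
  have hpart : ∀ b x w, ∑ y ∈ range (D ^ b), p x (w * D ^ b + y) =
      if x ∈ X then (((F x).filter fun y => y / D ^ b = w).card : ℝ) * κ else 0 := by
    intro b x w
    by_cases hx : x ∈ X
    · rw [if_pos hx, ← law_cnt hD0]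
      refine Finset.sum_congr rfl fun y _ => ?_
      rw [hp]
      simp only [hx, true_and]
    · rw [if_neg hx]
      refine Finset.sum_eq_zero fun y _ => ?_
      rw [hp, if_neg (fun h => hx h.1)]
  have hrowsum : ∀ x, ∑ y ∈ range (D ^ n), p x y = if x ∈ X then 1 / (X.card : ℝ) else 0 := by
    intro x
    have h := hpart n x 0
    simp only [Nat.zero_mul, Nat.zero_add] at h
    rw [h]
    by_cases hx : x ∈ X
    · rw [if_pos hx, if_pos hx]
      have h1 : ((F x).filter fun y => y / D ^ n = 0) = F x := by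
        refine Finset.filter_true_of_mem fun y hy => Nat.div_eq_of_lt ?_
        exact Finset.mem_range.1 ((hF x hx).2.1 hy)
      rw [h1, (hF x hx).2.2.2, hκ]
      push_cast
      field_simp
    · rw [if_neg hx, if_neg hx]
  have hXsum : ∀ g : ℝ, ∑ x ∈ range (D ^ N), (if x ∈ X then g else 0) = X.card * g := by
    intro g
    rw [← Finset.sum_filter, Finset.sum_const, nsmul_eq_mul]
    congr 2
    congr 1
    ext x
    rw [Finset.mem_filter]
    exact ⟨fun h => h.2, fun h => ⟨hX h, h⟩⟩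
  refine ⟨c, p, hc, law_C hL hn hℓ hl, hpn, ?_, ?_, ?_, ?_⟩
  · rw [Finset.sum_congr rfl fun x _ => hrowsum x, hXsum]
    field_simp
  · intro x y h
    rw [hp] at h
    by_cases h1 : x ∈ X ∧ y ∈ F x
    · exact (hF x h1.1).1 y h1.2
    · rw [if_neg h1] at h
      exact absurd rfl h
  · have h1 : ∑ x ∈ range (D ^ N), Real.negMulLog (∑ y ∈ range (D ^ n), p x y) =
        Real.log X.card := by
      have h2 : ∀ x, Real.negMulLog (∑ y ∈ range (D ^ n), p x y) =
          if x ∈ X then Real.negMulLog (1 / (X.card : ℝ)) else 0 := by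
        intro x
        rw [hrowsum]
        split_ifs
        · rfl
        · exact Real.negMulLog_zero
      rw [Finset.sum_congr rfl fun x _ => h2 x, hXsum, Real.negMulLog, one_div, Real.log_inv]
      field_simp
    rw [h1]
    have h3 : (N : ℝ) * Real.log D ≤ Real.log X.card + n * Real.log (L + 1) := by
      have h4 : ((D ^ N : ℕ) : ℝ) ≤ ((X.card * (L + 1) ^ n : ℕ) : ℝ) := by exact_mod_cast hcard
      push_cast at h4
      have h5 := Real.log_le_log (by positivity) h4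
      rwa [Real.log_pow, Real.log_mul hXR.ne' (by positivity), Real.log_pow] at h5
    have h6 : Real.log ((L : ℝ) + 1) ≤ Real.log D := by
      refine Real.log_le_log (by positivity) ?_
      have h7 : L + 1 ≤ D := by
        rw [hD]
        exact Nat.lt_two_pow_self
      exact_mod_cast h7
    have h8 : (n : ℝ) * Real.log (L + 1) ≤ n * Real.log D :=
      mul_le_mul_of_nonneg_left h6 (Nat.cast_nonneg n)
    linarith
  · intro a T j u w hT
    unfold mg
    rw [Finset.mul_sum]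
    refine Finset.sum_le_sum fun x _ => ?_
    rw [hpart, hpart]
    by_cases hx : u * D ^ a + x ∈ X
    · rw [if_pos hx, if_pos hx, ← mul_assoc]
      exact mul_le_mul_of_nonneg_right (law_reg (hF _ hx).2.2.1 hT) hκ0
    · rw [if_neg hx, if_neg hx, mul_zero]

end FTT
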