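import Pool.Agent.FTT.Defs

/-!
# FTT.Marg: the marginals of a window

PROOF. `FHT.mg_row` and `FHT.mg_col` split one digit; `FHT.sum_digits` and the definition give the splitting of `g`
digits: `mg D p (a+g) b u v = ∑_{A < D^g} mg D p a b (u D^g + A) v` and the same for columns.
With `S + g < N`, `T + g < n`: `N - S - g = (N - S - g - 1) + 1`, `N - S = (N - S - g) + g`, etc.
-/

namespace FTT

open Finset FHT

theorem mg_rows {D : ℕ} (p : ℕ → ℕ → ℝ) (g a b u v : ℕ) :
    mg D p (a + g) b u v = ∑ A ∈ range (D ^ g), mg D p a b (u * D ^ g + A) v := by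
  unfold mg
  rw [add_comm a g, pow_add D g a, sum_digits]
  refine Finset.sum_congr rfl fun A _ => Finset.sum_congr rfl fun x _ =>
    Finset.sum_congr rfl fun y _ => ?_
  congr 1
  ring

theorem mg_cols {D : ℕ} (p : ℕ → ℕ → ℝ) (g a b u v : ℕ) :
    mg D p a (b + g) u v = ∑ B ∈ range (D ^ g), mg D p a b u (v * D ^ g + B) := by
  unfold mg
  rw [Finset.sum_comm]
  rw [add_comm b g, pow_add D g b, sum_digits]
  refine Finset.sum_congr rfl fun B _ => ?_
  rw [Finset.sum_comm]
  refine Finset.sum_congr rfl fun x _ => Finset.sum_congr rfl fun y _ => ?_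
  congr 1
  ring

variable {D : ℕ} {p : ℕ → ℕ → ℝ} {N n g S T u v : ℕ}

theorem w_mAaB (hS : S + g < N) (hT : T + g < n) (A a B : ℕ) :
    mAaB D (wnd D p N n g S T u v) A a B =
      mg D p (N - S - g - 1) (n - T - g) ((u * D ^ g + A) * D + a) (v * D ^ g + B) := by
  have h : n - T - g = (n - T - g - 1) + 1 := by omega
  unfold mAaB wnd
  rw [h, mg_col]
  rfl

theorem w_mABb (hS : S + g < N) (hT : T + g < n) (A B b : ℕ) :
    mABb D (wnd D p N n g S T u v) A B b =
      mg D p (N - S - g) (n - T - g - 1) (u * D ^ g + A) ((v * D ^ g + B) * D + b) := by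
  have h : N - S - g = (N - S - g - 1) + 1 := by omega
  unfold mABb wnd
  rw [h, mg_row]
  rfl

theorem w_mAB (hS : S + g < N) (hT : T + g < n) (A B : ℕ) :
    mAB D (wnd D p N n g S T u v) A B =
      mg D p (N - S - g) (n - T - g) (u * D ^ g + A) (v * D ^ g + B) := by
  have h : N - S - g = (N - S - g - 1) + 1 := by omega
  have h1 : mAB D (wnd D p N n g S T u v) A B =
      ∑ a ∈ range D, mAaB D (wnd D p N n g S T u v) A a B := rfl
  rw [h1, h, mg_row]
  exact Finset.sum_congr rfl fun a _ => w_mAaB hS hT A a B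

theorem w_mA (hS : S + g < N) (hT : T + g < n) (A : ℕ) :
    mA (D ^ g) D (wnd D p N n g S T u v) A = mg D p (N - S - g) (n - T) (u * D ^ g + A) v := by
  have h : n - T = (n - T - g) + g := by omega
  unfold mA
  rw [h, mg_cols]
  exact Finset.sum_congr rfl fun B _ => by rw [w_mAB hS hT]

theorem w_mB (hS : S + g < N) (hT : T + g < n) (B : ℕ) :
    mB (D ^ g) D (wnd D p N n g S T u v) B = mg D p (N - S) (n - T - g) u (v * D ^ g + B) := by
  have h : N - S = (N - S - g) + g := by omega
  unfold mB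
  rw [h, mg_rows]
  exact Finset.sum_congr rfl fun A _ => by rw [w_mAB hS hT]

theorem w_mAa (hS : S + g < N) (hT : T + g < n) (A a : ℕ) :
    mAa (D ^ g) D (wnd D p N n g S T u v) A a =
      mg D p (N - S - g - 1) (n - T) ((u * D ^ g + A) * D + a) v := by
  have h : n - T = (n - T - g) + g := by omega
  unfold mAa
  rw [h, mg_cols]
  exact Finset.sum_congr rfl fun B _ => by rw [w_mAaB hS hT]

theorem w_mBb (hS : S + g < N) (hT : T + g < n) (B b : ℕ) :
    mBb (D ^ g) D (wnd D p N n g S T u v) B b =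
      mg D p (N - S) (n - T - g - 1) u ((v * D ^ g + B) * D + b) := by
  have h : N - S = (N - S - g) + g := by omega
  unfold mBb
  rw [h, mg_rows]
  exact Finset.sum_congr rfl fun A _ => by rw [w_mABb hS hT]

theorem w_mP (hS : S + g < N) (hT : T + g < n) :
    mP (D ^ g) D (wnd D p N n g S T u v) = mg D p (N - S) (n - T) u v := by
  have h : N - S = (N - S - g) + g := by omega
  unfold mP
  rw [h, mg_rows]
  exact Finset.sum_congr rfl fun A _ => by rw [w_mA hS hT]

end FTT
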