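import Pool.Agent.FTT.Defs

/-!
# FTT.RegEx: every set of numbers contains a large regular subset

PROOF of `reg_exists`. Induction on `n`. `n = 0`: `F = {0}`, `c = 0`, `F' = F`.
Step from `n` to `n+1`: for `v < D^n` let `d v = #{y ∈ F : y/D = v} ≤ D = 2^L`, and for `j ≤ L` let
`V_j = {v < D^n : 1 ≤ d v, Nat.log 2 (d v) = j}`. Then `|F| = ∑_{j ≤ L} ∑_{v ∈ V_j} d v ≤ ∑_{j ≤ L} |V_j| 2^(j+1)`, so there
is `j` with `|F| ≤ (L+1) |V_j| 2^(j+1)`, and `V_j` is nonempty. Apply the induction hypothesis to `V_j ⊆ range (D^n)`: get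
`c'`, `V'`. For `v ∈ V'` choose a subset `K_v` of exactly `2^j ≤ d v` elements of `{y ∈ F : y/D = v}`, `F' = ⋃_{v ∈ V'} K_v`,
`c i = c' i` for `i < n` and `c i = j` for `i ≥ n`. Regular: for `t ≤ n`, `y/D^(n+1-t) = (y/D)/D^(n-t)`, so the number of
`y ∈ F'` with prefix `v` is `2^j` times the number of the elements of `V'` with prefix `v`; for `t = n+1` the prefix is `y`
itself. Finally `|F| ≤ (L+1) 2^(j+1) |V_j| ≤ 2^j (2 (L+1)) 2^(c' 0 + ... + c' (n-1)) (2 (L+1))^n`.
-/

namespace FTT

open Finset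

private theorem RegEx_single (F : Finset ℕ) (v : ℕ) :
    (F.filter fun y => y = v).card = 0 ∨ (F.filter fun y => y = v).card = 1 := by
  have h : (F.filter fun y => y = v).card ≤ 1 :=
    Finset.card_le_one.2 fun a ha b hb =>
      ((Finset.mem_filter.1 ha).2).trans ((Finset.mem_filter.1 hb).2).symm
  omega

private theorem RegEx_fib {D L : ℕ} (hD : D = 2 ^ L) (F : Finset ℕ) (v : ℕ) :
    (F.filter fun y => y / D = v).card ≤ D := by
  have hD0 : 0 < D := hD ▸ Nat.two_pow_pos L
  have h : (F.filter fun y => y / D = v) ⊆ (range D).image fun i => v * D + i := by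
    intro y hy
    have h1 := (Finset.mem_filter.1 hy).2
    refine Finset.mem_image.2 ⟨y % D, Finset.mem_range.2 (Nat.mod_lt _ hD0), ?_⟩
    rw [← h1, mul_comm]
    exact Nat.div_add_mod y D
  refine (Finset.card_le_card h).trans (Finset.card_image_le.trans ?_)
  rw [Finset.card_range]

private theorem RegEx_log {D L : ℕ} (hD : D = 2 ^ L) (F : Finset ℕ) (v : ℕ) :
    Nat.log 2 (F.filter fun y => y / D = v).card ≤ L := by
  have h := Nat.log_mono_right (b := 2) (RegEx_fib hD F v)
  rwa [hD, Nat.log_pow (by norm_num : 1 < 2), ← hD] at h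

private theorem RegEx_pick {D L : ℕ} (hD : D = 2 ^ L) (F : Finset ℕ) (hne : F.Nonempty) :
    ∃ j ≤ L, ∃ V : Finset ℕ, V.Nonempty ∧ V ⊆ F.image (fun y => y / D) ∧
      (∀ v ∈ V, 2 ^ j ≤ (F.filter fun y => y / D = v).card) ∧
      F.card ≤ (L + 1) * (V.card * 2 ^ (j + 1)) := by
  set d : ℕ → ℕ := fun v => (F.filter fun y => y / D = v).card with hd
  set I := F.image fun y => y / D with hI
  have h1 : F.card = ∑ v ∈ I, d v := by
    rw [Finset.card_eq_sum_card_image (fun y => y / D) F]
  have h2 : ∑ v ∈ I, d v = ∑ j ∈ range (L + 1), ∑ v ∈ I.filter (fun v => Nat.log 2 (d v) = j), d v := by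
    refine (Finset.sum_fiberwise_of_maps_to (fun v _ => ?_) d).symm
    exact Finset.mem_range.2 (Nat.lt_succ_of_le (RegEx_log hD F v))
  have h3 : ∃ j ∈ range (L + 1), F.card ≤
      (L + 1) * ∑ v ∈ I.filter (fun v => Nat.log 2 (d v) = j), d v := by
    by_contra hcon
    push Not at hcon
    have h4 : ∑ j ∈ range (L + 1), (L + 1) * ∑ v ∈ I.filter (fun v => Nat.log 2 (d v) = j), d v <
        ∑ j ∈ range (L + 1), F.card :=
      Finset.sum_lt_sum_of_nonempty ⟨0, Finset.mem_range.2 (Nat.succ_pos L)⟩ hcon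
    rw [← Finset.mul_sum, ← h2, ← h1, Finset.sum_const, Finset.card_range, smul_eq_mul] at h4
    exact lt_irrefl _ h4
  obtain ⟨j, hj, hjF⟩ := h3
  have hpos : 0 < F.card := Finset.card_pos.2 hne
  have hdpos : ∀ v ∈ I, d v ≠ 0 := by
    intro v hv
    obtain ⟨y, hy, hyv⟩ := Finset.mem_image.1 hv
    exact (Finset.card_pos.2 ⟨y, Finset.mem_filter.2 ⟨hy, hyv⟩⟩).ne'
  refine ⟨j, Nat.lt_succ_iff.1 (Finset.mem_range.1 hj), I.filter (fun v => Nat.log 2 (d v) = j),
    ?_, Finset.filter_subset _ _, ?_, ?_⟩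
  · rw [Finset.nonempty_iff_ne_empty]
    intro h0
    rw [h0, Finset.sum_empty, mul_zero] at hjF
    omega
  · intro v hv
    obtain ⟨hvI, hvj⟩ := Finset.mem_filter.1 hv
    have h5 := Nat.pow_log_le_self 2 (hdpos v hvI)
    rwa [hvj] at h5
  · refine hjF.trans (Nat.mul_le_mul_left _ ?_)
    rw [← smul_eq_mul (a := (I.filter (fun v => Nat.log 2 (d v) = j)).card), ← Finset.sum_const]
    refine Finset.sum_le_sum fun v hv => ?_
    obtain ⟨hvI, hvj⟩ := Finset.mem_filter.1 hv
    have h5 := Nat.lt_pow_succ_log_self (b := 2) (by norm_num) (d v)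
    rw [hvj] at h5
    exact h5.le

theorem reg_exists {D L : ℕ} (hD : D = 2 ^ L) (n : ℕ) (F : Finset ℕ) (hF : F ⊆ range (D ^ n))
    (hne : F.Nonempty) :
    ∃ (c : ℕ → ℕ) (F' : Finset ℕ), (∀ i, c i ≤ L) ∧ F' ⊆ F ∧ F'.Nonempty ∧ Reg D n c F' ∧
      F.card ≤ 2 ^ (∑ i ∈ range n, c i) * (2 * (L + 1)) ^ n := by
  have hD0 : 0 < D := hD ▸ Nat.two_pow_pos L
  induction n generalizing F with
  | zero =>
    refine ⟨fun _ => 0, F, fun _ => Nat.zero_le _, subset_rfl, hne, ?_, ?_⟩
    · intro t ht v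
      obtain rfl : t = 0 := by omega
      simp only [Nat.sub_self, pow_zero, Nat.div_one, Finset.Ico_self, Finset.sum_empty]
      exact RegEx_single F v
    · have h := Finset.card_le_card hF
      rw [Finset.card_range] at h
      simpa using h
  | succ n ih =>
    obtain ⟨j, hj, V, hV0, hVI, hVd, hVc⟩ := RegEx_pick hD F hne
    have hVr : V ⊆ range (D ^ n) := by
      intro v hv
      obtain ⟨y, hy, rfl⟩ := Finset.mem_image.1 (hVI hv)
      have h1 := Finset.mem_range.1 (hF hy)
      refine Finset.mem_range.2 (Nat.div_lt_of_lt_mul ?_)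
      rwa [mul_comm, ← pow_succ]
    obtain ⟨c', V', hc', hV'V, hV'0, hReg, hcard⟩ := ih V hVr hV0
    have hK : ∀ v, ∃ K : Finset ℕ, v ∈ V' → K ⊆ (F.filter fun y => y / D = v) ∧ K.card = 2 ^ j := by
      intro v
      by_cases hv : v ∈ V'
      · obtain ⟨K, hK1, hK2⟩ := Finset.exists_subset_card_eq (hVd v (hV'V hv))
        exact ⟨K, fun _ => ⟨hK1, hK2⟩⟩
      · exact ⟨∅, fun h => absurd h hv⟩
    choose K hK using hK
    have hdiv : ∀ v ∈ V', ∀ y ∈ K v, y / D = v := fun v hv y hy =>
      (Finset.mem_filter.1 ((hK v hv).1 hy)).2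
    refine ⟨fun i => if i < n then c' i else j, V'.biUnion K, ?_, ?_, ?_, ?_, ?_⟩
    · intro i
      dsimp only
      split_ifs
      · exact hc' i
      · exact hj
    · intro y hy
      obtain ⟨v, hv, hyv⟩ := Finset.mem_biUnion.1 hy
      exact (Finset.mem_filter.1 ((hK v hv).1 hyv)).1
    · obtain ⟨v, hv⟩ := hV'0
      have h1 : (K v).Nonempty := by
        rw [← Finset.card_pos, (hK v hv).2]
        exact Nat.two_pow_pos j
      obtain ⟨y, hy⟩ := h1
      exact ⟨y, Finset.mem_biUnion.2 ⟨v, hv, hy⟩⟩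
    · intro t ht v
      rcases Nat.lt_or_ge n t with htn | htn
      · obtain rfl : t = n + 1 := by omega
        simp only [Nat.sub_self, pow_zero, Nat.div_one, Finset.Ico_self, Finset.sum_empty]
        exact RegEx_single _ v
      · have h1 : ((V'.biUnion K).filter fun y => y / D ^ (n + 1 - t) = v) =
            (V'.filter fun w => w / D ^ (n - t) = v).biUnion K := by
          ext y
          simp only [Finset.mem_filter, Finset.mem_biUnion]
          have h2 : ∀ w ∈ V', y ∈ K w → y / D ^ (n + 1 - t) = w / D ^ (n - t) := by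
            intro w hw hyw
            rw [← hdiv w hw y hyw, Nat.div_div_eq_div_mul, ← pow_succ']
            congr 2
            omega
          constructor
          · rintro ⟨⟨w, hw, hyw⟩, hy⟩
            exact ⟨w, ⟨hw, by rw [← h2 w hw hyw, hy]⟩, hyw⟩
          · rintro ⟨w, ⟨hw, hwv⟩, hyw⟩
            exact ⟨⟨w, hw, hyw⟩, by rw [h2 w hw hyw, hwv]⟩
        have h3 : ((V'.biUnion K).filter fun y => y / D ^ (n + 1 - t) = v).card =
            (V'.filter fun w => w / D ^ (n - t) = v).card * 2 ^ j := by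
          rw [h1, Finset.card_biUnion]
          · rw [Finset.sum_congr rfl fun w hw => (hK w (Finset.mem_filter.1 hw).1).2,
              Finset.sum_const, smul_eq_mul]
          · intro w hw w' hw' hne'
            refine Finset.disjoint_left.2 ?_
            intro y hy hy'
            exact hne' ((hdiv w (Finset.mem_filter.1 hw).1 y hy).symm.trans
              (hdiv w' (Finset.mem_filter.1 hw').1 y hy'))
        have h4 : ∑ i ∈ Ico t (n + 1), (if i < n then c' i else j) = ∑ i ∈ Ico t n, c' i + j := by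
          rw [Finset.sum_Ico_succ_top htn, if_neg (lt_irrefl n)]
          congr 1
          refine Finset.sum_congr rfl fun i hi => ?_
          rw [if_pos (Finset.mem_Ico.1 hi).2]
        rw [h3, h4]
        rcases hReg t htn v with h5 | h5
        · left
          rw [h5, zero_mul]
        · right
          rw [h5, ← pow_add]
    · have h4 : ∑ i ∈ range (n + 1), (if i < n then c' i else j) = ∑ i ∈ range n, c' i + j := by
        rw [Finset.sum_range_succ, if_neg (lt_irrefl n)]
        congr 1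
        refine Finset.sum_congr rfl fun i hi => ?_
        rw [if_pos (Finset.mem_range.1 hi)]
      rw [h4]
      calc F.card ≤ (L + 1) * (V.card * 2 ^ (j + 1)) := hVc
        _ ≤ (L + 1) * ((2 ^ (∑ i ∈ range n, c' i) * (2 * (L + 1)) ^ n) * 2 ^ (j + 1)) :=
          Nat.mul_le_mul_left _ (Nat.mul_le_mul_right _ hcard)
        _ = 2 ^ (∑ i ∈ range n, c' i + j) * (2 * (L + 1)) ^ (n + 1) := by
          ring

end FTT
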