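import Pool.Agent.FTT.RegEx

/-!
# FTT.Rows: many rows with regular subsets of the same profile

PROOF of `rows`. For every `x < W` apply `reg_exists` to the row `{y : (x, y) ∈ B}` (at least `ℓ ≥ 1` elements, contained in
`range (D^n)`): get `c_x`, `F_x`. `Reg D n c` and the sum over `range n` depend only on the values `c i`, `i < n`. There are
`(L+1)^n` possible restrictions of `c_x` to `i < n` (map `x` to the function `Fin n → Fin (L+1)`), so by pigeonhole there is a
`c` (extended by `0`) such that `X = {x < W : c_x = c on i < n}` satisfies `W ≤ |X| (L+1)^n`. `X` is nonempty, take any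
`x ∈ X`: `ℓ ≤ |row| ≤ 2^(∑ c) (2 (L+1))^n`. Card of `F x`: `Reg` with `t = 0`, `v = 0` (`y / D^n = 0` for all `y < D^n`),
and `F x` is nonempty.
-/

namespace FTT

open Finset

theorem rows {D L n W ℓ : ℕ} (hD : D = 2 ^ L) (hℓ : 1 ≤ ℓ) (hW : 1 ≤ W) (B : Finset (ℕ × ℕ))
    (hB : B ⊆ range W ×ˢ range (D ^ n))
    (hrow : ∀ x < W, ℓ ≤ (B.filter fun z => z.1 = x).card) :
    ∃ (c : ℕ → ℕ) (X : Finset ℕ) (F : ℕ → Finset ℕ), (∀ i, c i ≤ L) ∧ X ⊆ range W ∧
      W ≤ X.card * (L + 1) ^ n ∧ ℓ ≤ 2 ^ (∑ i ∈ range n, c i) * (2 * (L + 1)) ^ n ∧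
      ∀ x ∈ X, (∀ y ∈ F x, (x, y) ∈ B) ∧ F x ⊆ range (D ^ n) ∧ Reg D n c (F x) ∧
        (F x).card = 2 ^ (∑ i ∈ range n, c i) := by
  classical
  set R : ℕ → Finset ℕ := fun x => (B.filter fun z => z.1 = x).image Prod.snd with hR
  have hRcard : ∀ x, (R x).card = (B.filter fun z => z.1 = x).card := by
    intro x
    refine Finset.card_image_of_injOn ?_
    intro z hz w hw h
    have h1 : z.1 = x := (Finset.mem_filter.1 hz).2
    have h2 : w.1 = x := (Finset.mem_filter.1 hw).2
    exact Prod.ext (h1.trans h2.symm) h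
  have hRmem : ∀ x y, y ∈ R x → (x, y) ∈ B := by
    intro x y hy
    rw [hR, Finset.mem_image] at hy
    obtain ⟨z, hz, rfl⟩ := hy
    rw [Finset.mem_filter] at hz
    obtain ⟨hz1, rfl⟩ := hz
    exact hz1
  have hRsub : ∀ x, R x ⊆ range (D ^ n) := by
    intro x y hy
    exact (Finset.mem_product.1 (hB (hRmem x y hy))).2
  have h1 : ∀ x, ∃ (c : ℕ → ℕ) (F' : Finset ℕ), x < W → ((∀ i, c i ≤ L) ∧ F' ⊆ R x ∧
      F'.Nonempty ∧ Reg D n c F' ∧ (R x).card ≤ 2 ^ (∑ i ∈ range n, c i) * (2 * (L + 1)) ^ n) := by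
    intro x
    by_cases hx : x < W
    · have hne : (R x).Nonempty := by
        rw [← Finset.card_pos, hRcard]
        exact lt_of_lt_of_le hℓ (hrow x hx)
      obtain ⟨c, F', h1, h2, h3, h4, h5⟩ := reg_exists hD n (R x) (hRsub x) hne
      exact ⟨c, F', fun _ => ⟨h1, h2, h3, h4, h5⟩⟩
    · exact ⟨0, ∅, fun h => absurd h hx⟩
  choose c F hcF using h1
  set g : ℕ → (Fin n → Fin (L + 1)) := fun x i => ⟨min (c x i) L, by omega⟩ with hg
  obtain ⟨y, _, hy⟩ := Finset.exists_max_image (Finset.univ : Finset (Fin n → Fin (L + 1)))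
    (fun y => ((range W).filter fun x => g x = y).card) ⟨fun _ => 0, Finset.mem_univ _⟩
  set X : Finset ℕ := (range W).filter fun x => g x = y with hX
  have hcard : W ≤ X.card * (L + 1) ^ n := by
    have h2 : (range W).card = ∑ y' ∈ (Finset.univ : Finset (Fin n → Fin (L + 1))),
        ((range W).filter fun x => g x = y').card :=
      Finset.card_eq_sum_card_fiberwise fun x _ => Finset.mem_coe.2 (Finset.mem_univ _)
    have h3 := Finset.sum_le_card_nsmul (Finset.univ : Finset (Fin n → Fin (L + 1)))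
      (fun y' => ((range W).filter fun x => g x = y').card) X.card (fun y' hy' => hy y' hy')
    rw [← h2, Finset.card_range, Finset.card_univ, Fintype.card_fun, Fintype.card_fin,
      Fintype.card_fin, smul_eq_mul, mul_comm] at h3
    exact h3
  set c0 : ℕ → ℕ := fun i => if h : i < n then (y ⟨i, h⟩ : ℕ) else 0 with hc0
  have hcc : ∀ x ∈ X, ∀ i < n, c x i = c0 i := by
    intro x hx i hi
    rw [hX, Finset.mem_filter, Finset.mem_range] at hx
    have h4 : (g x ⟨i, hi⟩ : ℕ) = (y ⟨i, hi⟩ : ℕ) := by rw [hx.2]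
    have h5 : (g x ⟨i, hi⟩ : ℕ) = min (c x i) L := rfl
    have h6 := (hcF x hx.1).1 i
    have h7 : c0 i = (y ⟨i, hi⟩ : ℕ) := by
      simp only [hc0]
      rw [dif_pos hi]
    rw [h7, ← h4, h5, min_eq_left h6]
  have hsum : ∀ x ∈ X, ∑ i ∈ range n, c x i = ∑ i ∈ range n, c0 i := by
    intro x hx
    exact Finset.sum_congr rfl fun i hi => hcc x hx i (Finset.mem_range.1 hi)
  have hXne : X.Nonempty := by
    rw [← Finset.card_pos]
    rcases Nat.eq_zero_or_pos X.card with h | h
    · rw [h, Nat.zero_mul] at hcard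
      omega
    · exact h
  have hXW : ∀ x ∈ X, x < W := fun x hx => Finset.mem_range.1 (Finset.mem_filter.1 hx).1
  refine ⟨c0, X, F, ?_, Finset.filter_subset _ _, hcard, ?_, ?_⟩
  · intro i
    simp only [hc0]
    split_ifs with h
    · exact Nat.lt_succ_iff.1 (y ⟨i, h⟩).2
    · exact Nat.zero_le _
  · obtain ⟨x, hx⟩ := hXne
    have h2 := (hcF x (hXW x hx)).2.2.2.2
    rw [hsum x hx, hRcard] at h2
    exact (hrow x (hXW x hx)).trans h2
  · intro x hx
    obtain ⟨h2, h3, h4, h5, _⟩ := hcF x (hXW x hx)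
    have h6 : Reg D n c0 (F x) := by
      intro t ht v
      have h7 : ∑ i ∈ Ico t n, c x i = ∑ i ∈ Ico t n, c0 i :=
        Finset.sum_congr rfl fun i hi => hcc x hx i (Finset.mem_Ico.1 hi).2
      have h8 := h5 t ht v
      rw [h7] at h8
      exact h8
    refine ⟨fun y hy => hRmem x y (h3 hy), h3.trans (hRsub x), h6, ?_⟩
    have h7 := h6 0 (Nat.zero_le _) 0
    have h8 : ((F x).filter fun y => y / D ^ (n - 0) = 0) = F x := by
      rw [Finset.filter_eq_self]
      intro y hy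
      rw [Nat.sub_zero]
      exact Nat.div_eq_of_lt (Finset.mem_range.1 (hRsub x (h3 hy)))
    rw [h8, ← Finset.range_eq_Ico] at h7
    rcases h7 with h7 | h7
    · rw [Finset.card_eq_zero] at h7
      rw [h7] at h4
      exact absurd h4 (by simp)
    · exact h7

end FTT
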