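import Pool.Agent.FTT.Core
import Pool.Agent.FHT.MT

/-!
# FTT.UB: the upper bound with explicit parameters

PROOF. `FHT.mt` with `s = (2^(2L))^n = 2^(2 L n)`, `ℓ = 2^(L n - 1)` (`4 ℓ^2 = s`, `16 ℓ^2 = 4 s`), `W = (2^(2L))^(2^14 n)`;
`h1`, `h2` are `core` for `σ` and `σ.symm`. `8 s W = 2^(3 + 2 L n + 2 L n 2^14)`.
-/

namespace FTT

open Finset FHT

theorem ub {k q m L n g : ℕ} (σ : Equiv.Perm (Fin k)) (hq : 1 ≤ q) (hm : k ≤ m * q)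
    (hm1 : 1 ≤ m) (hg : g = m + 100) (hL : 750 ≤ L) (hLq : 8 * q ≤ 2 ^ (L / 5))
    (hn1 : 128 * q * L ≤ n) (hn2 : 8 * g * m * L ≤ n) (hn3 : 2 * g ^ 2 * L ≤ n)
    (hn4 : 100 * g ≤ n) (N : ℕ) (A : Finset (ℕ × ℕ)) (hA : A ⊆ range N ×ˢ range N)
    (hA' : ¬ Cont A σ) : A.card ≤ 2 ^ (2 * L * n * (2 ^ 14 + 1) + 3) * N := by
  have hn : 1 ≤ n := by omega
  obtain ⟨t, ht⟩ : ∃ t, L * n = t + 1 :=
    ⟨L * n - 1, (Nat.sub_add_cancel (Nat.mul_pos (by omega) hn)).symm⟩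
  have hs : ((2 : ℕ) ^ (2 * L)) ^ n = 4 * (2 ^ t) ^ 2 := by
    rw [← pow_mul, ← pow_mul, mul_assoc, ht]
    ring
  have hs' : (2 : ℕ) ^ (2 * L * n) = 4 * (2 ^ t) ^ 2 := by
    rw [← hs, pow_mul]
  have hp : 1 ≤ (2 ^ t) ^ 2 := Nat.one_le_pow _ _ (Nat.two_pow_pos t)
  have hW : 1 ≤ ((2 : ℕ) ^ (2 * L)) ^ (2 ^ 14 * n) :=
    Nat.one_le_pow _ _ (Nat.two_pow_pos _)
  have hℓ : 2 ^ (2 * L * n) ≤ 16 * (2 ^ t) ^ 2 := by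
    rw [hs']
    exact Nat.mul_le_mul_right _ (by norm_num)
  have key := mt (k := k) (s := ((2 : ℕ) ^ (2 * L)) ^ n) (ℓ := 2 ^ t)
    (W := ((2 : ℕ) ^ (2 * L)) ^ (2 ^ 14 * n)) σ (by rw [hs]; omega) (by rw [hs]) hW
    (fun B hB hrow => core σ hq hm hm1 hg hL hLq hn1 hn2 hn3 hn4 hℓ B hB hrow)
    (fun B hB hrow => core σ.symm hq hm hm1 hg hL hLq hn1 hn2 hn3 hn4 hℓ B hB hrow) N A hA hA'
  refine key.trans (le_of_eq ?_)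
  congr 1
  rw [← pow_mul, ← pow_mul]
  have h8 : (8 : ℕ) = 2 ^ 3 := by norm_num
  rw [h8, ← pow_add, ← pow_add]
  congr 1
  ring

end FTT
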